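import Mathlib
import Pool.Agent.Lib.MP_e52354_ntG.MForms

/-!
Logarithmic version of the height machine: vectors with additional logarithmic coordinates, their
weights, and the integrality of determinants.
-/

namespace Pool.Agent.Lib.MP_44a246_ntT

open Pool.Agent.Lib.MP_e52354_nt
open Pool.Agent.Lib.MP_e52354_ntG

universe u w w'

section Vec

variable {s q : ℕ} {d : Fin q → ℕ} {γ : Type w'} {M : Type u} [Field M] {β : Type}

/-- the value of the form `j` at the point -/
noncomputable def zv (X : DData (MIdx s q d) γ M) (p : Fin s → M) (j : Fin q) : M :=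
  Fval (d j) (mA X j) p

/-- the point with the additional coordinates: the Euler vector -/
noncomputable def lp (d : Fin q → ℕ) (p : Fin s → M) (g : β → Fin q) : Fin s ⊕ β → M :=
  Sum.elim p (fun b => (d (g b) : M))

/-- the vector of a derivation: derivatives of the coordinates, and logarithmic derivatives of the
values of the forms `g b` -/
noncomputable def lD (X : DData (MIdx s q d) γ M) (p : Fin s → M) (g : β → Fin q)
    (D : Derivation ℤ M M) : Fin s ⊕ β → M :=
  Sum.elim (fun k => D (p k)) (fun b => D (zv X p (g b)) / zv X p (g b))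

open Classical in
/-- the gradient with its logarithmic coordinates -/
noncomputable def lgr (X : DData (MIdx s q d) γ M) (p : Fin s → M) (g : β → Fin q)
    (j : Fin q) : Fin s ⊕ β → M :=
  Sum.elim (mgrad X p j) (fun b => if g b = j then - zv X p j else 0)

/-- admissible triples: also the logarithmic derivatives of the normalised values of the forms
`g b` are controlled, and the same for the further derivations in `EE` -/
structure Adml (X : DData (MIdx s q d) γ M) (p : Fin s → M) (g : β → Fin q)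
    (EE : Set (Derivation ℤ M M)) (O : Subring M) (δ : M) (l : Fin s) : Prop
    extends Adm X p O δ l where
  hlog : ∀ b I, δ * (X.D I (zv X p (g b) / p l ^ d (g b)) / (zv X p (g b) / p l ^ d (g b))) ∈ O
  hE : ∀ E ∈ EE, ∀ y ∈ O, δ * E y ∈ O
  hElog : ∀ E ∈ EE, ∀ b,
    δ * (E (zv X p (g b) / p l ^ d (g b)) / (zv X p (g b) / p l ^ d (g b))) ∈ O

/-- the scalar `y` has weight `w` (with denominator exponent `c`) -/
def WSl (X : DData (MIdx s q d) γ M) (p : Fin s → M) (g : β → Fin q)
    (EE : Set (Derivation ℤ M M)) (c w : ℕ) (y : M) : Prop :=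
  ∀ (O : Subring M) (δ : M) (l : Fin s), Adml X p g EE O δ l →
    ∃ y' : M, δ ^ c * y' ∈ O ∧ y = p l ^ w * y'

/-- the vector `y` has weight `w` (with denominator exponent `c`); the weight of the logarithmic
coordinates is shifted by one -/
def WTl (X : DData (MIdx s q d) γ M) (p : Fin s → M) (g : β → Fin q)
    (EE : Set (Derivation ℤ M M)) (c w : ℕ) (y : Fin s ⊕ β → M) : Prop :=
  ∀ (O : Subring M) (δ : M) (l : Fin s), Adml X p g EE O δ l →
    ∃ (t : M) (y' : Fin s ⊕ β → M), (∀ k, δ ^ c * y' k ∈ O) ∧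
      (∀ k, y (Sum.inl k) = p l ^ w * y' (Sum.inl k) + t * p k) ∧
      ∀ b, y (Sum.inr b) * p l = p l ^ w * y' (Sum.inr b) + t * (d (g b) : M) * p l

/-- the local property: `J` times the power `e` of the size of the point is controlled -/
def LBl (X : DData (MIdx s q d) γ M) (p : Fin s → M) (g : β → Fin q)
    (EE : Set (Derivation ℤ M M)) (c e : ℕ) (J : M) : Prop :=
  ∀ (O : Subring M) (δ : M) (l : Fin s), Adml X p g EE O δ l → δ ^ c * (J * p l ^ e) ∈ O

end Vec

section Basic

variable {s q : ℕ} {d : Fin q → ℕ} {γ : Type w'} {M : Type u} [Field M] {β : Type}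
  {X : DData (MIdx s q d) γ M} {p : Fin s → M} {g : β → Fin q} {EE : Set (Derivation ℤ M M)} {c w : ℕ}

theorem WSl.of_WS {y : M} (h : WS X p c w y) : WSl X p g EE c w y :=
  fun O δ l hA => h O δ l hA.toAdm

theorem WSl.mono_c {y : M} (h : WSl X p g EE c w y) (k : ℕ) : WSl X p g EE (c + k) w y := by
  intro O δ l hA
  obtain ⟨y', h1, h2⟩ := h O δ l hA
  exact ⟨y', hA.toAdm.mul_mem k h1, h2⟩

theorem WTl.mono_c {y : Fin s ⊕ β → M} (h : WTl X p g EE c w y) (k : ℕ) :
    WTl X p g EE (c + k) w y := by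
  intro O δ l hA
  obtain ⟨t, y', h1, h2⟩ := h O δ l hA
  exact ⟨t, y', fun i => hA.toAdm.mul_mem k (h1 i), h2⟩

theorem WSl.mul {c' w' : ℕ} {y z : M} (hy : WSl X p g EE c w y) (hz : WSl X p g EE c' w' z) :
    WSl X p g EE (c + c') (w + w') (y * z) := by
  intro O δ l hA
  obtain ⟨y', h1, h2⟩ := hy O δ l hA
  obtain ⟨z', h3, h4⟩ := hz O δ l hA
  refine ⟨y' * z', ?_, by rw [h2, h4, pow_add]; ring⟩
  have : δ ^ (c + c') * (y' * z') = (δ ^ c * y') * (δ ^ c' * z') := by rw [pow_add]; ring
  rw [this]; exact O.mul_mem h1 h3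

theorem WSl.smul {c' w' : ℕ} {y : M} {z : Fin s ⊕ β → M} (hy : WSl X p g EE c w y)
    (hz : WTl X p g EE c' w' z) : WTl X p g EE (c + c') (w + w') (y • z) := by
  intro O δ l hA
  obtain ⟨y', h1, h2⟩ := hy O δ l hA
  obtain ⟨t, z', h3, h4, h5⟩ := hz O δ l hA
  refine ⟨y * t, fun k => y' * z' k, fun k => ?_, fun k => ?_, fun b => ?_⟩
  · have : δ ^ (c + c') * (y' * z' k) = (δ ^ c * y') * (δ ^ c' * z' k) := by rw [pow_add]; ring
    rw [this]; exact O.mul_mem h1 (h3 k)
  · rw [Pi.smul_apply, smul_eq_mul, h4 k, h2, pow_add]; ring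
  · rw [Pi.smul_apply, smul_eq_mul, mul_assoc, h5 b, h2, pow_add]; ring

theorem WSl.add {y z : M} (hy : WSl X p g EE c w y) (hz : WSl X p g EE c w z) :
    WSl X p g EE c w (y + z) := by
  intro O δ l hA
  obtain ⟨y', h1, h2⟩ := hy O δ l hA
  obtain ⟨z', h3, h4⟩ := hz O δ l hA
  refine ⟨y' + z', ?_, by rw [h2, h4]; ring⟩
  rw [mul_add]; exact O.add_mem h1 h3

theorem WSl.neg {y : M} (hy : WSl X p g EE c w y) : WSl X p g EE c w (-y) := by
  intro O δ l hA
  obtain ⟨y', h1, h2⟩ := hy O δ l hA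
  refine ⟨-y', ?_, by rw [h2]; ring⟩
  rw [mul_neg]; exact O.neg_mem h1

theorem WSl.sub {y z : M} (hy : WSl X p g EE c w y) (hz : WSl X p g EE c w z) :
    WSl X p g EE c w (y - z) := by
  rw [sub_eq_add_neg]; exact hy.add hz.neg

theorem WSl.zero : WSl X p g EE c w (0 : M) := by
  intro O δ l _
  exact ⟨0, by rw [mul_zero]; exact O.zero_mem, by rw [mul_zero]⟩

theorem WSl.sum {τ : Type*} (S : Finset τ) {f : τ → M} (h : ∀ i ∈ S, WSl X p g EE c w (f i)) :
    WSl X p g EE c w (∑ i ∈ S, f i) := by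
  classical
  induction S using Finset.induction_on with
  | empty => rw [Finset.sum_empty]; exact WSl.zero
  | insert i S his ih =>
    rw [Finset.sum_insert his]
    exact (h i (Finset.mem_insert_self i S)).add (ih fun j hj => h j (Finset.mem_insert_of_mem hj))

theorem WTl.add {y z : Fin s ⊕ β → M} (hy : WTl X p g EE c w y) (hz : WTl X p g EE c w z) :
    WTl X p g EE c w (y + z) := by
  intro O δ l hA
  obtain ⟨t, y', h1, h2, h2'⟩ := hy O δ l hA
  obtain ⟨t', z', h3, h4, h4'⟩ := hz O δ l hA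
  refine ⟨t + t', fun k => y' k + z' k, fun k => ?_, fun k => ?_, fun b => ?_⟩
  · rw [mul_add]; exact O.add_mem (h1 k) (h3 k)
  · rw [Pi.add_apply, h2 k, h4 k]; ring
  · rw [Pi.add_apply, add_mul, h2' b, h4' b]; ring

theorem WTl.neg {y : Fin s ⊕ β → M} (hy : WTl X p g EE c w y) : WTl X p g EE c w (-y) := by
  intro O δ l hA
  obtain ⟨t, y', h1, h2, h2'⟩ := hy O δ l hA
  refine ⟨-t, fun k => - y' k, fun k => ?_, fun k => ?_, fun b => ?_⟩
  · rw [mul_neg]; exact O.neg_mem (h1 k)
  · rw [Pi.neg_apply, h2 k]; ring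
  · rw [Pi.neg_apply, neg_mul, h2' b]; ring

theorem WTl.sub {y z : Fin s ⊕ β → M} (hy : WTl X p g EE c w y) (hz : WTl X p g EE c w z) :
    WTl X p g EE c w (y - z) := by
  rw [sub_eq_add_neg]; exact hy.add hz.neg

theorem WTl.zero : WTl X p g EE c w (0 : Fin s ⊕ β → M) := by
  intro O δ l _
  refine ⟨0, fun _ => 0, fun k => ?_, fun k => by simp, fun b => by simp⟩
  rw [mul_zero]; exact O.zero_mem

theorem WTl.sum {τ : Type*} (S : Finset τ) {f : τ → Fin s ⊕ β → M}
    (h : ∀ i ∈ S, WTl X p g EE c w (f i)) : WTl X p g EE c w (∑ i ∈ S, f i) := by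
  classical
  induction S using Finset.induction_on with
  | empty => rw [Finset.sum_empty]; exact WTl.zero
  | insert i S his ih =>
    rw [Finset.sum_insert his]
    exact (h i (Finset.mem_insert_self i S)).add (ih fun j hj => h j (Finset.mem_insert_of_mem hj))

/-- the vector of a derivation has weight one -/
theorem WTl.of_der (hz : ∀ b, zv X p (g b) ≠ 0) {D : Derivation ℤ M M}
    (hD : ∀ (O : Subring M) (δ : M) (l : Fin s), Adml X p g EE O δ l → (∀ y ∈ O, δ * D y ∈ O) ∧
      ∀ b, δ * (D (zv X p (g b) / p l ^ d (g b)) / (zv X p (g b) / p l ^ d (g b))) ∈ O) :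
    WTl X p g EE 1 1 (lD X p g D) := by
  intro O δ l hA
  have hl := hA.hl
  obtain ⟨hD1, hD2⟩ := hD O δ l hA
  refine ⟨D (p l) / p l, Sum.elim (fun k => D (p k / p l))
    (fun b => D (zv X p (g b) / p l ^ d (g b)) / (zv X p (g b) / p l ^ d (g b))), ?_, ?_, ?_⟩
  · rintro (k | b)
    · rw [pow_one]; exact hD1 _ (hA.hp k)
    · rw [pow_one]; exact hD2 b
  · intro k
    show D (p k) = _
    have h1 : p k = p l * (p k / p l) := by field_simp
    conv_lhs => rw [h1]
    rw [Derivation.leibniz, smul_eq_mul, smul_eq_mul, pow_one]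
    simp only [Sum.elim_inl]
    field_simp
  · intro b
    simp only [lD, Sum.elim_inr]
    have h1 : zv X p (g b) = p l ^ d (g b) * (zv X p (g b) / p l ^ d (g b)) := by
      field_simp
    set U := zv X p (g b) / p l ^ d (g b) with hU
    have hU0 : U ≠ 0 := div_ne_zero (hz b) (pow_ne_zero _ hl)
    rw [h1, Derivation.leibniz, Derivation.leibniz_pow, smul_eq_mul, smul_eq_mul, pow_one,
      smul_eq_mul, nsmul_eq_mul]
    rcases Nat.eq_zero_or_pos (d (g b)) with h0 | h0
    · simp only [h0, pow_zero, one_mul, Nat.cast_zero, zero_mul, mul_zero, add_zero]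
      field_simp
    · have h2 : p l ^ d (g b) = p l ^ (d (g b) - 1) * p l := by
        rw [← pow_succ, Nat.sub_add_cancel h0]
      rw [h2]
      field_simp

/-- the vectors of the dual derivations have weight one -/
theorem WTl.deriv (hz : ∀ b, zv X p (g b) ≠ 0) (I : MIdx s q d) :
    WTl X p g EE 1 1 (lD X p g (X.D I)) :=
  WTl.of_der hz fun _ _ _ hA => ⟨fun y hy => hA.hDO I y hy, fun b => hA.hlog b I⟩

/-- the vectors of the further derivations have weight one -/
theorem WTl.derivE (hz : ∀ b, zv X p (g b) ≠ 0) {E : Derivation ℤ M M} (hE : E ∈ EE) :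
    WTl X p g EE 1 1 (lD X p g E) :=
  WTl.of_der hz fun _ _ _ hA => ⟨fun y hy => hA.hE E hE y hy, fun b => hA.hElog E hE b⟩

/-- a vector of integral scalars of weight `w` -/
theorem WTl.of_WSl [Finite β] {y : Fin s ⊕ β → M} (h : ∀ k, WSl X p g EE c w (y (Sum.inl k)))
    (h' : ∀ b l, WSl X p g EE c w (y (Sum.inr b) * p l)) : WTl X p g EE c w y := by
  intro O δ l hA
  choose y' h1 h2 using fun k => h k O δ l hA
  choose y'' h3 h4 using fun b => h' b l O δ l hA
  refine ⟨0, Sum.elim y' y'', ?_, fun k => ?_, fun b => ?_⟩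
  · rintro (k | b)
    · exact h1 k
    · exact h3 b
  · rw [zero_mul, add_zero]; exact h2 k
  · rw [zero_mul, zero_mul, add_zero]; exact h4 b

end Basic

section Det

variable {s q : ℕ} {d : Fin q → ℕ} {γ : Type w'} {M : Type u} [Field M] {β : Type} [Fintype β]
  {X : DData (MIdx s q d) γ M} {p : Fin s → M} {g : β → Fin q} {EE : Set (Derivation ℤ M M)}

/-- Integrality of a determinant, one of whose rows is the Euler vector. -/
theorem WSl.det {τ : Type*} [Fintype τ] [DecidableEq τ] (e : τ ≃ Fin s ⊕ β)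
    (R : τ → Fin s ⊕ β → M) (i0 : τ) (hi0 : R i0 = lp d p g) (c : ℕ) (w : τ → ℕ) (hw0 : w i0 = 1)
    (h : ∀ i, i ≠ i0 → WTl X p g EE c (w i) (R i)) {W : ℕ}
    (hW : ∑ i, w i = W + Fintype.card β) :
    WSl X p g EE (c * Fintype.card τ) W (Matrix.of fun i j => R i (e j)).det := by
  classical
  intro O δ l hA
  have hl := hA.hl
  choose! t y' h1 h2 h2' using fun i (hi : i ≠ i0) => h i hi O δ l hA
  let Q : Fin s ⊕ β → M := Sum.elim (fun k => p k / p l) (fun b => (d (g b) : M))
  let R' : τ → Fin s ⊕ β → M := fun i => if i = i0 then Q else y' i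
  let N : Matrix τ τ M := Matrix.of fun i j => R' i (e j)
  let σ : Fin s ⊕ β → M := Sum.elim (fun _ => 1) (fun _ => (p l)⁻¹)
  have hdet : (Matrix.of fun i j => R i (e j)).det =
      (Matrix.of fun i j => p l ^ w i * (Matrix.of fun i j => σ (e j) * N i j) i j).det := by
    refine Matrix.det_eq_of_forall_row_eq_smul_add_const
      (fun i => if i = i0 then 0 else t i) i0 (by simp) ?_
    intro i j
    simp only [Matrix.of_apply, if_true, N, R']
    by_cases hi : i = i0
    · subst hi
      simp only [if_true, zero_mul, add_zero, hi0, hw0, pow_one, Q, σ]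
      rcases e j with k | b
      · simp only [lp, Sum.elim_inl]; field_simp
      · simp only [lp, Sum.elim_inr]; field_simp
    · simp only [if_neg hi, hw0, pow_one, Q, σ]
      rcases hej : e j with k | b
      · simp only [Sum.elim_inl]
        rw [h2 i hi k]; field_simp
      · simp only [Sum.elim_inr]
        apply mul_right_cancel₀ hl
        rw [h2' i hi b]; field_simp
  have hpr : ∏ j, σ (e j) = (p l ^ Fintype.card β)⁻¹ := by
    rw [Equiv.prod_comp e σ, Fintype.prod_sum_type]
    simp [σ]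
  refine ⟨N.det, ?_, ?_⟩
  · have h3 : δ ^ (c * Fintype.card τ) * N.det = (Matrix.of fun i j => δ ^ c * N i j).det := by
      rw [Matrix.det_mul_column]
      simp [pow_mul]
    rw [h3]
    apply det_mem
    intro i j
    show δ ^ c * N i j ∈ O
    by_cases hi : i = i0
    · simp only [N, Matrix.of_apply, R', if_pos hi]
      refine O.mul_mem (pow_mem hA.hδ c) ?_
      rcases e j with k | b
      · exact hA.hp _
      · exact natCast_mem O _
    · simp only [N, Matrix.of_apply, R', if_neg hi]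
      exact h1 i hi _
  · rw [hdet, Matrix.det_mul_column, Matrix.det_mul_row, Finset.prod_pow_eq_pow_sum, hW, hpr,
      pow_add]
    field_simp

end Det

section Bound

variable {s q : ℕ} {d : Fin q → ℕ} {γ : Type w'} {M : Type u} [Field M] {β : Type}
  {X : DData (MIdx s q d) γ M} {p : Fin s → M} {g : β → Fin q} {EE : Set (Derivation ℤ M M)}

theorem LBl.mono_c {c e : ℕ} {J : M} (h : LBl X p g EE c e J) (k : ℕ) :
    LBl X p g EE (c + k) e J := by
  intro O δ l hA
  have h1 := h O δ l hA
  have h2 : δ ^ (c + k) * (J * p l ^ e) = δ ^ k * (δ ^ c * (J * p l ^ e)) := by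
    rw [pow_add]; ring
  rw [h2]; exact O.mul_mem (pow_mem hA.hδ k) h1

theorem LBl.lower {c e k : ℕ} {J : M} (h : LBl X p g EE c (e + k) J) (b : Fin s) :
    LBl X p g EE c e (J * p b ^ k) := by
  intro O δ l hA
  have h1 := O.mul_mem (h O δ l hA) (pow_mem (hA.hp b) k)
  have hl := hA.hl
  have h2 : δ ^ c * (J * p b ^ k * p l ^ e) = δ ^ c * (J * p l ^ (e + k)) * (p b / p l) ^ k := by
    rw [pow_add, div_pow]; field_simp
  rw [h2]; exact h1

/-- The basic way to obtain a local bound. -/
theorem LBl.of_WSl {c w d' e : ℕ} {J : M} (hd : d' = e + w)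
    (h : ∀ l, p l ≠ 0 → WSl X p g EE c w (J * p l ^ d')) : LBl X p g EE c e J := by
  intro O δ l hA
  have hl := hA.hl
  obtain ⟨y', h1, h2⟩ := h l hl O δ l hA
  have h3 : J * p l ^ e = y' := by
    have h4 : p l ^ w ≠ 0 := pow_ne_zero _ hl
    apply mul_left_cancel₀ h4
    rw [← h2, hd, pow_add]; ring
  rw [h3]; exact h1

end Bound

end Pool.Agent.Lib.MP_44a246_ntT
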