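import Mathlib
import Pool.Agent.Lib.MP_44a246_ntT.TW
import Pool.Agent.Lib.MP_e52354_ntI.IForms

/-!
Logarithmic version: the vectors xi, eps, zeta with logarithmic coordinates and the tangent space.
-/

namespace Pool.Agent.Lib.MP_44a246_ntT

open Pool.Agent.Lib.MP_e52354_nt
open Pool.Agent.Lib.MP_e52354_ntG
open Pool.Agent.Lib.MP_e52354_ntI

universe u w w'

/-- the forms `g b` are exactly the forms which do not vanish at the point; the derivations in `EE`
kill the coefficients of the forms -/
structure LogData {s q : ℕ} {d : Fin q → ℕ} {γ : Type w'} {M : Type u} [Field M] {β : Type}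
    (X : DData (MIdx s q d) γ M) (p : Fin s → M) (g : β → Fin q)
    (EE : Set (Derivation ℤ M M)) : Prop where
  hg : Function.Injective g
  hz : ∀ b, zv X p (g b) ≠ 0
  hA : ∀ j, (∀ b, g b ≠ j) → zv X p j = 0
  hEE : ∀ E ∈ EE, ∀ j I, E (mA X j I) = 0

section Vec

variable {s q : ℕ} {d : Fin q → ℕ} {γ : Type w'} {M : Type u} [Field M] {β : Type}

/-- the vector of the dual derivation `(j, I)` -/
noncomputable abbrev ldp (X : DData (MIdx s q d) γ M) (p : Fin s → M) (g : β → Fin q) (j : Fin q)
    (I : Fin s →₀ ℕ) : Fin s ⊕ β → M := lD X p g (mD X j I)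

/-- the vector `p_u D_(m+e_v) p - p_v D_(m+e_u) p` -/
noncomputable def lzeta (X : DData (MIdx s q d) γ M) (p : Fin s → M) (g : β → Fin q) (j : Fin q)
    (m : Fin s →₀ ℕ) (u v : Fin s) : Fin s ⊕ β → M :=
  p u • ldp X p g j (m + Finsupp.single v 1) - p v • ldp X p g j (m + Finsupp.single u 1)

/-- the set of the vectors zeta -/
def lSzeta (X : DData (MIdx s q d) γ M) (p : Fin s → M) (g : β → Fin q) :
    Set (Fin s ⊕ β → M) :=
  {z | ∃ j, ∃ m : Fin s →₀ ℕ, ∃ u v, m.degree + 1 = d j ∧ z = lzeta X p g j m u v}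

/-- the vector `p_v e_u + D_(x_v dF/dx_u) p` -/
noncomputable def lxi (X : DData (MIdx s q d) γ M) (p : Fin s → M) (g : β → Fin q)
    (u v : Fin s) : Fin s ⊕ β → M :=
  Sum.elim (fun k => if u = k then p v else 0) (fun _ => 0) + ∑ j, ∑ I ∈ expo (Fin s) (d j),
    (mA X j I * (I u : M)) • ldp X p g j (I - Finsupp.single u 1 + Finsupp.single v 1)

open Classical in
/-- the vector `D_(F_j) p - e_j` -/
noncomputable def leps (X : DData (MIdx s q d) γ M) (p : Fin s → M) (g : β → Fin q)
    (j : Fin q) : Fin s ⊕ β → M :=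
  (∑ I ∈ expo (Fin s) (d j), mA X j I • ldp X p g j I) -
    Sum.elim (fun _ => 0) (fun b => if g b = j then 1 else 0)

/-- the set of the vectors xi and eps, and of the vectors of the derivations in `EE` -/
def lS1 (X : DData (MIdx s q d) γ M) (p : Fin s → M) (g : β → Fin q)
    (EE : Set (Derivation ℤ M M)) : Set (Fin s ⊕ β → M) :=
  {z | (∃ u v, z = lxi X p g u v) ∨ (∃ j, z = leps X p g j) ∨ ∃ E ∈ EE, z = lD X p g E}

/-- the tangent space -/
noncomputable abbrev lTT [Fintype β] (X : DData (MIdx s q d) γ M) (p : Fin s → M)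
    (g : β → Fin q) : Submodule M (Fin s ⊕ β → M) := kerL (fun j => lgr X p g j)

variable [Fintype β] {X : DData (MIdx s q d) γ M} {p : Fin s → M} {g : β → Fin q} {EE : Set (Derivation ℤ M M)}

theorem mem_lTT {z : Fin s ⊕ β → M} : z ∈ lTT X p g ↔ ∀ j, lgr X p g j ⬝ᵥ z = 0 := Iff.rfl

theorem lgr_dot (j : Fin q) (v : Fin s ⊕ β → M) : lgr X p g j ⬝ᵥ v =
    ∑ k, mgrad X p j k * v (Sum.inl k) +
      ∑ b, (open Classical in if g b = j then - zv X p j else 0) * v (Sum.inr b) := by
  unfold dotProduct lgr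
  rw [Fintype.sum_sum_type]
  simp only [Sum.elim_inl, Sum.elim_inr]

theorem lgr_sum (L : LogData X p g EE) (j : Fin q) (f : β → M) (c : M)
    (h : ∀ b, g b = j → f b = c) (h0 : (∀ b, g b ≠ j) → zv X p j * c = 0) :
    ∑ b, (open Classical in if g b = j then - zv X p j else 0) * f b = - (zv X p j * c) := by
  classical
  by_cases hj : ∃ b, g b = j
  · obtain ⟨b₀, hb₀⟩ := hj
    rw [Finset.sum_eq_single b₀]
    · rw [if_pos hb₀, h b₀ hb₀]; ring
    · intro b _ hb
      rw [if_neg (fun hc => hb (L.hg (hc.trans hb₀.symm))), zero_mul]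
    · intro hc; exact absurd (Finset.mem_univ _) hc
  · push Not at hj
    rw [h0 hj, neg_zero]
    exact Finset.sum_eq_zero fun b _ => by rw [if_neg (hj b), zero_mul]

theorem lgr_lD (L : LogData X p g EE) (j : Fin q) (D : Derivation ℤ M M) :
    lgr X p g j ⬝ᵥ lD X p g D = - ∑ I ∈ expo (Fin s) (d j), D (mA X j I) * mon p I := by
  have h := D_Fval (d j) (mA X j) D p
  have h1 : Fval (d j) (mA X j) p = zv X p j := rfl
  rw [h1] at h
  rw [lgr_dot, lgr_sum L j _ (D (zv X p j) / zv X p j)]
  · have h2 : zv X p j * (D (zv X p j) / zv X p j) = D (zv X p j) := by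
      by_cases hj : ∃ b, g b = j
      · obtain ⟨b, rfl⟩ := hj
        have := L.hz b
        field_simp
      · push Not at hj
        rw [L.hA j hj]; simp
    rw [h2, h]
    simp only [lD, Sum.elim_inl]
    ring
  · rintro b rfl
    rfl
  · intro hj
    rw [L.hA j hj, zero_mul]

theorem lgr_D (L : LogData X p g EE) (i j : Fin q) {I : Fin s →₀ ℕ} (hI : I ∈ expo (Fin s) (d i)) :
    lgr X p g j ⬝ᵥ ldp X p g i I = if i = j then - mon p I else 0 := by
  rw [lgr_lD L]
  have h2 : ∑ J ∈ expo (Fin s) (d j), mD X i I (mA X j J) * mon p J =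
      if i = j then mon p I else 0 := by
    rw [Finset.sum_congr rfl fun J hJ => by rw [m_hD X i j I hI J hJ]]
    by_cases hij : i = j
    · subst hij
      simp [hI]
    · simp [hij]
  rw [h2]
  split_ifs <;> simp

theorem euler (d : ℕ) (a : (Fin s →₀ ℕ) → M) (p : Fin s → M) :
    ∑ k, grad d a p k * p k = (d : M) * Fval d a p := by
  unfold grad Fval
  simp only [Finset.sum_mul, Finset.mul_sum]
  rw [Finset.sum_comm]
  refine Finset.sum_congr rfl fun I hI => ?_
  rw [mem_expo, Finsupp.degree_eq_sum] at hI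
  have h1 : ∀ k, a I * (I k : M) * mon p (I - Finsupp.single k 1) * p k =
      (I k : M) * (a I * mon p I) := by
    intro k
    have := mon_sub p I k
    linear_combination (a I) * this
  simp only [h1]
  rw [← Finset.sum_mul, ← Nat.cast_sum, hI]

theorem lgr_p (L : LogData X p g EE) (j : Fin q) : lgr X p g j ⬝ᵥ lp d p g = 0 := by
  rw [lgr_dot, lgr_sum L j _ (d j : M)]
  · have := euler (d j) (mA X j) p
    have h1 : Fval (d j) (mA X j) p = zv X p j := rfl
    rw [h1] at this
    simp only [lp, Sum.elim_inl]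
    rw [this]; ring
  · rintro b rfl
    rfl
  · intro hj
    rw [L.hA j hj, zero_mul]

theorem lgr_zeta (L : LogData X p g EE) {z : Fin s ⊕ β → M} (hz : z ∈ lSzeta X p g) (j : Fin q) :
    lgr X p g j ⬝ᵥ z = 0 := by
  obtain ⟨i, m, u, v, hm, rfl⟩ := hz
  rw [lzeta, dotProduct_sub, dotProduct_smul, dotProduct_smul, lgr_D L i j (add_mem hm v),
    lgr_D L i j (add_mem hm u)]
  split_ifs with h
  · rw [mon_add, mon_add, mon_single, mon_single]
    simp only [smul_eq_mul]
    ring
  · simp

theorem dot_lxi (lam : Fin s ⊕ β → M) (u v : Fin s) : lam ⬝ᵥ lxi X p g u v =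
    lam (Sum.inl u) * p v + ∑ j, ∑ I ∈ expo (Fin s) (d j), mA X j I * (I u : M) *
      (lam ⬝ᵥ ldp X p g j (I - Finsupp.single u 1 + Finsupp.single v 1)) := by
  classical
  have h0 : lam ⬝ᵥ (Sum.elim (fun k => if u = k then p v else 0) (fun _ => 0) :
      Fin s ⊕ β → M) = lam (Sum.inl u) * p v := by
    unfold dotProduct
    rw [Fintype.sum_sum_type]
    simp
  rw [lxi, dotProduct_add, h0]
  congr 1
  rw [dotProduct_sum]
  refine Finset.sum_congr rfl fun j _ => ?_
  rw [dotProduct_sum]
  refine Finset.sum_congr rfl fun I _ => ?_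
  rw [dotProduct_smul, smul_eq_mul]

theorem dot_leps (lam : Fin s ⊕ β → M) (j : Fin q) : lam ⬝ᵥ leps X p g j =
    ∑ I ∈ expo (Fin s) (d j), mA X j I * (lam ⬝ᵥ ldp X p g j I) -
      ∑ b, (open Classical in if g b = j then 1 else 0) * lam (Sum.inr b) := by
  classical
  rw [leps, dotProduct_sub, dotProduct_sum]
  congr 1
  · refine Finset.sum_congr rfl fun I _ => ?_
    rw [dotProduct_smul, smul_eq_mul]
  · unfold dotProduct
    rw [Fintype.sum_sum_type]
    simp only [Sum.elim_inl, Sum.elim_inr, mul_zero, Finset.sum_const_zero, zero_add]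
    exact Finset.sum_congr rfl fun b _ => mul_comm _ _

theorem lgr_S1 (L : LogData X p g EE) {z : Fin s ⊕ β → M} (hz : z ∈ lS1 X p g EE)
    (i : Fin q) : lgr X p g i ⬝ᵥ z = 0 := by
  classical
  rcases hz with ⟨u, v, rfl⟩ | ⟨j, rfl⟩ | ⟨E, hE, rfl⟩
  · rw [dot_lxi]
    have h1 : ∀ j, ∑ I ∈ expo (Fin s) (d j), mA X j I * (I u : M) *
        (lgr X p g i ⬝ᵥ ldp X p g j (I - Finsupp.single u 1 + Finsupp.single v 1)) =
        if j = i then - (mgrad X p i u * p v) else 0 := by
      intro j
      by_cases hj : j = i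
      · subst hj
        rw [if_pos rfl, ← sum_shift, ← Finset.sum_neg_distrib]
        refine Finset.sum_congr rfl fun I hI => ?_
        by_cases hu : I u = 0
        · simp [hu]
        · rw [lgr_D L j j (shift_mem hI hu v), if_pos rfl]
          ring
      · rw [if_neg hj]
        refine Finset.sum_eq_zero fun I hI => ?_
        by_cases hu : I u = 0
        · simp [hu]
        · rw [lgr_D L j i (shift_mem hI hu v), if_neg hj, mul_zero]
    simp only [h1]
    rw [Finset.sum_ite_eq' Finset.univ i, if_pos (Finset.mem_univ i)]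
    have h2 : lgr X p g i (Sum.inl u) = mgrad X p i u := rfl
    rw [h2]; ring
  · rw [dot_leps]
    have h1 : ∑ I ∈ expo (Fin s) (d j), mA X j I * (lgr X p g i ⬝ᵥ ldp X p g j I) =
        if j = i then - zv X p j else 0 := by
      rw [Finset.sum_congr rfl fun I hI => by rw [lgr_D L j i hI]]
      by_cases hj : j = i
      · subst hj
        simp only [if_true]
        rw [zv, Fval, ← Finset.sum_neg_distrib]
        exact Finset.sum_congr rfl fun I _ => by ring
      · simp [hj]
    rw [h1]
    have h2 : ∑ b, (if g b = j then (1 : M) else 0) * lgr X p g i (Sum.inr b) =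
        if j = i then - zv X p j else 0 := by
      by_cases hj : j = i
      · subst hj
        rw [if_pos rfl]
        have h3 := lgr_sum L j (fun _ => (1 : M)) 1 (fun _ _ => rfl) (fun h => by
          rw [L.hA j h, zero_mul])
        rw [mul_one] at h3
        rw [← h3]
        refine Finset.sum_congr rfl fun b _ => ?_
        simp only [lgr, Sum.elim_inr]
        split_ifs <;> simp
      · rw [if_neg hj]
        refine Finset.sum_eq_zero fun b _ => ?_
        simp only [lgr, Sum.elim_inr]
        by_cases hb : g b = j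
        · rw [if_neg (fun h => hj (hb.symm.trans h)), mul_zero]
        · rw [if_neg hb, zero_mul]
    rw [h2, sub_self]
  · rw [lgr_lD L, Finset.sum_eq_zero, neg_zero]
    intro I _
    rw [L.hEE E hE, zero_mul]

/-- the tangent space is spanned by the vectors zeta, xi and eps -/
theorem lker_le_span (L : LogData X p g EE) {l : Fin s} (hl : p l ≠ 0) :
    lTT X p g ≤ Submodule.span M (lSzeta X p g ∪ lS1 X p g EE) := by
  classical
  apply le_span_of_forall
  intro lam hlam z hz
  have h1 : ∀ j, ∃ c : M, ∀ I ∈ expo (Fin s) (d j), lam ⬝ᵥ ldp X p g j I = c * mon p I := by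
    intro j
    refine eq_mul_mon hl (fun I => lam ⬝ᵥ ldp X p g j I) ?_
    intro m hm u v
    have h2 := hlam _ (Or.inl ⟨j, m, u, v, hm, rfl⟩)
    rw [lzeta, dotProduct_sub, dotProduct_smul, dotProduct_smul, smul_eq_mul, smul_eq_mul,
      sub_eq_zero] at h2
    exact h2
  choose c hc using h1
  have h3 : ∀ u, lam (Sum.inl u) = - ∑ j, c j * mgrad X p j u := by
    intro u
    have h4 := hlam _ (Or.inr (Or.inl ⟨u, l, rfl⟩))
    rw [dot_lxi] at h4
    have h5 : ∀ j, ∑ I ∈ expo (Fin s) (d j), mA X j I * (I u : M) *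
        (lam ⬝ᵥ ldp X p g j (I - Finsupp.single u 1 + Finsupp.single l 1)) =
        c j * (mgrad X p j u * p l) := by
      intro j
      rw [← sum_shift, Finset.mul_sum]
      refine Finset.sum_congr rfl fun I hI => ?_
      by_cases hu : I u = 0
      · simp [hu]
      · rw [hc j _ (shift_mem hI hu l)]
        ring
    simp only [h5] at h4
    have h6 : (lam (Sum.inl u) + ∑ j, c j * mgrad X p j u) * p l = 0 := by
      rw [add_mul, Finset.sum_mul, ← h4]
      congr 1
      exact Finset.sum_congr rfl fun j _ => by ring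
    have h7 := (mul_eq_zero.mp h6).resolve_right hl
    linear_combination h7
  have h3' : ∀ b, lam (Sum.inr b) = c (g b) * zv X p (g b) := by
    intro b
    have h4 := hlam _ (Or.inr (Or.inr (Or.inl ⟨g b, rfl⟩)))
    rw [dot_leps] at h4
    have h5 : ∑ I ∈ expo (Fin s) (d (g b)), mA X (g b) I * (lam ⬝ᵥ ldp X p g (g b) I) =
        c (g b) * zv X p (g b) := by
      rw [zv, Fval, Finset.mul_sum]
      refine Finset.sum_congr rfl fun I hI => ?_
      rw [hc _ _ hI]; ring
    have h6 : ∑ b', (if g b' = g b then (1 : M) else 0) * lam (Sum.inr b') = lam (Sum.inr b) := by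
      rw [Finset.sum_eq_single b]
      · simp
      · intro b' _ hb'
        rw [if_neg (fun h => hb' (L.hg h)), zero_mul]
      · intro h; exact absurd (Finset.mem_univ _) h
    rw [h5, h6] at h4
    linear_combination -h4
  have h8 : lam = - ∑ j, c j • lgr X p g j := by
    funext k
    rw [Pi.neg_apply, Finset.sum_apply]
    rcases k with u | b
    · rw [h3 u]
      simp [lgr]
    · rw [h3' b, Finset.sum_eq_single (g b)]
      · simp [lgr]
      · intro j _ hj
        simp only [Pi.smul_apply, lgr, Sum.elim_inr, if_neg (Ne.symm hj), smul_zero]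
      · intro h; exact absurd (Finset.mem_univ _) h
  rw [h8, neg_dotProduct, sum_dotProduct]
  rw [Finset.sum_eq_zero, neg_zero]
  intro j _
  rw [smul_dotProduct, hz j, smul_zero]

theorem lgr_D_single (L : LogData X p g EE) (i j : Fin q) (l : Fin s) :
    lgr X p g j ⬝ᵥ ldp X p g i (Finsupp.single l (d i)) = if i = j then - p l ^ d i else 0 := by
  rw [lgr_D L i j (by rw [mem_expo, Finsupp.degree_single]), mon_single]

theorem lgr_li (L : LogData X p g EE) {l : Fin s} (hl : p l ≠ 0) :
    LinearIndependent M (fun j => lgr X p g j) := by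
  rw [Fintype.linearIndependent_iff]
  intro c hc j
  have h1 := congrArg (fun z => z ⬝ᵥ ldp X p g j (Finsupp.single l (d j))) hc
  simp only [sum_dotProduct, smul_dotProduct, lgr_D_single L, zero_dotProduct, smul_eq_mul,
    mul_ite, mul_zero, Finset.sum_ite_eq, Finset.mem_univ, if_true] at h1
  exact (mul_eq_zero.mp h1).resolve_right (neg_ne_zero.mpr (pow_ne_zero _ hl))

theorem finrank_lTT (L : LogData X p g EE) {l : Fin s} (hl : p l ≠ 0) :
    Module.finrank M (lTT X p g) + q = s + Fintype.card β := by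
  have := finrank_kerL _ (lgr_li L hl)
  rwa [Fintype.card_sum, Fintype.card_fin, Fintype.card_fin] at this

theorem det_lvv (L : LogData X p g EE) (l : Fin s) :
    (Matrix.of fun j i => lgr X p g i ⬝ᵥ ldp X p g j (Finsupp.single l (d j))).det =
      (-1) ^ q * p l ^ (∑ j, d j) := by
  have h1 : (Matrix.of fun j i => lgr X p g i ⬝ᵥ ldp X p g j (Finsupp.single l (d j))) =
      Matrix.diagonal fun j => - p l ^ (d j) := by
    ext j i
    rw [Matrix.of_apply, lgr_D_single L, Matrix.diagonal_apply]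
  rw [h1, Matrix.det_diagonal]
  have h2 : ∀ j, - p l ^ (d j) = (-1) * p l ^ d j := fun j => by ring
  simp only [h2, Finset.prod_mul_distrib, Finset.prod_const, Finset.card_univ, Fintype.card_fin,
    Finset.prod_pow_eq_pow_sum]

omit [Fintype β] in
theorem lD_zero : lD X p g 0 = 0 := by
  funext k
  rcases k with k | b <;> simp [lD]

omit [Fintype β] in
theorem wtl_mD (L : LogData X p g EE) (j : Fin q) (I : Fin s →₀ ℕ) :
    WTl X p g EE 1 1 (ldp X p g j I) := by
  by_cases h : I ∈ expo (Fin s) (d j)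
  · have : ldp X p g j I = lD X p g (X.D ⟨j, I, h⟩) := by
      simp only [ldp, mD, dif_pos h]
    rw [this]
    exact WTl.deriv L.hz _
  · have : ldp X p g j I = 0 := by
      simp only [ldp, mD, dif_neg h]
      exact lD_zero
    rw [this]
    exact WTl.zero

omit [Fintype β] in
theorem wtl_zeta (L : LogData X p g EE) {z : Fin s ⊕ β → M} (hz : z ∈ lSzeta X p g) :
    WTl X p g EE 1 2 z := by
  obtain ⟨j, m, u, v, _, rfl⟩ := hz
  have h1 := (WSl.of_WS (g := g) (WS.coord (X := X) (p := p) u)).smul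
    (wtl_mD L j (m + Finsupp.single v 1))
  have h2 := (WSl.of_WS (g := g) (WS.coord (X := X) (p := p) v)).smul
    (wtl_mD L j (m + Finsupp.single u 1))
  exact h1.sub h2

theorem wtl_S1 (L : LogData X p g EE) {z : Fin s ⊕ β → M} (hz : z ∈ lS1 X p g EE) :
    WTl X p g EE 2 1 z := by
  classical
  rcases hz with ⟨u, v, rfl⟩ | ⟨j, rfl⟩ | ⟨E, hE, rfl⟩
  · refine WTl.add ?_ ?_
    · refine (WTl.of_WSl (c := 0) (fun k => ?_) (fun b l => ?_)).mono_c 2
      · simp only [Sum.elim_inl]
        split_ifs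
        · exact WSl.of_WS (WS.coord v)
        · exact WSl.zero
      · simp only [Sum.elim_inr, zero_mul]
        exact WSl.zero
    · refine WTl.sum _ fun j _ => ?_
      refine WTl.sum _ fun I _ => ?_
      have := (WSl.of_WS (g := g) ((ws_mA (X := X) (p := p) j I).mul (WS.natCast (I u)))).smul
        (wtl_mD L j (I - Finsupp.single u 1 + Finsupp.single v 1))
      exact this
  · refine WTl.sub ?_ ?_
    · refine WTl.sum _ fun I _ => ?_
      have := (WSl.of_WS (g := g) (ws_mA (X := X) (p := p) j I)).smul (wtl_mD L j I)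
      exact this
    · refine (WTl.of_WSl (c := 0) (fun k => ?_) (fun b l => ?_)).mono_c 2
      · exact WSl.zero
      · simp only [Sum.elim_inr]
        split_ifs
        · rw [one_mul]
          exact WSl.of_WS (WS.coord l)
        · rw [zero_mul]
          exact WSl.zero
  · exact (WTl.derivE L.hz hE).mono_c 1

/-- the vectors zeta and the multiples by `p_b` of the vectors of weight one, all of weight two -/
def lSall (X : DData (MIdx s q d) γ M) (p : Fin s → M) (g : β → Fin q)
    (EE : Set (Derivation ℤ M M)) (b : Fin s) : Set (Fin s ⊕ β → M) :=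
  lSzeta X p g ∪ {z | ∃ y ∈ lS1 X p g EE, z = p b • y}

theorem lgr_Sall (L : LogData X p g EE) {b : Fin s}
    {z : Fin s ⊕ β → M} (hz : z ∈ lSall X p g EE b) (j : Fin q) : lgr X p g j ⬝ᵥ z = 0 := by
  rcases hz with hz | ⟨y, hy, rfl⟩
  · exact lgr_zeta L hz j
  · rw [dotProduct_smul, lgr_S1 L hy, smul_zero]

theorem wtl_Sall (L : LogData X p g EE) {b : Fin s} {z : Fin s ⊕ β → M} (hz : z ∈ lSall X p g EE b) :
    WTl X p g EE 2 2 z := by
  rcases hz with hz | ⟨y, hy, rfl⟩
  · exact (wtl_zeta L hz).mono_c 1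
  · have := (WSl.of_WS (g := g) (WS.coord (X := X) (p := p) b)).smul (wtl_S1 L hy)
    simpa using this

theorem lTT_le_Sall (L : LogData X p g EE) {b : Fin s} (hb : p b ≠ 0) :
    lTT X p g ≤ Submodule.span M (lSall X p g EE b) := by
  refine (lker_le_span L hb).trans ?_
  rw [Submodule.span_le]
  rintro z (hz | hz)
  · exact Submodule.subset_span (Or.inl hz)
  · have h1 : z = (p b)⁻¹ • (p b • z) := by
      rw [smul_smul, inv_mul_cancel₀ hb, one_smul]
    rw [h1]
    exact Submodule.smul_mem _ _ (Submodule.subset_span (Or.inr ⟨z, hz, rfl⟩))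

/-- extension of a family containing the point -/
theorem lexists_ext (L : LogData X p g EE) {r : ℕ} (hs : q + r + 1 = s + Fintype.card β)
    {κ : Type*} [Fintype κ] {m : ℕ}
    (hm : Fintype.card κ + m = r) {l₀ : Fin s} (hl₀ : p l₀ ≠ 0)
    (Z : κ → Fin s ⊕ β → M) (hgZ : ∀ i j, lgr X p g j ⬝ᵥ Z i = 0)
    (hli : LinearIndependent M (fun o : Option κ => o.elim (lp d p g) Z))
    (S : Set (Fin s ⊕ β → M)) (hS : ∀ z ∈ S, ∀ j, lgr X p g j ⬝ᵥ z = 0)
    (hspan : lTT X p g ≤ Submodule.span M (insert (lp d p g) (Set.range Z) ∪ S)) :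
    ∃ Z' : Fin m → Fin s ⊕ β → M, (∀ i, Z' i ∈ S) ∧
      LinearIndependent M (fun o : Option (κ ⊕ Fin m) => o.elim (lp d p g) (Sum.elim Z Z')) := by
  classical
  let eκ : Fin (Fintype.card (Option κ)) ≃ Option κ := (Fintype.equivFin (Option κ)).symm
  let Y : Fin (Fintype.card (Option κ)) → Fin s ⊕ β → M := fun i => (eκ i).elim (lp d p g) Z
  have hY : LinearIndependent M Y := hli.comp eκ eκ.injective
  have hYT : ∀ i, Y i ∈ lTT X p g := by
    intro i
    rw [mem_lTT]
    intro j
    show lgr X p g j ⬝ᵥ (eκ i).elim (lp d p g) Z = 0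
    cases eκ i with
    | none => exact lgr_p L j
    | some i' => exact hgZ i' j
  have hrange : Set.range Y = insert (lp d p g) (Set.range Z) := by
    ext z
    constructor
    · rintro ⟨i, rfl⟩
      show (eκ i).elim (lp d p g) Z ∈ _
      cases eκ i with
      | none => exact Set.mem_insert _ _
      | some j => exact Set.mem_insert_of_mem _ ⟨j, rfl⟩
    · rintro (rfl | ⟨j, rfl⟩)
      · exact ⟨eκ.symm none, by simp [Y]⟩
      · exact ⟨eκ.symm (some j), by simp [Y]⟩
  have hfr := finrank_lTT L hl₀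
  obtain ⟨Z', hZ'S, hZ'li⟩ := exists_extension (k := Fintype.card (Option κ)) (r := m)
    (lTT X p g)
    (by rw [Fintype.card_option]; omega) Y hY hYT S
    (fun z hz => mem_lTT.mpr (hS z hz)) (by rw [hrange]; exact hspan)
  refine ⟨Z', hZ'S, ?_⟩
  let f : Option (κ ⊕ Fin m) → Fin (Fintype.card (Option κ)) ⊕ Fin m := fun o =>
    o.elim (Sum.inl (eκ.symm none)) (Sum.elim (fun i => Sum.inl (eκ.symm (some i))) Sum.inr)
  have hf : Function.Injective f := by
    rintro (_ | (i | i)) (_ | (j | j)) h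
    · rfl
    · simp [f] at h
    · simp [f] at h
    · simp [f] at h
    · simp [f] at h; rw [h]
    · simp [f] at h
    · simp [f] at h
    · simp [f] at h
    · simp [f] at h; rw [h]
  have h1 := hZ'li.comp f hf
  have h2 : (Sum.elim Y Z') ∘ f =
      fun o : Option (κ ⊕ Fin m) => o.elim (lp d p g) (Sum.elim Z Z') := by
    funext o
    rcases o with (_ | (i | i))
    · simp [f, Y]
    · simp [f, Y]
    · simp [f]
  rwa [h2] at h1

end Vec

end Pool.Agent.Lib.MP_44a246_ntT
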