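import Mathlib
import Pool.Agent.Lib.MP_44a246_ntT.THeight
import Pool.Agent.Lib.MP_44a246_ntL.LDer
import Pool.Agent.Lib.MP_44a246_nt.Family
import Pool.Agent.Lib.MP_44a246_nt.Tangent
import Pool.Agent.Lib.MP_44a246_ntN.GenericG

/-!
Existence of the derivations on the function field and on its extensions.
-/

namespace Pool.Agent.Lib.MP_44a246_ntT

open Pool.Agent.Lib.MP_e52354_nt
open Pool.Agent.Lib.MP_e52354_ntG
open Pool.Agent.Lib.MP_44a246_nt
open Pool.Agent.Lib.MP_44a246_ntL
open WithZero

universe u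

section Base

variable {k₀ : Type*} {κ : Type u} {K : Type*} [Field k₀] [CharZero k₀] [Field κ] [IsAlgClosed κ] [CharZero κ] [Field K]
  [Algebra k₀ κ] [Algebra κ K] [Algebra k₀ K] [IsScalarTower k₀ κ K]

theorem exists_setup {t : K} (ht : Transcendental κ t)
    (hfin : FiniteDimensional (IntermediateField.adjoin κ {t}) K) {Θ : Type*} [Fintype Θ]
    [DecidableEq Θ] {aK : Θ → K} (hc : AlgebraicIndependent k₀ aK) :
    ∃ (DK : Θ → Derivation ℤ K K) (B A : Place κ K → ℕ), (Function.support B).Finite ∧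
      (Function.support A).Finite ∧ (∀ I, PoleBound κ (DK I) B) ∧
      (∀ I v, v.1 (aK I) ≤ exp (A v : ℤ)) ∧
      (∀ I J, DK I (aK J) = if I = J then 1 else 0) ∧
      (∀ I J y, DK I (DK J y) = DK J (DK I y)) := by
  classical
  have hK : IsFF κ K := ⟨t, ht, hfin⟩
  have halg : Algebra.IsAlgebraic (IntermediateField.adjoin κ {t}) K :=
    Algebra.IsAlgebraic.of_finite _ _
  obtain ⟨N, iN, E, f, D, hE1, hE2, hD1, hD2, hD3⟩ := exists_ders_comm ht halg hc
  have h1 : ∀ j, ∃ B : Place κ K → ℕ, (Function.support B).Finite ∧ PoleBound κ (E j) B :=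
    fun j => exists_poleBound ht hfin (E j) (hE1 j) (hE2 j)
  have h2 : ∀ θ, ∃ B : Place κ K → ℕ, (Function.support B).Finite ∧ PoleBound κ (D θ) B := by
    intro θ
    rw [hD1 θ]
    exact poleBound_sum hK E (f θ) h1
  obtain ⟨B, hB1, hB2⟩ := poleBound_family D h2
  refine ⟨D, B, fun v => ∑ I, (log (v.1 (aK I))).toNat, hB1, ?_, hB2, ?_, hD2, hD3⟩
  · have h3 : (Function.support fun v : Place κ K => ∑ I, (log (v.1 (aK I))).toNat) ⊆
        ⋃ I, Function.support fun v : Place κ K => log (v.1 (aK I)) := by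
      intro v hv
      rw [Set.mem_iUnion]
      by_contra hcon
      push Not at hcon
      apply hv
      refine Finset.sum_eq_zero fun I _ => ?_
      have := hcon I
      rw [Function.mem_support, not_not] at this
      rw [this]
      rfl
    refine (Set.finite_iUnion fun I => ?_).subset h3
    by_cases h0 : aK I = 0
    · rw [h0]
      simp
    · exact hK.place_support h0
  · intro I v
    by_cases h0 : aK I = 0
    · rw [h0, map_zero]; exact zero_le
    · rw [← log_le_iff_le_exp ((v.1.ne_zero_iff).mpr h0)]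
      have h4 : (log (v.1 (aK I))).toNat ≤ ∑ I, (log (v.1 (aK I))).toNat :=
        Finset.single_le_sum (f := fun I => (log (v.1 (aK I))).toNat)
          (fun _ _ => Nat.zero_le _) (Finset.mem_univ I)
      have h5 := Int.self_le_toNat (log (v.1 (aK I)))
      have h6 : (((log (v.1 (aK I))).toNat : ℕ) : ℤ) ≤
        ((∑ I, (log (v.1 (aK I))).toNat : ℕ) : ℤ) := by exact_mod_cast h4
      exact h5.trans h6

theorem sum_smul_der {Θ : Type*} [Fintype Θ] (f : Θ → K) (D : Θ → Derivation ℤ K K) (y : K) :
    (∑ I, f I • D I) y = ∑ I, f I * D I y := by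
  show (Derivation.coeFnAddMonoidHom (∑ I, f I • D I)) y = _
  rw [map_sum, Finset.sum_apply]
  rfl

/-- the dual derivations, and a family of derivations dual to a transcendence basis, with uniform
bounds for the poles -/
theorem exists_setupE {t : K} (ht : Transcendental κ t)
    (hfin : FiniteDimensional (IntermediateField.adjoin κ {t}) K) {Θ : Type*} [Fintype Θ]
    [DecidableEq Θ] {aK : Θ → K} (hc : AlgebraicIndependent k₀ aK) :
    ∃ (T : Type u) (_ : DecidableEq T) (z : T → K) (E : T → Derivation k₀ K K)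
      (DK : Θ → Derivation ℤ K K) (B A : Place κ K → ℕ), (Function.support B).Finite ∧
      (Function.support A).Finite ∧ (∀ I, PoleBound κ (DK I) B) ∧
      (∀ b, PoleBound κ (derZ (E b) - ∑ I, E b (aK I) • DK I) B) ∧
      (∀ I v, v.1 (aK I) ≤ exp (A v : ℤ)) ∧
      (∀ I J, DK I (aK J) = if I = J then 1 else 0) ∧
      (∀ I J y, DK I (DK J y) = DK J (DK I y)) ∧
      Algebra.IsAlgebraic (IntermediateField.adjoin k₀ (Set.range z)) K ∧
      (∀ b b', E b (z b') = if b = b' then 1 else 0) := by
  classical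
  obtain ⟨DK, B₁, A, hB₁, hA, hPB, hPA, hD, hcomm⟩ := exists_setup ht hfin hc
  have hff : IsFF κ K := ⟨t, ht, hfin⟩
  have hcK : CharZero K := charZero_of_injective_algebraMap (algebraMap κ K).injective
  refine with_instances' ht ?_
  intro iX t3 iK t1 iR t2 hfin' hX
  have hc0 : CharZero (RatFunc κ) := charZero_RatFunc κ K
  have halg : Algebra.IsAlgebraic (IntermediateField.adjoin κ {t}) K :=
    Algebra.IsAlgebraic.of_finite _ _
  obtain ⟨T, iT, z, E, -, h1, h2, -, ⟨δf, hδf0, hf1, -, hf2, -⟩, ⟨δi, hδi0, hi1, -, hi2, -⟩⟩ :=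
    exists_family (k₀ := k₀) (κ := κ) (K := K) (by rw [hX]; exact ht) (by rw [hX]; exact halg) hc ∅
  have hf0 : algebraMap (Polynomial κ) K δf ≠ 0 := by
    rw [IsScalarTower.algebraMap_apply (Polynomial κ) (RatFunc κ) K]
    refine (_root_.map_ne_zero _).mpr ?_
    rwa [ne_eq, FaithfulSMul.algebraMap_eq_zero_iff]
  have hi0 : algebraMap (Rinf κ) K δi ≠ 0 := by
    rw [IsScalarTower.algebraMap_apply (Rinf κ) (RatFunc κ) K]
    refine (_root_.map_ne_zero _).mpr ?_
    rwa [ne_eq, FaithfulSMul.algebraMap_eq_zero_iff]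
  let Bδ : Place κ K → ℕ := fun v =>
    if v.1 (algebraMap (Polynomial κ) K Polynomial.X) ≤ 1 then
      (- log (v.1 (algebraMap (Polynomial κ) K δf))).toNat else
      (- log (v.1 (algebraMap (Rinf κ) K δi))).toNat
  have hBδ : (Function.support Bδ).Finite := by
    refine ((hff.place_finite hf0).union (hff.place_finite hi0)).subset fun v hv => ?_
    by_contra hcon
    rw [Set.mem_union, not_or] at hcon
    obtain ⟨h1, h2⟩ := hcon
    simp only [Set.mem_ofPred_eq, not_not] at h1 h2
    apply hv
    simp only [Bδ, h1, h2, log_one, neg_zero, Int.toNat_zero, ite_self]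
  have hE1 : ∀ b (v : Place κ K) y, v.1 y ≤ 1 → v.1 (E b y) ≤ exp (Bδ v : ℤ) := by
    intro b v y hy
    simp only [Bδ]
    split_ifs with hXv
    · exact lpol_div v.1 hf0 (der_bound (K₀ := RatFunc κ) v.1 (place_poly v hXv) (derZ (E b)) δf
        (hf1 b) hy)
    · exact lpol_div v.1 hi0 (der_bound (K₀ := RatFunc κ) v.1 (place_rinf v hXv) (derZ (E b)) δi
        (hi1 b) hy)
  have hE2 : ∀ b (v : Place κ K) I, v.1 (E b (aK I)) ≤ exp (Bδ v : ℤ) := by
    intro b v I
    simp only [Bδ]
    split_ifs with hXv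
    · exact lpol_div v.1 hf0 (integral_le_one v.1 (place_poly v hXv) (hf2 b I))
    · exact lpol_div v.1 hi0 (integral_le_one v.1 (place_rinf v hXv) (hi2 b I))
  refine ⟨T, iT, z, E, DK, fun v => B₁ v + Bδ v, A, ?_, hA, ?_, ?_, hPA, hD, hcomm, h2, h1⟩
  · refine (hB₁.union hBδ).subset fun v hv => ?_
    by_contra hcon
    rw [Set.mem_union, not_or, Function.mem_support, Function.mem_support, not_not, not_not] at hcon
    apply hv
    show B₁ v + Bδ v = 0
    rw [hcon.1, hcon.2, add_zero]
  · intro I v y hy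
    refine (hPB I v y hy).trans (exp_le_exp.mpr ?_)
    push_cast
    have : (0 : ℤ) ≤ Bδ v := Int.natCast_nonneg _
    linarith
  · intro b v y hy
    have h3 : (0 : ℤ) ≤ Bδ v := Int.natCast_nonneg _
    have h4 : (0 : ℤ) ≤ B₁ v := Int.natCast_nonneg _
    rw [Derivation.sub_apply, sum_smul_der]
    refine (v.1.map_sub _ _).trans (max_le ?_ ?_)
    · refine (hE1 b v y hy).trans (exp_le_exp.mpr ?_)
      push_cast
      linarith
    · refine v.1.map_sum_le fun I _ => ?_
      rw [map_mul]
      calc v.1 (E b (aK I)) * v.1 (DK I y) ≤ exp (Bδ v : ℤ) * exp (B₁ v : ℤ) :=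
            mul_le_mul' (hE2 b v I) (hPB I v y hy)
        _ = exp ((B₁ v + Bδ v : ℕ) : ℤ) := by
            rw [← exp_add]
            congr 1
            push_cast
            ring

end Base

section Ext

variable {K L : Type*} [Field K] [CharZero K] [Field L] [Algebra K L] [Algebra.IsAlgebraic K L]

/-- extensions of commuting derivations commute -/
theorem ext_comm {D₁ D₂ : Derivation ℤ K K} (h : ∀ y, D₁ (D₂ y) = D₂ (D₁ y))
    {D₁' D₂' : Derivation ℤ L L} (h₁ : ∀ y, D₁' (algebraMap K L y) = algebraMap K L (D₁ y))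
    (h₂ : ∀ y, D₂' (algebraMap K L y) = algebraMap K L (D₂ y)) (y : L) :
    D₁' (D₂' y) = D₂' (D₁' y) := by
  let E : Derivation ℤ L L := ⁅D₁', D₂'⁆
  have hE : ∀ c : K, E (algebraMap K L c) = 0 := by
    intro c
    show ⁅D₁', D₂'⁆ (algebraMap K L c) = 0
    rw [Derivation.commutator_apply, h₁, h₂, h₁, h₂, h, sub_self]
  have h3 := der_eq_zero (toLinearDer E hE) ∅ (by simp) (x := y) (by
    have : IsAlgebraic K y := Algebra.IsAlgebraic.isAlgebraic y
    exact this.tower_top _)
  have h4 : ⁅D₁', D₂'⁆ y = 0 := h3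
  rw [Derivation.commutator_apply, sub_eq_zero] at h4
  exact h4

/-- a derivation vanishes on the rational numbers -/
theorem der_rat (G : Derivation ℤ L L) [CharZero L] (c : ℚ) : G (algebraMap ℚ L c) = 0 := by
  have h1 : (c.den : L) * algebraMap ℚ L c = (c.num : L) := by
    have h2 : ((c.den : ℚ)) * c = (c.num : ℚ) := by
      rw [mul_comm]
      exact Rat.mul_den_eq_num c
    have h3 := congrArg (algebraMap ℚ L) h2
    rwa [map_mul, map_natCast, map_intCast] at h3
  have h2 : (c.den : L) ≠ 0 := by exact_mod_cast c.den_nz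
  have h3 := congrArg G h1
  rw [Derivation.leibniz, Derivation.map_natCast, smul_zero, add_zero, smul_eq_mul] at h3
  have h4 : G (c.num : L) = 0 := by
    have := G.map_algebraMap c.num
    simpa using this
  rw [h4] at h3
  exact (mul_eq_zero.mp h3).resolve_left h2

theorem exists_ddataE {κ : Type*} [Field κ] [Algebra κ K] {s q : ℕ} {d : Fin q → ℕ}
    {aK : MIdx s q d → K}
    {DK : MIdx s q d → Derivation ℤ K K} {B A : Place κ K → ℕ}
    {T : Type*} [DecidableEq T] {z : T → K} {E : T → Derivation ℚ K K}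
    (hB : ∀ I, PoleBound κ (DK I) B)
    (hPE : ∀ b, PoleBound κ (derZ (E b) - ∑ I, E b (aK I) • DK I) B)
    (hA : ∀ I v, v.1 (aK I) ≤ exp (A v : ℤ))
    (hD : ∀ I J, DK I (aK J) = if I = J then 1 else 0)
    (hcomm : ∀ I J y, DK I (DK J y) = DK J (DK I y))
    (hz : Algebra.IsAlgebraic (IntermediateField.adjoin ℚ (Set.range z)) K)
    (hE : ∀ b b', E b (z b') = if b = b' then 1 else 0) :
    ∃ (X : DData (MIdx s q d) Empty L) (EL : T → Derivation ℤ L L),
      HSetup X aK DK (Set.range EL) B A ∧ (∀ b j I, EL b (mA X j I) = 0) ∧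
      ∀ G : Derivation ℤ L L, (∀ j I, G (mA X j I) = 0) → ∀ Y : Finset L,
        ∃ (S : Finset T) (c : T → L), ∀ y ∈ Y, G y = ∑ b ∈ S, c b * EL b y := by
  classical
  have hcL : CharZero L := charZero_of_injective_algebraMap (algebraMap K L).injective
  have hsc : IsScalarTower ℚ K L := inferInstance
  choose DL hDL using fun I => exists_extension (K := K) (L := L) (DK I)
  choose FL hFL using fun b => exists_extension (K := K) (L := L) (derZ (E b))
  let X : DData (MIdx s q d) Empty L :=
    { a := fun I => algebraMap K L (aK I)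
      b := fun g => g.elim
      D := DL
      hD := fun I J => by
        rw [hDL, hD]
        split_ifs <;> simp
      hb := fun _ g => g.elim
      hcomm := fun I J y => ext_comm (hcomm I J) (hDL I) (hDL J) y }
  let EL : T → Derivation ℤ L L := fun b => FL b - ∑ I, algebraMap K L (E b (aK I)) • DL I
  have hELy : ∀ b y, EL b y = FL b y - ∑ I, algebraMap K L (E b (aK I)) * DL I y := by
    intro b y
    show (FL b - ∑ I, algebraMap K L (E b (aK I)) • DL I) y = _
    rw [Derivation.sub_apply, sum_smul_der]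
  have hELext : ∀ b y, EL b (algebraMap K L y) =
      algebraMap K L ((derZ (E b) - ∑ I, E b (aK I) • DK I) y) := by
    intro b y
    rw [hELy, hFL, Derivation.sub_apply, sum_smul_der, map_sub, map_sum]
    congr 1
    refine Finset.sum_congr rfl fun I _ => ?_
    rw [hDL, map_mul]
  have hELa : ∀ b I, EL b (algebraMap K L (aK I)) = 0 := by
    intro b I
    rw [hELext, Derivation.sub_apply, sum_smul_der]
    have h1 : ∑ J, E b (aK J) * DK J (aK I) = E b (aK I) := by
      rw [Finset.sum_eq_single I]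
      · rw [hD, if_pos rfl, mul_one]
      · intro J _ hJ
        rw [hD, if_neg hJ, mul_zero]
      · intro h; exact absurd (Finset.mem_univ _) h
    rw [h1]
    show algebraMap K L (E b (aK I) - E b (aK I)) = 0
    rw [sub_self, map_zero]
  refine ⟨X, EL, ⟨fun _ => rfl, hDL, hB, ?_, hA⟩, ?_, ?_⟩
  · rintro _ ⟨b, rfl⟩
    exact ⟨_, hELext b, hPE b⟩
  · intro b j I
    unfold mA
    split_ifs with h
    · exact hELa b _
    · exact map_zero _
  · intro G hG Y
    have hGa : ∀ I, G (algebraMap K L (aK I)) = 0 := by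
      rintro ⟨j, I, hI⟩
      have h1 := hG j I
      rw [mA, dif_pos hI] at h1
      exact h1
    obtain ⟨S, hS⟩ := density (k₀ := ℚ) hz FL (fun b c => by
        rw [IsScalarTower.algebraMap_apply ℚ K L, hFL]
        show algebraMap K L (E b (algebraMap ℚ K c)) = 0
        rw [Derivation.map_algebraMap, map_zero]) (fun b b' => by
        rw [hFL]
        show algebraMap K L (E b (z b')) = _
        rw [hE]
        split_ifs <;> simp) G (fun c => der_rat G c)
      (Y ∪ Finset.univ.image fun I => algebraMap K L (aK I))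
    refine ⟨S, fun b => G (algebraMap K L (z b)), fun y hy => ?_⟩
    rw [hS y (Finset.mem_union_left _ hy)]
    have h1 : ∀ I, ∑ b ∈ S, G (algebraMap K L (z b)) * algebraMap K L (E b (aK I)) = 0 := by
      intro I
      have h2 := hS (algebraMap K L (aK I)) (Finset.mem_union_right _
        (Finset.mem_image_of_mem _ (Finset.mem_univ I)))
      rw [hGa] at h2
      rw [h2]
      refine Finset.sum_congr rfl fun b _ => ?_
      rw [hFL]
      rfl
    have h2 : ∀ b, FL b y = EL b y + ∑ I, algebraMap K L (E b (aK I)) * DL I y := by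
      intro b
      rw [hELy]
      ring
    rw [Finset.sum_congr rfl fun b _ => by rw [h2 b, mul_add], Finset.sum_add_distrib]
    have h3 : ∑ b ∈ S, G (algebraMap K L (z b)) * ∑ I, algebraMap K L (E b (aK I)) * DL I y =
        0 := by
      simp only [Finset.mul_sum]
      rw [Finset.sum_comm]
      refine Finset.sum_eq_zero fun I _ => ?_
      have h4 : ∀ b ∈ S, G (algebraMap K L (z b)) * (algebraMap K L (E b (aK I)) * DL I y) =
          (G (algebraMap K L (z b)) * algebraMap K L (E b (aK I))) * DL I y := fun b _ => by ring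
      rw [Finset.sum_congr rfl h4, ← Finset.sum_mul, h1, zero_mul]
    rw [h3, add_zero]

end Ext

section Trdeg

variable {k₁ L : Type*} [Field k₁] [CharZero k₁] [Field L] [Algebra k₁ L]

/-- independent derivations at a normalised point of large transcendence degree -/
theorem exists_indep_der {n : ℕ} {x : Fin (n + 1) → L} {l : Fin (n + 1)} (hl : x l = 1) {τ : ℕ}
    (hτ : (τ : Cardinal) ≤ Algebra.trdeg k₁ (pointField k₁ x)) :
    ∃ Ev : Fin τ → Derivation ℤ L L, (∀ i c, Ev i (algebraMap k₁ L c) = 0) ∧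
      LinearIndependent L (fun i k => Ev i (x k)) := by
  classical
  have hx : x ≠ 0 := by
    rintro rfl
    exact zero_ne_one hl
  have h1 := Pool.Agent.Lib.MP_44a246_ntN.le_finrank_tangent (k₁ := k₁) hx hτ
  set V := tangent (Set.range (algebraMap k₁ L)) x with hV
  let Vl : Submodule L (Fin (n + 1) → L) := V ⊓ LinearMap.ker (LinearMap.proj l)
  have h2 : Module.finrank L V ≤ Module.finrank L Vl + 1 := by
    let f : V →ₗ[L] L := (LinearMap.proj l).comp V.subtype
    have h3 := LinearMap.finrank_range_add_finrank_ker f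
    have h4 : Module.finrank L (LinearMap.range f) ≤ 1 := by
      have := Submodule.finrank_le (LinearMap.range f)
      rwa [Module.finrank_self] at this
    have h5 : Module.finrank L (LinearMap.ker f) ≤ Module.finrank L Vl := by
      let g : LinearMap.ker f →ₗ[L] Vl :=
        { toFun := fun z => ⟨z.1.1, ⟨z.1.2, z.2⟩⟩
          map_add' := fun _ _ => rfl
          map_smul' := fun _ _ => rfl }
      refine LinearMap.finrank_le_finrank_of_injective (f := g) ?_
      intro z z' h
      apply Subtype.ext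
      apply Subtype.ext
      exact congrArg (fun w => w.1) h
    omega
  obtain ⟨w, hw⟩ := exists_linearIndependent_of_le_finrank (R := L) (M := Vl) (n := τ) (by omega)
  have h3 : ∀ i, ∃ E : Derivation ℤ L L, (∀ c, E (algebraMap k₁ L c) = 0) ∧
      ∀ k, (w i).1 k = E (x k) := by
    intro i
    obtain ⟨⟨c, E, hE, hwE⟩, hker⟩ := (w i).2
    refine ⟨E, fun c => hE _ ⟨c, rfl⟩, fun k => ?_⟩
    have h4 : (w i).1 l = 0 := hker
    rw [hwE l, hl, mul_one] at h4
    have h5 : E (1 : L) = 0 := Derivation.map_one_eq_zero E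
    rw [h5, add_zero] at h4
    rw [hwE k, h4, zero_mul, zero_add]
  choose Ev hEv1 hEv2 using h3
  refine ⟨Ev, hEv1, ?_⟩
  have h4 : (fun i k => Ev i (x k)) = fun i => (w i).1 := by
    funext i k
    exact (hEv2 i k).symm
  rw [h4]
  exact hw.map' Vl.subtype (Submodule.ker_subtype _)

end Trdeg

end Pool.Agent.Lib.MP_44a246_ntT
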