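import Mathlib
import Pool.Agent.Lib.MP_e52354_ntE.NoLine

/-!
A point with few unknown coordinates lies on no exceptional line: a count of transcendence
degrees.
-/

namespace Pool.Agent.Lib.MP_44a246_ntT

open Pool.Agent.Lib.MP_e52354_nt Pool.Agent.Lib.MP_e52354_ntG Pool.Agent.Lib.MP_e52354_ntE
open Polynomial

theorem pivB {k₀ k : Type*} [Field k₀] [Field k] [Algebra k₀ k] {s d : ℕ}
    {a : (Fin s →₀ ℕ) → k} {x θ : Fin s → k} {l b : Fin s} (hlb : l ≠ b) (hxl : x l = 1)
    (hθl : θ l = 0) (hθb : θ b = 1) (B : Subalgebra k₀ k)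
    (h : lineP d a x θ ∈ lifts (algebraMap B k))
    (hx : ∀ i, x i ∈ B) (hθ : ∀ i, θ i ∈ B)
    (ha : ∀ I ∈ expo (Fin s) d, (∀ i ≤ d, I ≠ pv l b d i) → a I ∈ B) :
    ∀ I ∈ expo (Fin s) d, a I ∈ B := by
  classical
  let f := algebraMap B k
  have hlmon : ∀ I, lmon x θ I ∈ lifts f := by
    intro I
    unfold lmon
    refine Subsemiring.prod_mem _ fun i _ => Subsemiring.pow_mem _ ?_ _
    exact Subsemiring.add_mem _ (C_lifts B (hx i)) (Subsemiring.mul_mem _ (C_lifts B (hθ i))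
      (X_lifts B))
  have hpl : ∀ i ≤ d, lmon x θ (pv l b d i) = (X + C (x b)) ^ i := by
    intro i hi
    unfold pv
    rw [lmon_add, lmon_single', lmon_single', hxl, hθl, hθb]
    simp [add_comm]
  let P : Finset (Fin s →₀ ℕ) := (Finset.range (d + 1)).image (pv l b d)
  have hP : P ⊆ expo (Fin s) d := by
    intro I hI
    obtain ⟨i, hi, rfl⟩ := Finset.mem_image.mp hI
    exact pv_mem l b (by rw [Finset.mem_range] at hi; omega)
  have hsum : ∑ i ∈ Finset.range (d + 1), C (a (pv l b d i)) * (X + C (x b)) ^ i =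
      lineP d a x θ + C (-1) * ∑ I ∈ expo (Fin s) d \ P, C (a I) * lmon x θ I := by
    have h1 : lineP d a x θ = ∑ i ∈ Finset.range (d + 1), C (a (pv l b d i)) * (X + C (x b)) ^ i +
        ∑ I ∈ expo (Fin s) d \ P, C (a I) * lmon x θ I := by
      unfold lineP
      rw [← Finset.sum_sdiff hP, add_comm]
      congr 1
      rw [Finset.sum_image fun i _ j _ hij => pv_inj hlb d hij]
      refine Finset.sum_congr rfl fun i hi => ?_
      rw [hpl i (by rw [Finset.mem_range] at hi; omega)]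
    rw [h1]
    simp
  have hR : lineP d a x θ + C (-1) * ∑ I ∈ expo (Fin s) d \ P, C (a I) * lmon x θ I ∈
      lifts f := by
    refine Subsemiring.add_mem _ h (Subsemiring.mul_mem _ ?_ (Subsemiring.sum_mem _ fun I hI => ?_))
    · exact C_lifts B (Subalgebra.neg_mem _ (Subalgebra.one_mem _))
    · rw [Finset.mem_sdiff] at hI
      refine Subsemiring.mul_mem _ (C_lifts B (ha I hI.1 ?_)) (hlmon I)
      intro i hi hIi
      exact hI.2 (Finset.mem_image.mpr ⟨i, Finset.mem_range.mpr (by omega), hIi.symm⟩)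
  have hcomp : ∑ i ∈ Finset.range (d + 1), C (a (pv l b d i)) * X ^ i ∈ lifts f := by
    have h1 : ∑ i ∈ Finset.range (d + 1), C (a (pv l b d i)) * X ^ i =
        (∑ i ∈ Finset.range (d + 1), C (a (pv l b d i)) * (X + C (x b)) ^ i).comp
          (X - C (x b)) := by
      rw [sum_comp]
      refine Finset.sum_congr rfl fun i _ => ?_
      simp
    rw [h1, hsum]
    obtain ⟨R, hR'⟩ := (mem_lifts _).mp hR
    have hXc : (X - C (x b) : k[X]) ∈ lifts f := by
      rw [sub_eq_add_neg, ← C_neg]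
      exact Subsemiring.add_mem _ (X_lifts B) (C_lifts B (Subalgebra.neg_mem _ (hx b)))
    obtain ⟨S, hS⟩ := (mem_lifts _).mp hXc
    rw [← hR', ← hS, ← map_comp]
    exact (mem_lifts _).mpr ⟨_, rfl⟩
  intro I hI
  by_cases hIP : ∀ i ≤ d, I ≠ pv l b d i
  · exact ha I hI hIP
  · push Not at hIP
    obtain ⟨i, hi, rfl⟩ := hIP
    obtain ⟨S, hS⟩ := (mem_lifts _).mp hcomp
    have h1 := congrArg (fun p : k[X] => p.coeff i) hS
    simp only [coeff_map, finsetSum_coeff, coeff_C_mul, coeff_X_pow, mul_ite, mul_one,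
      mul_zero] at h1
    rw [Finset.sum_ite_eq, if_pos (Finset.mem_range.mpr (by omega))] at h1
    rw [← h1]
    exact (S.coeff i).2

/-- no exceptional line through the point -/
theorem no_line_log {k₀ k : Type*} [Field k₀] [Field k] [Algebra k₀ k] {N q : ℕ} {d : Fin q → ℕ}
    {a : (j : Fin q) → (Fin (N + 1) →₀ ℕ) → k}
    (ha : AlgebraicIndependent k₀ (fun t : MIdx (N + 1) q d => a t.1 t.2.1))
    (hd : N + 2 ≤ ∑ j, d j) {A : Finset (Fin q)} {Λ : Finset (Fin (N + 1))}
    (hΛ : Λ.card ≤ A.card + 1) {l b : Fin (N + 1)}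
    (hlb : l ≠ b) (hl : l ∈ Λ) {x θ : Fin (N + 1) → k} (hxl : x l = 1) (hxΛ : ∀ i ∉ Λ, x i = 0)
    (hθl : θ l = 0) (hθb : θ b = 1) (β : Fin 2 → k) (α : Fin q → Fin 2 → ℕ) (c : Fin q → k)
    (h1 : ∀ j ∈ A, lineP (d j) (a j) x θ = 0)
    (h2 : ∀ j ∉ A, lineP (d j) (a j) x θ =
      C (c j) * ((1 + C (β 0) * X) ^ α j 0 * (1 + C (β 1) * X) ^ α j 1)) : False := by
  classical
  set P : Finset (MIdx (N + 1) q d) := Finset.univ.image (pvs l b d) with hP
  let g : Gam d Λ l b P ⊕ (Fin 2 ⊕ {j // j ∉ A}) → k :=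
    Sum.elim (Sum.elim (fun i => x i.1) (Sum.elim (fun i => θ i.1) fun t => a t.1.1 t.1.2.1))
      (Sum.elim β fun j => c j.1)
  set B := Algebra.adjoin k₀ (Set.range g) with hB
  have hg : ∀ γ, g γ ∈ B := fun γ => Algebra.subset_adjoin ⟨γ, rfl⟩
  have hx : ∀ i, x i ∈ B := by
    intro i
    by_cases h1 : i = l
    · rw [h1, hxl]; exact Subalgebra.one_mem _
    by_cases h2 : i ∈ Λ
    · exact hg (Sum.inl (Sum.inl ⟨i, Finset.mem_erase.mpr ⟨h1, h2⟩⟩))
    · rw [hxΛ i h2]; exact Subalgebra.zero_mem _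
  have hθ : ∀ i, θ i ∈ B := by
    intro i
    by_cases h1 : i = l
    · rw [h1, hθl]; exact Subalgebra.zero_mem _
    by_cases h2 : i = b
    · rw [h2, hθb]; exact Subalgebra.one_mem _
    · exact hg (Sum.inl (Sum.inr (Sum.inl ⟨i, Finset.mem_erase.mpr ⟨h2, Finset.mem_erase.mpr
        ⟨h1, Finset.mem_univ _⟩⟩⟩)))
  have hβ : ∀ i, β i ∈ B := fun i => hg (Sum.inr (Sum.inl i))
  have hc : ∀ j ∉ A, c j ∈ B := fun j hj => hg (Sum.inr (Sum.inr ⟨j, hj⟩))
  have hone : (1 : k[X]) ∈ lifts (algebraMap B k) := Subsemiring.one_mem _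
  have hline : ∀ j, lineP (d j) (a j) x θ ∈ lifts (algebraMap B k) := by
    intro j
    by_cases hj : j ∈ A
    · rw [h1 j hj]
      exact Subsemiring.zero_mem _
    · rw [h2 j hj]
      exact Subsemiring.mul_mem _ (C_lifts B (hc j hj)) (Subsemiring.mul_mem _
        (Subsemiring.pow_mem _ (Subsemiring.add_mem _ hone (Subsemiring.mul_mem _
          (C_lifts B (hβ 0)) (X_lifts B))) _)
        (Subsemiring.pow_mem _ (Subsemiring.add_mem _ hone (Subsemiring.mul_mem _
          (C_lifts B (hβ 1)) (X_lifts B))) _))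
  have hall : ∀ t : MIdx (N + 1) q d, a t.1 t.2.1 ∈ B := by
    rintro ⟨j, I, hI⟩
    refine pivB hlb hxl hθl hθb B (hline j) hx hθ ?_ I hI
    intro J hJ hJp
    refine hg (Sum.inl (Sum.inr (Sum.inr ⟨⟨j, J, hJ⟩, ?_⟩)))
    intro hmem
    rw [hP] at hmem
    obtain ⟨⟨i, u⟩, _, h2⟩ := Finset.mem_image.mp hmem
    simp only [pvs, Sigma.mk.injEq] at h2
    obtain ⟨rfl, h3⟩ := h2
    have h4 := congrArg Subtype.val (eq_of_heq h3)
    exact hJp u (Nat.lt_succ_iff.mp u.isLt) h4.symm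
  have hcard := card_le_of_mem_adjoin _ ha g hall
  rw [Fintype.card_sum, card_Gam d hlb hl P, Fintype.card_sum, Fintype.card_fin,
    Fintype.card_subtype_compl, Fintype.card_fin, Fintype.card_coe] at hcard
  have hPc : P.card = ∑ j, d j + q := card_pvs hlb d
  have h2 : P.card ≤ Fintype.card (MIdx (N + 1) q d) := Finset.card_le_univ P
  have h3 : 1 ≤ Λ.card := Finset.card_pos.mpr ⟨l, hl⟩
  have h5 : A.card ≤ q := by
    have := Finset.card_le_univ A
    rwa [Fintype.card_fin] at this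
  have h4 : 1 ≤ N := by
    by_contra h0
    have : N = 0 := by omega
    subst this
    exact hlb (Fin.ext (by omega))
  omega

/-- `#A + 1` of the forms have no common zero with support in a set of `#A + 1` coordinates -/
theorem no_zero {k₀ k : Type*} [Field k₀] [Field k] [Algebra k₀ k] {N q : ℕ} {d : Fin q → ℕ}
    {a : (j : Fin q) → (Fin (N + 1) →₀ ℕ) → k}
    (ha : AlgebraicIndependent k₀ (fun t : MIdx (N + 1) q d => a t.1 t.2.1))
    {A : Finset (Fin q)} {Λ : Finset (Fin (N + 1))}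
    (hΛ : Λ.card ≤ A.card) {l : Fin (N + 1)} (hl : l ∈ Λ) {x : Fin (N + 1) → k}
    (hxl : x l = 1) (hxΛ : ∀ i ∉ Λ, x i = 0)
    (h1 : ∀ j ∈ A, Fval (d j) (a j) x = 0) : False := by
  classical
  let piv : A → MIdx (N + 1) q d := fun j =>
    ⟨j.1, Finsupp.single l (d j.1), by rw [mem_expo, Finsupp.degree_single]⟩
  have hpinj : Function.Injective piv := by
    intro i j h
    have := congrArg Sigma.fst h
    exact Subtype.ext this
  set P : Finset (MIdx (N + 1) q d) := Finset.univ.image piv with hP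
  let g : {i // i ∈ Λ.erase l} ⊕ {t // t ∉ P} → k :=
    Sum.elim (fun i => x i.1) fun t => a t.1.1 t.1.2.1
  set B := Algebra.adjoin k₀ (Set.range g) with hB
  have hg : ∀ γ, g γ ∈ B := fun γ => Algebra.subset_adjoin ⟨γ, rfl⟩
  have hx : ∀ i, x i ∈ B := by
    intro i
    by_cases h1 : i = l
    · rw [h1, hxl]; exact Subalgebra.one_mem _
    by_cases h2 : i ∈ Λ
    · exact hg (Sum.inl ⟨i, Finset.mem_erase.mpr ⟨h1, h2⟩⟩)
    · rw [hxΛ i h2]; exact Subalgebra.zero_mem _
  have hmon : ∀ I, mon x I ∈ B := by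
    intro I
    unfold mon
    exact Subalgebra.prod_mem _ fun i _ => Subalgebra.pow_mem _ (hx i) _
  have hall : ∀ t : MIdx (N + 1) q d, a t.1 t.2.1 ∈ B := by
    intro t
    by_cases ht : t ∈ P
    · rw [hP] at ht
      obtain ⟨j, -, rfl⟩ := Finset.mem_image.mp ht
      have h2 := h1 j.1 j.2
      have hmem : Finsupp.single l (d j.1) ∈ expo (Fin (N + 1)) (d j.1) := by
        rw [mem_expo, Finsupp.degree_single]
      unfold Fval at h2
      rw [← Finset.add_sum_erase _ _ hmem] at h2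
      have h3 : mon x (Finsupp.single l (d j.1)) = 1 := by
        unfold mon
        rw [Finset.prod_eq_single l]
        · rw [Finsupp.single_eq_same, hxl, one_pow]
        · intro i _ hi
          rw [Finsupp.single_eq_of_ne hi, pow_zero]
        · intro h; exact absurd (Finset.mem_univ _) h
      rw [h3, mul_one] at h2
      show a j.1 (Finsupp.single l (d j.1)) ∈ B
      rw [eq_neg_of_add_eq_zero_left h2]
      refine Subalgebra.neg_mem _ (Subalgebra.sum_mem _ fun I hI => ?_)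
      rw [Finset.mem_erase] at hI
      refine Subalgebra.mul_mem _ ?_ (hmon I)
      refine hg (Sum.inr ⟨⟨j.1, I, hI.2⟩, ?_⟩)
      intro hmem'
      rw [hP] at hmem'
      obtain ⟨i, -, h4⟩ := Finset.mem_image.mp hmem'
      simp only [piv, Sigma.mk.injEq] at h4
      obtain ⟨h5, h6⟩ := h4
      have h7 : i = j := Subtype.ext h5
      subst h7
      have h8 := congrArg Subtype.val (eq_of_heq h6)
      exact hI.1 h8.symm
    · exact hg (Sum.inr ⟨t, ht⟩)
  have hcard := card_le_of_mem_adjoin _ ha g hall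
  rw [Fintype.card_sum, Fintype.card_coe, Finset.card_erase_of_mem hl,
    Fintype.card_subtype_compl, Fintype.card_coe] at hcard
  have hPc : P.card = A.card := by
    rw [hP, Finset.card_image_of_injective _ hpinj, Finset.card_univ, Fintype.card_coe]
  have h2 : P.card ≤ Fintype.card (MIdx (N + 1) q d) := Finset.card_le_univ P
  have h3 : 1 ≤ Λ.card := Finset.card_pos.mpr ⟨l, hl⟩
  omega

end Pool.Agent.Lib.MP_44a246_ntT
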