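import Mathlib
import Pool.Agent.Lib.MP_44a246_ntT.TForms
import Pool.Agent.Lib.MP_e52354_ntI.IContact

/-!
Logarithmic version of the contact lemma: if the derivatives of the point factor through a line
modulo a small subspace which contains all vectors xi and eps, then there is a direction in the
line in which the derivatives of all forms vanish along the line.
-/

namespace Pool.Agent.Lib.MP_44a246_ntT

open Pool.Agent.Lib.MP_e52354_nt
open Pool.Agent.Lib.MP_e52354_ntG
open Pool.Agent.Lib.MP_e52354_ntC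
open Pool.Agent.Lib.MP_e52354_ntI
open Polynomial

universe u w w'

set_option linter.unusedSectionVars false

section Coord

variable {s q : ℕ} {d : Fin q → ℕ} {γ : Type w'} {M : Type u} [Field M] {β : Type}

/-- the elements whose (logarithmic) derivatives are the coordinates of `lD` -/
noncomputable def yv (X : DData (MIdx s q d) γ M) (p : Fin s → M) (g : β → Fin q) :
    Fin s ⊕ β → M := Sum.elim p (fun b => zv X p (g b))

/-- the denominators of the coordinates of `lD` -/
noncomputable def zz (X : DData (MIdx s q d) γ M) (p : Fin s → M) (g : β → Fin q) :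
    Fin s ⊕ β → M := Sum.elim (fun _ => 1) (fun b => zv X p (g b))

variable {X : DData (MIdx s q d) γ M} {p : Fin s → M} {g : β → Fin q} {EE : Set (Derivation ℤ M M)} {θ : Fin s → M}
  {l b : Fin s}

theorem lD_apply (D : Derivation ℤ M M) (i : Fin s ⊕ β) :
    lD X p g D i = D (yv X p g i) / zz X p g i := by
  rcases i with k | b
  · simp [lD, yv, zz]
  · simp [lD, yv, zz]

theorem lD_Dmc (f : Fin q) (m : Fin s →₀ ℕ) (c : Fin s) :
    lD X p g (Dmc (mD X f) p θ l b m c) = ldp X p g f (m + Finsupp.single c 1) -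
      p c • ldp X p g f (m + Finsupp.single l 1) -
      θ c • (ldp X p g f (m + Finsupp.single b 1) - p b • ldp X p g f (m + Finsupp.single l 1)) := by
  funext i
  simp only [Pi.sub_apply, Pi.smul_apply, smul_eq_mul, lD_apply, Dmc_apply]
  ring

theorem lD_Dmc_zeta (hpl : p l = 1) (f : Fin q) (m : Fin s →₀ ℕ) (c : Fin s) :
    lD X p g (Dmc (mD X f) p θ l b m c) =
      lzeta X p g f m l c - θ c • lzeta X p g f m l b := by
  rw [lD_Dmc]
  funext i
  simp only [lzeta, Pi.sub_apply, Pi.smul_apply, smul_eq_mul, hpl]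
  ring

theorem lD_Em {ι : Type*} [Fintype ι] (c : Fin s) (sc : ι → M)
    (ν : ι → Fin q × (Fin s →₀ ℕ)) :
    lD X p g (Em (mD X) p θ l b c sc ν) =
      ∑ i, sc i • lD X p g (Dmc (mD X (ν i).1) p θ l b (ν i).2 c) := by
  funext k
  rw [Finset.sum_apply, lD_apply, Em_apply, Finset.sum_div]
  refine Finset.sum_congr rfl fun i _ => ?_
  rw [Pi.smul_apply, smul_eq_mul, lD_apply]
  ring

theorem D_div_of_zero (E : Derivation ℤ M M) {y z : M} (hz : E z = 0) :
    E (y / z) = E y / z := by
  rw [div_eq_mul_inv, Derivation.leibniz, Derivation.leibniz_inv, hz]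
  simp only [smul_eq_mul, mul_zero, zero_add]
  rw [div_eq_mul_inv, mul_comm]

theorem E_lD (E D : Derivation ℤ M M) (hE : ∀ b, E (zv X p (g b)) = 0) (i : Fin s ⊕ β) :
    E (lD X p g D i) = E (D (yv X p g i)) / zz X p g i := by
  rw [lD_apply]
  apply D_div_of_zero
  rcases i with k | b
  · simp [zz]
  · exact hE b

/-- the inclusion of the first coordinates -/
def inj0 (M : Type u) [Field M] (s : ℕ) (β : Type) : (Fin s → M) →ₗ[M] (Fin s ⊕ β → M) where
  toFun v := Sum.elim v (fun _ => 0)
  map_add' v w := by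
    funext i
    rcases i with k | b
    · simp
    · simp
  map_smul' c v := by
    funext i
    rcases i with k | b
    · simp
    · simp

@[simp] theorem inj0_inl (v : Fin s → M) (k : Fin s) : inj0 M s β v (Sum.inl k) = v k := rfl

@[simp] theorem inj0_inr (v : Fin s → M) (b : β) : inj0 M s β v (Sum.inr b) = 0 := rfl

end Coord

section EmGen

variable {M : Type u} [Field M] {σ : Type*} {q : ℕ} {D : Fin q → (σ →₀ ℕ) → Derivation ℤ M M}
  {p θ : σ → M} {l b : σ} {ι : Type*} [Fintype ι]

/-- the commutator of a combination with one of the derivations -/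
theorem Em_comm_gen (hcomm : ∀ i j I J y, D i I (D j J y) = D j J (D i I y)) (c : σ) (s : ι → M)
    (ν : ι → Fin q × (σ →₀ ℕ)) (y : M) (g : Fin q) (K : σ →₀ ℕ) :
    Em D p θ l b c s ν (D g K y) = D g K (Em D p θ l b c s ν y) -
      ∑ i, D g K (s i) * Dmc (D (ν i).1) p θ l b (ν i).2 c y +
      (D g K (p c) - θ c * D g K (p b)) * ∑ i, s i * D (ν i).1 ((ν i).2 + Finsupp.single l 1) y +
      D g K (θ c) * ∑ i, s i * (D (ν i).1 ((ν i).2 + Finsupp.single b 1) y -
        p b * D (ν i).1 ((ν i).2 + Finsupp.single l 1) y) := by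
  rw [Em_apply, Em_apply, map_sum]
  simp only [Derivation.leibniz, smul_eq_mul, Finset.sum_add_distrib]
  have h3 : ∀ i, s i * Dmc (D (ν i).1) p θ l b (ν i).2 c (D g K y) =
      s i * D g K (Dmc (D (ν i).1) p θ l b (ν i).2 c y) +
      (D g K (p c) - θ c * D g K (p b)) * (s i * D (ν i).1 ((ν i).2 + Finsupp.single l 1) y) +
      D g K (θ c) * (s i * (D (ν i).1 ((ν i).2 + Finsupp.single b 1) y -
        p b * D (ν i).1 ((ν i).2 + Finsupp.single l 1) y)) := by
    intro i
    rw [mDmc_comm hcomm]; ring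
  rw [Finset.sum_congr rfl fun i _ => h3 i, Finset.sum_add_distrib, Finset.sum_add_distrib,
    ← Finset.mul_sum, ← Finset.mul_sum]
  have h4 : ∑ i, Dmc (D (ν i).1) p θ l b (ν i).2 c y * D g K (s i) =
      ∑ i, D g K (s i) * Dmc (D (ν i).1) p θ l b (ν i).2 c y :=
    Finset.sum_congr rfl fun i _ => mul_comm _ _
  rw [h4]
  ring

/-- the correction term of a commutator -/
noncomputable def Gc (D : (σ →₀ ℕ) → Derivation ℤ M M) (p θ : σ → M) (l b : σ) (m : σ →₀ ℕ)
    (c : σ) (E : Derivation ℤ M M) : Derivation ℤ M M :=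
  ⁅E, D (m + Finsupp.single c 1)⁆ - p c • ⁅E, D (m + Finsupp.single l 1)⁆ -
    θ c • (⁅E, D (m + Finsupp.single b 1)⁆ - p b • ⁅E, D (m + Finsupp.single l 1)⁆)

theorem Gc_apply (D : (σ →₀ ℕ) → Derivation ℤ M M) (p θ : σ → M) (l b : σ) (m : σ →₀ ℕ)
    (c : σ) (E : Derivation ℤ M M) (y : M) : Gc D p θ l b m c E y =
      (E (D (m + Finsupp.single c 1) y) - D (m + Finsupp.single c 1) (E y)) -
      p c * (E (D (m + Finsupp.single l 1) y) - D (m + Finsupp.single l 1) (E y)) -
      θ c * ((E (D (m + Finsupp.single b 1) y) - D (m + Finsupp.single b 1) (E y)) -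
        p b * (E (D (m + Finsupp.single l 1) y) - D (m + Finsupp.single l 1) (E y))) := by
  simp only [Gc, Derivation.sub_apply, Derivation.smul_apply, Derivation.commutator_apply,
    smul_eq_mul]

theorem Em_Dmc_gen (hcomm : ∀ i j I J y, D i I (D j J y) = D j J (D i I y)) (c : σ) (s : ι → M)
    (ν : ι → Fin q × (σ →₀ ℕ)) (E' : Derivation ℤ M M)
    (hp : ∀ k, (Em D p θ l b c s ν - E') (p k) = 0) (g : Fin q)
    (m' : σ →₀ ℕ) (j : σ) (y : M) (hy : (Em D p θ l b c s ν - E') y = 0) :
    (Em D p θ l b c s ν - E') (Dmc (D g) p θ l b m' j y) =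
      - ∑ i, Dmc (D g) p θ l b m' j (s i) * Dmc (D (ν i).1) p θ l b (ν i).2 c y +
      (Dmc (D g) p θ l b m' j (p c) - θ c * Dmc (D g) p θ l b m' j (p b)) *
        ∑ i, s i * D (ν i).1 ((ν i).2 + Finsupp.single l 1) y +
      Dmc (D g) p θ l b m' j (θ c) * ∑ i, s i * (D (ν i).1 ((ν i).2 + Finsupp.single b 1) y -
        p b * D (ν i).1 ((ν i).2 + Finsupp.single l 1) y) -
      (Em D p θ l b c s ν - E') (θ j) *
        (D g (m' + Finsupp.single b 1) y - p b * D g (m' + Finsupp.single l 1) y) -
      Gc (D g) p θ l b m' j E' y := by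
  have hy' : Em D p θ l b c s ν y = E' y := by
    rw [Derivation.sub_apply, sub_eq_zero] at hy
    exact hy
  have h1 : ∀ K, (Em D p θ l b c s ν - E') (D g K y) =
      - ∑ i, D g K (s i) * Dmc (D (ν i).1) p θ l b (ν i).2 c y +
      (D g K (p c) - θ c * D g K (p b)) * ∑ i, s i * D (ν i).1 ((ν i).2 + Finsupp.single l 1) y +
      D g K (θ c) * ∑ i, s i * (D (ν i).1 ((ν i).2 + Finsupp.single b 1) y -
        p b * D (ν i).1 ((ν i).2 + Finsupp.single l 1) y) -
      (E' (D g K y) - D g K (E' y)) := by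
    intro K
    rw [Derivation.sub_apply, Em_comm_gen hcomm, hy']
    ring
  have h5 : ∑ i, Dmc (D g) p θ l b m' j (s i) * Dmc (D (ν i).1) p θ l b (ν i).2 c y =
      ∑ i, D g (m' + Finsupp.single j 1) (s i) * Dmc (D (ν i).1) p θ l b (ν i).2 c y -
      p j * ∑ i, D g (m' + Finsupp.single l 1) (s i) *
        Dmc (D (ν i).1) p θ l b (ν i).2 c y -
      θ j * (∑ i, D g (m' + Finsupp.single b 1) (s i) *
        Dmc (D (ν i).1) p θ l b (ν i).2 c y -
        p b * ∑ i, D g (m' + Finsupp.single l 1) (s i) *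
          Dmc (D (ν i).1) p θ l b (ν i).2 c y) := by
    simp only [Finset.mul_sum, ← Finset.sum_sub_distrib]
    refine Finset.sum_congr rfl fun i _ => ?_
    rw [Dmc_apply (D g) p θ l b m' j]
    ring
  rw [h5, Gc_apply]
  set E := Em D p θ l b c s ν - E' with hEdef
  rw [Dmc_apply (D g) p θ l b m' j y]
  simp only [map_sub, Derivation.leibniz, smul_eq_mul]
  rw [hp j, hp b, h1, h1, h1]
  simp only [Dmc_apply (D g) p θ l b m' j]
  ring

/-- the commutator of a combination with an arbitrary derivation -/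
theorem Em_comm_ext (c : σ) (s : ι → M) (ν : ι → Fin q × (σ →₀ ℕ)) (E : Derivation ℤ M M)
    (y : M) :
    Em D p θ l b c s ν (E y) - E (Em D p θ l b c s ν y) =
      - ∑ i, E (s i) * Dmc (D (ν i).1) p θ l b (ν i).2 c y +
      (E (p c) - θ c * E (p b)) * ∑ i, s i * D (ν i).1 ((ν i).2 + Finsupp.single l 1) y +
      E (θ c) * ∑ i, s i * (D (ν i).1 ((ν i).2 + Finsupp.single b 1) y -
        p b * D (ν i).1 ((ν i).2 + Finsupp.single l 1) y) -
      ∑ i, s i * Gc (D (ν i).1) p θ l b (ν i).2 c E y := by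
  rw [Em_apply, Em_apply, map_sum]
  simp only [Finset.mul_sum, ← Finset.sum_sub_distrib, ← Finset.sum_neg_distrib,
    ← Finset.sum_add_distrib]
  refine Finset.sum_congr rfl fun i _ => ?_
  rw [Gc_apply]
  simp only [Dmc_apply, Derivation.leibniz, smul_eq_mul, map_sub]
  ring

end EmGen

section Rel

variable {M : Type u} [Field M] [CharZero M] {σ : Type*} [Fintype σ] [DecidableEq σ] {q : ℕ}
  {D : Fin q → (σ →₀ ℕ) → Derivation ℤ M M} {p θ : σ → M} {l b : σ} {d : Fin q → ℕ}
  {a : Fin q → (σ →₀ ℕ) → M} {ι : Type*} [Fintype ι]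

/-- Differentiation of the relations `∑ w_i F_i = 0` along the line by a derivation killing the
line. -/
theorem mrel_of_E (hD : ∀ i j, ∀ I ∈ expo σ (d i), ∀ J ∈ expo σ (d j),
      D i I (a j J) = if i = j ∧ I = J then 1 else 0)
    (hpl : p l = 1) (hθl : θ l = 0) (hθb : θ b = 1) (w : σ → M)
    (hw : mG d a p θ w = 0) (c : σ) (s : ι → M) (ν : ι → Fin q × (σ →₀ ℕ))
    (hν : ∀ i, (ν i).2.degree + 1 = d (ν i).1) (E : Derivation ℤ M M)
    (hEa : ∀ f I, E (a f I) = Em D p θ l b c s ν (a f I))
    (hp : ∀ k, E (p k) = 0) (hθ : ∀ k, E (θ k) = 0) :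
    (w c - p c * w l - θ c * (w b - p b * w l)) •
      (∑ i, s i • (Pi.single (ν i).1 (lmon p θ (ν i).2) : Fin q → M[X])) =
      - mG d a p θ (fun j => E (w j)) := by
  classical
  funext f
  rw [Pi.neg_apply, mG_apply, Pi.smul_apply, Finset.sum_apply]
  have hwf : ∑ j, w j • gradP (d f) (a f) p θ j = 0 := by
    rw [← mG_apply, hw]; rfl
  apply eq_of_infinite_eval_eq
  refine Set.Infinite.mono (s := Set.range (fun n : ℕ => (n : M))) ?_
    (Set.infinite_range_of_injective Nat.cast_injective)
  rintro _ ⟨n, rfl⟩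
  show eval _ _ = eval _ _
  let y : σ → M := fun j => p j + θ j * n
  have hEy : ∀ j, E (y j) = 0 := by
    intro j
    show E (p j + θ j * n) = 0
    rw [map_add, Derivation.leibniz, Derivation.map_natCast, hp, hθ]
    simp
  have hEmon : ∀ I, E (mon y I) = 0 := by
    intro I
    rw [D_mon]
    exact Finset.sum_eq_zero fun j _ => by rw [hEy j, mul_zero]
  have h1 : ∑ j, w j * grad (d f) (a f) y j = 0 := by
    have := congrArg (fun g : M[X] => g.eval (n : M)) hwf
    simp only [eval_finsetSum, eval_smul, eval_gradP, smul_eq_mul, eval_zero] at this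
    exact this
  -- apply `E`
  have h2 := congrArg E h1
  rw [map_zero, map_sum] at h2
  have h3 : ∀ j, E (w j * grad (d f) (a f) y j) = E (w j) * grad (d f) (a f) y j +
      w j * ∑ I ∈ expo σ (d f), E (a f I) * ((I j : M) * mon y (I - Finsupp.single j 1)) := by
    intro j
    rw [Derivation.leibniz, smul_eq_mul, smul_eq_mul]
    have h4 : E (grad (d f) (a f) y j) = ∑ I ∈ expo σ (d f), E (a f I) *
        ((I j : M) * mon y (I - Finsupp.single j 1)) := by
      unfold grad
      rw [map_sum]
      refine Finset.sum_congr rfl fun I _ => ?_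
      rw [Derivation.leibniz, Derivation.leibniz, Derivation.map_natCast, hEmon]
      simp only [smul_eq_mul, mul_zero, zero_add]
      ring
    rw [h4]; ring
  rw [Finset.sum_congr rfl fun j _ => h3 j, Finset.sum_add_distrib] at h2
  have h5 : ∑ j, w j * ∑ I ∈ expo σ (d f), E (a f I) *
      ((I j : M) * mon y (I - Finsupp.single j 1)) =
      ∑ I ∈ expo σ (d f), E (a f I) * dmon y w I := by
    simp only [Finset.mul_sum, dmon]
    rw [Finset.sum_comm]
    exact Finset.sum_congr rfl fun I _ => Finset.sum_congr rfl fun j _ => by ring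
  have hpick : ∀ g, ∀ K ∈ expo σ (d g), ∑ I ∈ expo σ (d f), D g K (a f I) * dmon y w I =
      if g = f then dmon y w K else 0 := by
    intro g K hK
    by_cases hgf : g = f
    · subst hgf
      rw [if_pos rfl, Finset.sum_eq_single K]
      · rw [hD g g K hK K hK, if_pos ⟨rfl, rfl⟩, one_mul]
      · intro J hJ hJK
        rw [hD g g K hK J hJ, if_neg (fun h => hJK h.2.symm), zero_mul]
      · intro h; exact absurd hK h
    · rw [if_neg hgf]
      refine Finset.sum_eq_zero fun J hJ => ?_
      rw [hD g f K hK J hJ, if_neg (fun h => hgf h.1), zero_mul]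
  have hDmc : ∀ g, ∀ m : σ →₀ ℕ, m.degree + 1 = d g → ∑ I ∈ expo σ (d f),
      Dmc (D g) p θ l b m c (a f I) * dmon y w I =
      if g = f then mon y m * (w c - p c * w l - θ c * (w b - p b * w l)) else 0 := by
    intro g m hm
    have h6 : ∀ I, Dmc (D g) p θ l b m c (a f I) * dmon y w I =
        D g (m + Finsupp.single c 1) (a f I) * dmon y w I -
        p c * (D g (m + Finsupp.single l 1) (a f I) * dmon y w I) -
        θ c * (D g (m + Finsupp.single b 1) (a f I) * dmon y w I -
          p b * (D g (m + Finsupp.single l 1) (a f I) * dmon y w I)) := by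
      intro I
      rw [Dmc_apply]; ring
    rw [Finset.sum_congr rfl fun I _ => h6 I]
    simp only [Finset.sum_sub_distrib, ← Finset.mul_sum]
    rw [hpick _ _ (add_mem hm c), hpick _ _ (add_mem hm l), hpick _ _ (add_mem hm b)]
    split_ifs
    · rw [dmon_add, dmon_add, dmon_add]
      simp only [y, hpl, hθl, hθb]
      ring
    · ring
  have h7 : ∑ I ∈ expo σ (d f), E (a f I) * dmon y w I =
      (∑ i, s i * (if (ν i).1 = f then mon y (ν i).2 else 0)) *
        (w c - p c * w l - θ c * (w b - p b * w l)) := by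
    have h8 : ∀ I, E (a f I) * dmon y w I =
        ∑ i, s i * (Dmc (D (ν i).1) p θ l b (ν i).2 c (a f I) * dmon y w I) := by
      intro I
      rw [hEa, Em_apply, Finset.sum_mul]
      exact Finset.sum_congr rfl fun i _ => by ring
    rw [Finset.sum_congr rfl fun I _ => h8 I, Finset.sum_comm, Finset.sum_mul]
    refine Finset.sum_congr rfl fun i _ => ?_
    rw [← Finset.mul_sum, hDmc _ _ (hν i)]
    split_ifs
    · ring
    · ring
  rw [h5, h7] at h2
  rw [eval_smul, eval_finsetSum, eval_neg, eval_finsetSum]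
  have h9 : ∀ i, eval (n : M) ((s i • (Pi.single (ν i).1 (lmon p θ (ν i).2) : Fin q → M[X])) f) =
      s i * (if (ν i).1 = f then mon y (ν i).2 else 0) := by
    intro i
    rw [Pi.smul_apply, eval_smul, smul_eq_mul]
    congr 1
    by_cases hf : (ν i).1 = f
    · rw [if_pos hf]
      subst hf
      rw [Pi.single_eq_same, eval_lmon]
    · rw [if_neg hf, Pi.single_eq_of_ne (Ne.symm hf), eval_zero]
  simp only [h9]
  simp only [eval_smul, eval_gradP, smul_eq_mul]
  have hy : (fun j => p j + θ j * (n : M)) = y := rfl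
  simp only [hy]
  linear_combination h2

end Rel

section Psi

variable {s q : ℕ} {d : Fin q → ℕ} {γ : Type w'} {M : Type u} [Field M] [CharZero M]
  {β : Type} [Fintype β] {X : DData (MIdx s q d) γ M} {p θ : Fin s → M} {g : β → Fin q} {EE : Set (Derivation ℤ M M)}
  {l b : Fin s} {Q : Type*} [AddCommGroup Q] [Module M Q]

theorem map_lxi (π : (Fin s ⊕ β → M) →ₗ[M] Q) (Ψ : (Fin q → M[X]) →ₗ[M] Q)
    (hΨ : ∀ j, ∀ I : Fin s →₀ ℕ, I.degree = d j →
      Ψ (Pi.single j (lmon p θ I)) = π (ldp X p g j I)) (u v : Fin s) :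
    π (lxi X p g u v) = p v • π (inj0 M s β (Pi.single u 1)) +
      Ψ (fun j => (C (p v) + C (θ v) * Polynomial.X) * gradP (d j) (mA X j) p θ u) := by
  classical
  have h1 : lxi X p g u v = p v • inj0 M s β (Pi.single u 1) +
      ∑ j, ∑ I ∈ expo (Fin s) (d j),
      (mA X j I * (I u : M)) • ldp X p g j (I - Finsupp.single u 1 + Finsupp.single v 1) := by
    rw [lxi]
    congr 1
    funext i
    rcases i with k | b
    · simp only [Sum.elim_inl, Pi.smul_apply, inj0_inl, smul_eq_mul]
      by_cases hik : u = k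
      · subst hik; simp
      · rw [if_neg hik, Pi.single_eq_of_ne (Ne.symm hik), mul_zero]
    · simp
  have h2 : (fun j => (C (p v) + C (θ v) * Polynomial.X) * gradP (d j) (mA X j) p θ u) =
      ∑ j, (Pi.single j ((C (p v) + C (θ v) * Polynomial.X) * gradP (d j) (mA X j) p θ u) :
        Fin q → M[X]) := by
    funext i
    rw [Finset.sum_apply, Finset.sum_eq_single i]
    · rw [Pi.single_eq_same]
    · intro j _ hj
      rw [Pi.single_eq_of_ne (Ne.symm hj)]
    · intro h; exact absurd (Finset.mem_univ i) h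
  rw [h1, map_add, map_smul, h2, map_sum, map_sum]
  congr 1
  refine Finset.sum_congr rfl fun j _ => ?_
  have h3 : (Pi.single j ((C (p v) + C (θ v) * Polynomial.X) * gradP (d j) (mA X j) p θ u) :
      Fin q → M[X]) =
      ∑ I ∈ expo (Fin s) (d j), (mA X j I * (I u : M)) • (Pi.single j (lmon p θ
        (I - Finsupp.single u 1 + Finsupp.single v 1)) : Fin q → M[X]) := by
    rw [← gradP_mul]
    have : ∀ f : M[X], (Pi.single j f : Fin q → M[X]) =
        LinearMap.single M (fun _ : Fin q => M[X]) j f := fun f => rfl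
    simp only [this, map_sum, map_smul]
  rw [h3, map_sum, map_sum]
  refine Finset.sum_congr rfl fun I hI => ?_
  rw [map_smul, map_smul]
  by_cases h : I u = 0
  · simp [h]
  · rw [hΨ j _ (mem_expo.mp (shift_mem hI h v))]

theorem map_leps (π : (Fin s ⊕ β → M) →ₗ[M] Q) (Ψ : (Fin q → M[X]) →ₗ[M] Q)
    (hg : Function.Injective g)
    (hΨ : ∀ j, ∀ I : Fin s →₀ ℕ, I.degree = d j →
      Ψ (Pi.single j (lmon p θ I)) = π (ldp X p g j I))
    (hε : ∀ j, π (leps X p g j) = 0) [DecidableEq β] (b' : β) :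
    Ψ (Pi.single (g b') (lineP (d (g b')) (mA X (g b')) p θ)) =
      π (Pi.single (Sum.inr b') 1) := by
  classical
  have h1 : leps X p g (g b') = (∑ I ∈ expo (Fin s) (d (g b')),
      mA X (g b') I • ldp X p g (g b') I) - (Pi.single (Sum.inr b') 1 : Fin s ⊕ β → M) := by
    rw [leps]
    congr 1
    funext i
    rcases i with k | b₁
    · simp
    · simp only [Sum.elim_inr]
      by_cases hb : b₁ = b'
      · subst hb; simp
      · rw [if_neg (fun h => hb (hg h)), Pi.single_eq_of_ne (fun h => hb (Sum.inr_injective h))]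
  have h2 := hε (g b')
  rw [h1, map_sub, map_sum, sub_eq_zero] at h2
  rw [← h2]
  have h3 : (Pi.single (g b') (lineP (d (g b')) (mA X (g b')) p θ) : Fin q → M[X]) =
      ∑ I ∈ expo (Fin s) (d (g b')), mA X (g b') I •
        (Pi.single (g b') (lmon p θ I) : Fin q → M[X]) := by
    have : ∀ f : M[X], (Pi.single (g b') f : Fin q → M[X]) =
        LinearMap.single M (fun _ : Fin q => M[X]) (g b') f := fun f => rfl
    rw [lineP]
    simp only [this, map_sum, ← smul_eq_C_mul, map_smul]
  rw [h3, map_sum]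
  refine Finset.sum_congr rfl fun I hI => ?_
  rw [map_smul, map_smul, hΨ _ _ (mem_expo.mp hI)]

theorem lpsi_grad (hpl : p l = 1) (hθl : θ l = 0) (hθb : θ b = 1)
    (π : (Fin s ⊕ β → M) →ₗ[M] Q) (Ψ : (Fin q → M[X]) →ₗ[M] Q)
    (hΨ : ∀ j, ∀ I : Fin s →₀ ℕ, I.degree = d j →
      Ψ (Pi.single j (lmon p θ I)) = π (ldp X p g j I))
    (hξ : ∀ u v, π (lxi X p g u v) = 0) (v : Fin s → M) :
    Ψ (mG d (mA X) p θ v) = - π (inj0 M s β v) ∧
      Ψ (fun j => Polynomial.X * mG d (mA X) p θ v j) = 0 := by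
  classical
  have h1 : ∀ i, Ψ (fun j => gradP (d j) (mA X j) p θ i) =
      - π (inj0 M s β (Pi.single i 1)) := by
    intro i
    have := map_lxi π Ψ hΨ i l
    rw [hξ, hpl, hθl, one_smul] at this
    simp only [C_1, C_0, zero_mul, add_zero, one_mul] at this
    rw [eq_neg_iff_add_eq_zero, add_comm]
    exact this.symm
  have h2 : ∀ i, Ψ (fun j => Polynomial.X * gradP (d j) (mA X j) p θ i) = 0 := by
    intro i
    have := map_lxi π Ψ hΨ i b
    rw [hξ, hθb] at this
    have h3 : (fun j => (C (p b) + C 1 * Polynomial.X : M[X]) * gradP (d j) (mA X j) p θ i) =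
        p b • (fun j => gradP (d j) (mA X j) p θ i) +
          fun j => Polynomial.X * gradP (d j) (mA X j) p θ i := by
      funext j
      rw [Pi.add_apply, Pi.smul_apply, smul_eq_C_mul, C_1]; ring
    rw [h3, map_add, map_smul, h1, smul_neg, ← add_assoc, add_neg_cancel, zero_add] at this
    exact this.symm
  constructor
  · have h0 : mG d (mA X) p θ v = ∑ k, v k • fun j => gradP (d j) (mA X j) p θ k := by
      funext j
      rw [mG_apply, Finset.sum_apply]
      rfl
    rw [h0, map_sum]
    simp only [map_smul, h1, smul_neg, Finset.sum_neg_distrib]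
    have h3 : v = ∑ i, v i • (Pi.single i 1 : Fin s → M) := by
      funext k
      simp [Finset.sum_apply, Pi.single_apply]
    have h4 : π (inj0 M s β v) = ∑ i, v i • π (inj0 M s β (Pi.single i 1)) := by
      conv_lhs => rw [h3]
      rw [map_sum, map_sum]
      simp only [map_smul]
    rw [h4]
  · have h0 : (fun j => Polynomial.X * mG d (mA X) p θ v j) =
        ∑ k, v k • fun j => Polynomial.X * gradP (d j) (mA X j) p θ k := by
      funext j
      rw [mG_apply, Finset.sum_apply, Finset.mul_sum]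
      refine Finset.sum_congr rfl fun k _ => ?_
      rw [Pi.smul_apply, mul_smul_comm]
    rw [h0, map_sum]
    refine Finset.sum_eq_zero fun i _ => ?_
    rw [map_smul, h2, smul_zero]

/-- a linear form killing the multiples by `X` of the image of `G`, of large rank, forces a
kernel of `G` -/
theorem lker_of_count {V : Type*} [AddCommGroup V] [Module M V] [FiniteDimensional M V]
    [FiniteDimensional M Q] {N : Fin q → ℕ} (G : V →ₗ[M] (Fin q → M[X]))
    (Ψ : (Fin q → M[X]) →ₗ[M] Q)
    (hG : ∀ v j, G v j ∈ degreeLT M (N j)) (hXG : ∀ v, Ψ (fun j => Polynomial.X * G v j) = 0)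
    (hsurj : ∀ y : Q, ∃ F : Fin q → M[X], (∀ j, F j ∈ degreeLT M (N j + 1)) ∧ Ψ F = y)
    (hc : ∑ j, (N j + 1) < Module.finrank M V + Module.finrank M Q) : ∃ v, v ≠ 0 ∧ G v = 0 := by
  have hPdim := finrank_PD (M := M) fun j => N j + 1
  let Ψ' : PD M (fun j => N j + 1) →ₗ[M] Q := Ψ ∘ₗ inclP M (fun j => N j + 1)
  have hrange : LinearMap.range Ψ' = ⊤ := by
    rw [eq_top_iff]
    rintro y -
    obtain ⟨F, hF, rfl⟩ := hsurj y
    exact ⟨fun j => ⟨F j, hF j⟩, rfl⟩
  have hrn := LinearMap.finrank_range_add_finrank_ker Ψ'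
  rw [hrange, finrank_top, hPdim] at hrn
  let μ : V →ₗ[M] LinearMap.ker Ψ' :=
    { toFun := fun v => ⟨fun j => ⟨Polynomial.X * G v j, X_mul_mem (hG v j)⟩, hXG v⟩
      map_add' := fun g h => by
        apply Subtype.ext
        funext j
        apply Subtype.ext
        show Polynomial.X * G (g + h) j = Polynomial.X * G g j + Polynomial.X * G h j
        rw [map_add, Pi.add_apply, mul_add]
      map_smul' := fun c g => by
        apply Subtype.ext
        funext j
        apply Subtype.ext
        show Polynomial.X * G (c • g) j = c • (Polynomial.X * G g j)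
        rw [map_smul, Pi.smul_apply, mul_smul_comm] }
  by_contra hcon
  push Not at hcon
  have hμ : Function.Injective μ := by
    rw [injective_iff_map_eq_zero]
    intro v hv
    by_contra hv0
    apply hcon v hv0
    funext j
    have h1 : Polynomial.X * G v j = 0 :=
      congrArg (fun y => ((y.1 j : degreeLT M (N j + 1)) : M[X])) hv
    exact (mul_eq_zero.mp h1).resolve_left X_ne_zero
  have h1 := LinearMap.finrank_le_finrank_of_injective hμ
  omega

theorem lineP_mem (d : ℕ) (a : (Fin s →₀ ℕ) → M) (p θ : Fin s → M) :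
    lineP d a p θ ∈ degreeLT M (d + 1) := by
  classical
  unfold lineP
  refine Submodule.sum_mem _ fun I hI => ?_
  rw [← smul_eq_C_mul]
  refine Submodule.smul_mem _ _ ?_
  rw [mem_degreeLT]
  by_cases h0 : lmon p θ I = 0
  · rw [h0, degree_zero]; exact WithBot.bot_lt_coe _
  · rw [degree_eq_natDegree h0]
    have h1 := natDegree_lmon p θ I
    rw [mem_expo.mp hI] at h1
    exact_mod_cast Nat.lt_succ_of_le h1

end Psi

theorem lcontact {s q : ℕ} {d : Fin q → ℕ} {γ : Type w'} {M : Type u} [Field M] [CharZero M]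
    {β : Type} [Fintype β] {X : DData (MIdx s q d) γ M} {p θ : Fin s → M} {g : β → Fin q}
    {EE : Set (Derivation ℤ M M)} {l b : Fin s} (L : LogData X p g EE) {qA r S τ : ℕ}
    (hq : qA + Fintype.card β = q)
    (hs : qA + r + 1 = s) (hS : 2 * S ≤ r + τ) (hd1 : ∀ j, 1 ≤ d j)
    (hd : ∑ j, d j + S = 2 * r + qA + 1)
    (hpl : p l = 1) (hθl : θ l = 0) (hθb : θ b = 1)
    (W : Submodule M (Fin s ⊕ β → M)) (hpW : lp d p g ∈ W) (hW : Module.finrank M W ≤ S)
    (hm : ∀ f, ∀ m : Fin s →₀ ℕ, m.degree + 1 = d f → ∀ c,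
      lzeta X p g f m l c - θ c • lzeta X p g f m l b ∈ W)
    (hξ : ∀ z ∈ lS1 X p g EE, z ∈ W)
    (hEW : ∀ E : Derivation ℤ M M, (∀ j I, E (mA X j I) = 0) → lD X p g E ∈ W)
    (Ev : Fin τ → Derivation ℤ M M) (hEv : ∀ i j I, Ev i (mA X j I) = 0)
    (hEvli : LinearIndependent M (fun i => lD X p g (Ev i))) :
    ∃ w : Fin s → M, w ≠ 0 ∧ w = w l • p + (w b - p b * w l) • θ ∧
      ∀ f, ∑ j, w j • gradP (d f) (mA X f) p θ j = 0 := by
  classical
  have he : ∀ j, (d j - 1) + 1 = d j := fun j => Nat.sub_add_cancel (hd1 j)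
  set e : Fin q → ℕ := fun j => d j - 1 with hedef
  have hnd : p l * θ b - p b * θ l ≠ 0 := by
    rw [hpl, hθb, hθl]; simp
  have hcomm : ∀ i j I J y, mD X i I (mD X j J y) = mD X j J (mD X i I y) := by
    intro i j I J y
    simp only [mD]
    split_ifs
    · exact X.hcomm _ _ _
    · simp
    · simp
    · simp
  let π := W.mkQ
  have hπ0 : ∀ v, π v = 0 ↔ v ∈ W := by
    intro v
    rw [Submodule.mkQ_apply, Submodule.Quotient.mk_eq_zero]
  have hQ : Module.finrank M ((Fin s ⊕ β → M) ⧸ W) + Module.finrank M W =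
      s + Fintype.card β := by
    have := Submodule.finrank_quotient_add_finrank W
    rwa [Module.finrank_fintype_fun_eq_card, Fintype.card_sum, Fintype.card_fin] at this
  let A : Fin q → (Fin s →₀ ℕ) → (Fin s ⊕ β → M) := fun f I => ldp X p g f I
  have hDmcW : ∀ f, ∀ m : Fin s →₀ ℕ, m.degree = e f → ∀ c,
      lD X p g (Dmc (mD X f) p θ l b m c) ∈ W := by
    intro f m hme c
    rw [lD_Dmc_zeta hpl]
    exact hm f m (by rw [hme, he]) c
  obtain ⟨Ψ, hΨ'⟩ := mexists_Psi (e := e) (fun f I => π (A f I)) hpl hθl hθb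
    (fun f m => π (A f (m + Finsupp.single b 1)) - p b • π (A f (m + Finsupp.single l 1))) (by
      intro f m hme c
      have h1 := (hπ0 _).mpr (hDmcW f m hme c)
      rw [lD_Dmc, map_sub, map_sub, map_smul, map_smul, map_sub, map_smul, sub_sub,
        sub_eq_zero] at h1
      exact h1)
  have hΨ : ∀ f, ∀ I : Fin s →₀ ℕ, I.degree = d f →
      Ψ (Pi.single f (lmon p θ I)) = π (A f I) := by
    intro f I hI
    exact hΨ' f I (by rw [hI, he])
  have hG := lpsi_grad hpl hθl hθb π Ψ hΨ (fun i j => (hπ0 _).mpr (hξ _ (Or.inl ⟨i, j, rfl⟩)))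
  have hF := map_leps π Ψ L.hg hΨ (fun j => (hπ0 _).mpr (hξ _ (Or.inr (Or.inl ⟨j, rfl⟩))))
  set G := mG d (mA X) p θ with hGdef
  -- every element of the quotient comes from small polynomials
  have hsurj : ∀ y : (Fin s ⊕ β → M) ⧸ W, ∃ F : Fin q → M[X],
      (∀ j, F j ∈ degreeLT M (d j + 1)) ∧ Ψ F = y := by
    intro y
    obtain ⟨v, rfl⟩ := Submodule.mkQ_surjective W y
    refine ⟨G (-(fun k => v (Sum.inl k))) + ∑ b', v (Sum.inr b') •
      (Pi.single (g b') (lineP (d (g b')) (mA X (g b')) p θ) : Fin q → M[X]), fun j => ?_, ?_⟩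
    · rw [Pi.add_apply, Finset.sum_apply]
      refine add_mem (degreeLT_mono (Nat.le_succ _) (mG_mem _ j)) ?_
      refine Submodule.sum_mem _ fun b' _ => ?_
      rw [Pi.smul_apply]
      refine Submodule.smul_mem _ _ ?_
      by_cases hj : j = g b'
      · subst hj
        rw [Pi.single_eq_same]
        exact lineP_mem _ _ _ _
      · rw [Pi.single_eq_of_ne hj]
        exact zero_mem _
    · rw [map_add, (hG _).1, map_sum]
      simp only [map_smul, hF]
      have h1 : v = inj0 M s β (fun k => v (Sum.inl k)) +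
          ∑ b', v (Sum.inr b') • (Pi.single (Sum.inr b') 1 : Fin s ⊕ β → M) := by
        funext i
        rcases i with k | b₁
        · rw [Pi.add_apply, Finset.sum_apply, Finset.sum_eq_zero]
          · simp
          · intro b' _
            simp
        · rw [Pi.add_apply, Finset.sum_apply, Finset.sum_eq_single b₁]
          · simp
          · intro b' _ hb'
            rw [Pi.smul_apply, Pi.single_eq_of_ne (fun h => hb' (Sum.inr_injective h).symm),
              smul_zero]
          · intro h; exact absurd (Finset.mem_univ _) h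
      have h2 : W.mkQ v = π (inj0 M s β (fun k => v (Sum.inl k))) +
          ∑ b', v (Sum.inr b') • π (Pi.single (Sum.inr b') 1 : Fin s ⊕ β → M) := by
        show π v = _
        conv_lhs => rw [h1]
        rw [map_add, map_sum]
        simp only [map_smul]
      rw [h2, map_neg, map_neg, neg_neg]
  -- the kernel
  have hsd : ∑ j, (d j + 1) = ∑ j, d j + q := by
    rw [Finset.sum_add_distrib]; simp
  obtain ⟨w, hw0, hGw⟩ := lker_of_count (N := d) G Ψ (fun v j => mG_mem v j)
    (fun v => (hG v).2) hsurj (by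
      rw [Module.finrank_fin_fun, hsd]; omega)
  have hGdim : Module.finrank M (LinearMap.range G) + 1 ≤ s := by
    have h1 := LinearMap.finrank_range_add_finrank_ker G
    rw [Module.finrank_fin_fun] at h1
    have h2 : 0 < Module.finrank M (LinearMap.ker G) := by
      rw [Module.finrank_pos_iff_exists_ne_zero]
      exact ⟨⟨w, hGw⟩, fun h => hw0 (congrArg Subtype.val h)⟩
    omega
  refine ⟨w, hw0, ?_, fun f => by rw [← mG_apply, ← hGdef, hGw]; rfl⟩
  by_contra hwne
  -- the part of `W` where the coordinate `l` vanishes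
  let Wl : Submodule M (Fin s ⊕ β → M) := W ⊓ LinearMap.ker (LinearMap.proj (Sum.inl l))
  have hWl : ∀ y, y ∈ Wl ↔ y ∈ W ∧ y (Sum.inl l) = 0 := by
    intro y
    rw [Submodule.mem_inf, LinearMap.mem_ker]
    rfl
  have hWlW : Wl ≤ W := inf_le_left
  have hWldim : Module.finrank M Wl + 1 ≤ Module.finrank M W := by
    refine Submodule.finrank_lt_finrank_of_lt (lt_of_le_of_ne hWlW ?_)
    intro h
    have h1 : lp d p g ∈ Wl := by rw [h]; exact hpW
    have h2 := ((hWl _).mp h1).2
    simp only [lp, Sum.elim_inl] at h2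
    rw [hpl] at h2
    exact one_ne_zero h2
  have hDl : ∀ f, ∀ m : Fin s →₀ ℕ, m.degree = e f → ∀ j,
      lD X p g (Dmc (mD X f) p θ l b m j) ∈ Wl := by
    intro f m hme j
    rw [hWl]
    refine ⟨hDmcW f m hme j, ?_⟩
    show Dmc (mD X f) p θ l b m j (p l) = 0
    rw [hpl]
    exact Derivation.map_one_eq_zero _
  have hEvWl : ∀ i, lD X p g (Ev i) ∈ Wl := by
    intro i
    rw [hWl]
    refine ⟨hEW _ (hEv i), ?_⟩
    show Ev i (p l) = 0
    rw [hpl]
    exact Derivation.map_one_eq_zero _
  have hτ : τ ≤ Module.finrank M Wl := by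
    have h1 := finrank_span_eq_card hEvli
    rw [Fintype.card_fin] at h1
    rw [← h1]
    refine Submodule.finrank_mono ?_
    rw [Submodule.span_le]
    rintro _ ⟨i, rfl⟩
    exact hEvWl i
  obtain ⟨h, hh⟩ : ∃ h, Module.finrank M Wl = τ + h := ⟨Module.finrank M Wl - τ, by omega⟩
  obtain ⟨u2, hu2, huli⟩ := exists_extension (M := M) (k := τ) (r := h) Wl hh
    (fun i => lD X p g (Ev i)) hEvli hEvWl (Wl : Set (Fin s ⊕ β → M)) (fun z hz => hz)
    (fun z hz => Submodule.subset_span (Or.inr hz))
  let u : Fin τ ⊕ Fin h → Fin s ⊕ β → M := Sum.elim (fun i => lD X p g (Ev i)) u2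
  have huWl : ∀ i, u i ∈ Wl := by
    rintro (i | i)
    · exact hEvWl i
    · exact hu2 i
  have huspan : Submodule.span M (Set.range u) = Wl := by
    apply Submodule.eq_of_le_of_finrank_le
    · rw [Submodule.span_le]
      rintro _ ⟨i, rfl⟩
      exact huWl i
    · rw [finrank_span_eq_card (b := u) huli, hh, Fintype.card_sum, Fintype.card_fin,
        Fintype.card_fin]
  have huW : ∀ i, u i ∈ W := fun i => hWlW (huWl i)
  have hχ : ∀ x : Fin q × (Fin s →₀ ℕ), ∀ j, x.2.degree = e x.1 → ∃ χ : Fin τ ⊕ Fin h → M,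
      lD X p g (Dmc (mD X x.1) p θ l b x.2 j) = ∑ i, χ i • u i := by
    rintro ⟨f, m⟩ j hme
    have h1 := hDl f m hme j
    rw [← huspan] at h1
    obtain ⟨χ, hχ⟩ := (Submodule.mem_span_range_iff_exists_fun M).mp h1
    exact ⟨χ, hχ.symm⟩
  choose! χ hχ using hχ
  -- a linear form vanishing on the line but not at `w`
  obtain ⟨c, hc⟩ : ∃ c, w c - p c * w l - θ c * (w b - p b * w l) ≠ 0 := by
    by_contra hcon
    push Not at hcon
    apply hwne
    funext k
    have := hcon k
    simp only [Pi.add_apply, Pi.smul_apply, smul_eq_mul]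
    linear_combination this
  set lam := w c - p c * w l - θ c * (w b - p b * w l) with hlam
  -- a basis of the derivatives with index `c`
  let T : Set (Fin s ⊕ β → M) := {z | ∃ x : Fin q × (Fin s →₀ ℕ), x.2.degree = e x.1 ∧
    z = lD X p g (Dmc (mD X x.1) p θ l b x.2 c)}
  let T' : Submodule M (Fin s ⊕ β → M) :=
    Submodule.span M (Set.range (fun i => lD X p g (Ev i)) ∪ T)
  have hTW : T' ≤ Wl := by
    rw [Submodule.span_le]
    rintro _ (⟨i, rfl⟩ | ⟨x, hme, rfl⟩)
    · exact hEvWl i
    · exact hDl x.1 x.2 hme c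
  have hTdim : Module.finrank M T' ≤ τ + h := by
    rw [← hh]
    exact Submodule.finrank_mono hTW
  have hτT : τ ≤ Module.finrank M T' := by
    have h1 := finrank_span_eq_card hEvli
    rw [Fintype.card_fin] at h1
    rw [← h1]
    exact Submodule.finrank_mono (Submodule.span_mono Set.subset_union_left)
  obtain ⟨h', hh'⟩ : ∃ h', Module.finrank M T' = τ + h' :=
    ⟨Module.finrank M T' - τ, by omega⟩
  obtain ⟨Z, hZT, hZli⟩ := exists_extension (M := M) (k := τ) (r := h') T' hh'
    (fun i => lD X p g (Ev i)) hEvli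
    (fun i => Submodule.subset_span (Or.inl ⟨i, rfl⟩))
    T (fun z hz => Submodule.subset_span (Or.inr hz)) le_rfl
  have hZspan : Submodule.span M (Set.range (Sum.elim (fun i => lD X p g (Ev i)) Z)) = T' := by
    apply Submodule.eq_of_le_of_finrank_le
    · rw [Submodule.span_le]
      rintro _ ⟨i | i, rfl⟩
      · exact Submodule.subset_span (Or.inl ⟨i, rfl⟩)
      · exact Submodule.subset_span (Or.inr (hZT i))
    · rw [finrank_span_eq_card hZli, hh', Fintype.card_sum, Fintype.card_fin, Fintype.card_fin]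
  choose μ hμ hZμ using hZT
  have ht : ∀ x : Fin q × (Fin s →₀ ℕ), x.2.degree = e x.1 → ∃ t : Fin τ ⊕ Fin h' → M,
      lD X p g (Dmc (mD X x.1) p θ l b x.2 c) =
        ∑ i, t (Sum.inl i) • lD X p g (Ev i) +
        ∑ i, t (Sum.inr i) • lD X p g (Dmc (mD X (μ i).1) p θ l b (μ i).2 c) := by
    intro x hme
    have h1 : lD X p g (Dmc (mD X x.1) p θ l b x.2 c) ∈
        Submodule.span M (Set.range (Sum.elim (fun i => lD X p g (Ev i)) Z)) := by
      rw [hZspan]
      exact Submodule.subset_span (Or.inr ⟨x, hme, rfl⟩)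
    obtain ⟨t, ht⟩ := (Submodule.mem_span_range_iff_exists_fun M).mp h1
    refine ⟨t, ?_⟩
    rw [← ht, Fintype.sum_sum_type]
    congr 1
    refine Finset.sum_congr rfl fun i _ => ?_
    rw [Sum.elim_inr, hZμ i]
  choose! t ht using ht
  let E' : Fin q × (Fin s →₀ ℕ) → Derivation ℤ M M := fun x => ∑ i, t x (Sum.inl i) • Ev i
  have hE'a : ∀ x y, E' x y = ∑ i, t x (Sum.inl i) * Ev i y := by
    intro x y
    show (∑ i, t x (Sum.inl i) • Ev i) y = _
    rw [← Derivation.coeFnAddMonoidHom_apply, map_sum, Finset.sum_apply]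
    rfl
  have hE'k : ∀ x j I, E' x (mA X j I) = 0 := by
    intro x j I
    rw [hE'a]
    exact Finset.sum_eq_zero fun i _ => by rw [hEv, mul_zero]
  have hE'lD : ∀ x, lD X p g (E' x) = ∑ i, t x (Sum.inl i) • lD X p g (Ev i) := by
    intro x
    funext k
    rw [Finset.sum_apply, lD_apply, hE'a, Finset.sum_div]
    refine Finset.sum_congr rfl fun i _ => ?_
    rw [Pi.smul_apply, smul_eq_mul, lD_apply, mul_div_assoc]
  -- commutators with derivations which kill the coefficients
  have hmDa : ∀ f I j J, ∃ n : ℕ, mD X f I (mA X j J) = (n : M) := by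
    intro f I j J
    by_cases hI : I ∈ expo (Fin s) (d f)
    · by_cases hJ : J ∈ expo (Fin s) (d j)
      · rw [m_hD X f j I hI J hJ]
        split_ifs
        · exact ⟨1, by simp⟩
        · exact ⟨0, by simp⟩
      · refine ⟨0, ?_⟩
        simp [mA, hJ]
    · refine ⟨0, ?_⟩
      simp [mD, hI]
  have hGck : ∀ E : Derivation ℤ M M, (∀ j I, E (mA X j I) = 0) → ∀ f m j i I,
      Gc (mD X f) p θ l b m j E (mA X i I) = 0 := by
    intro E hE f m j i I
    have h1 : ∀ J, E (mD X f J (mA X i I)) - mD X f J (E (mA X i I)) = 0 := by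
      intro J
      obtain ⟨n, hn⟩ := hmDa f J i I
      rw [hn, hE, Derivation.map_natCast, map_zero, sub_zero]
    rw [Gc_apply, h1, h1, h1]
    ring
  let ν : Fin q × (Fin s →₀ ℕ) → Option (Fin h') → Fin q × (Fin s →₀ ℕ) := fun x o => o.elim x μ
  let sc : Fin q × (Fin s →₀ ℕ) → Option (Fin h') → M :=
    fun x o => o.elim 1 (fun i => - t x (Sum.inr i))
  have hνdeg : ∀ x : Fin q × (Fin s →₀ ℕ), x.2.degree = e x.1 → ∀ o,
      (ν x o).2.degree = e (ν x o).1 := by
    rintro x hme (_ | i)
    · exact hme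
    · exact hμ i
  have hElD : ∀ x : Fin q × (Fin s →₀ ℕ), x.2.degree = e x.1 →
      lD X p g (Em (mD X) p θ l b c (sc x) (ν x) - E' x) = 0 := by
    intro x hme
    have h0 : lD X p g (Em (mD X) p θ l b c (sc x) (ν x) - E' x) =
        lD X p g (Em (mD X) p θ l b c (sc x) (ν x)) - lD X p g (E' x) := by
      funext k
      rw [Pi.sub_apply, lD_apply, lD_apply, lD_apply, Derivation.sub_apply, sub_div]
    rw [h0, lD_Em, Fintype.sum_option, hE'lD]
    show (1 : M) • lD X p g (Dmc (mD X x.1) p θ l b x.2 c) +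
      ∑ i, (- t x (Sum.inr i)) • lD X p g (Dmc (mD X (μ i).1) p θ l b (μ i).2 c) - _ = 0
    have h1 : ∑ i, (- t x (Sum.inr i)) • lD X p g (Dmc (mD X (μ i).1) p θ l b (μ i).2 c) =
        - ∑ i, t x (Sum.inr i) • lD X p g (Dmc (mD X (μ i).1) p θ l b (μ i).2 c) := by
      rw [← Finset.sum_neg_distrib]
      exact Finset.sum_congr rfl fun i _ => by rw [neg_smul]
    rw [one_smul, ht x hme, h1]
    abel
  have hEp : ∀ x : Fin q × (Fin s →₀ ℕ), x.2.degree = e x.1 → ∀ k,
      (Em (mD X) p θ l b c (sc x) (ν x) - E' x) (p k) = 0 := by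
    intro x hme k
    exact congrFun (hElD x hme) (Sum.inl k)
  have hEz : ∀ x : Fin q × (Fin s →₀ ℕ), x.2.degree = e x.1 → ∀ b',
      (Em (mD X) p θ l b c (sc x) (ν x) - E' x) (zv X p (g b')) = 0 := by
    intro x hme b'
    have h1 : (Em (mD X) p θ l b c (sc x) (ν x) - E' x) (zv X p (g b')) / zv X p (g b') = 0 :=
      congrFun (hElD x hme) (Sum.inr b')
    exact (div_eq_zero_iff.mp h1).resolve_right (L.hz b')
  have hEy : ∀ x : Fin q × (Fin s →₀ ℕ), x.2.degree = e x.1 → ∀ i,
      (Em (mD X) p θ l b c (sc x) (ν x) - E' x) (yv X p g i) = 0 := by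
    rintro x hme (k | b')
    · exact hEp x hme k
    · exact hEz x hme b'
  -- images of the derivatives in the quotient
  have hΨl : ∀ x : Fin q × (Fin s →₀ ℕ), x.2.degree = e x.1 →
      π (A x.1 (x.2 + Finsupp.single l 1)) = Ψ (Pi.single x.1 (lmon p θ x.2)) := by
    intro x hme
    have := hΨ x.1 (x.2 + Finsupp.single l 1) (by
      rw [map_add, Finsupp.degree_single, hme, ← he x.1])
    rw [← this, lmon_add, lmon_single, hpl, hθl]
    simp
  have hΨb : ∀ x : Fin q × (Fin s →₀ ℕ), x.2.degree = e x.1 →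
      π (A x.1 (x.2 + Finsupp.single b 1) - p b • A x.1 (x.2 + Finsupp.single l 1)) =
        Ψ (Pi.single x.1 (Polynomial.X * lmon p θ x.2)) := by
    intro x hme
    have h1 := hΨ x.1 (x.2 + Finsupp.single b 1) (by
      rw [map_add, Finsupp.degree_single, hme, ← he x.1])
    rw [map_sub, map_smul, hΨl x hme]
    show π (A x.1 (x.2 + Finsupp.single b 1)) - _ = _
    rw [← h1, lmon_add, lmon_single, hθb, ← map_smul, ← map_sub, ← Pi.single_smul,
      ← Pi.single_sub]
    congr 2
    rw [smul_eq_C_mul, C_1]; ring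
  -- the derivation `E` kills the line
  have hE : ∀ x : Fin q × (Fin s →₀ ℕ), x.2.degree = e x.1 → ∀ j,
      (Em (mD X) p θ l b c (sc x) (ν x) - E' x) (θ j) = 0 := by
    intro x hme j
    by_contra hEθ
    have hp := hEp x hme
    have hEd := Em_Dmc_gen (l := l) (b := b) (p := p) (θ := θ) hcomm c (sc x) (ν x) (E' x) hp
    have hcext : ∀ i y, Em (mD X) p θ l b c (sc x) (ν x) (Ev i y) -
        Ev i (Em (mD X) p θ l b c (sc x) (ν x) y) = _ :=
      fun i y => Em_comm_ext (l := l) (b := b) (p := p) (θ := θ) c (sc x) (ν x) (Ev i) y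
    have hEyx := hEy x hme
    have hEzx := hEz x hme
    set Em0 := Em (mD X) p θ l b c (sc x) (ν x) with hEm0
    set E := Em0 - E' x with hEdef
    let y₁ := ∑ o, sc x o • Ψ (Pi.single (ν x o).1 (lmon p θ (ν x o).2))
    let y₂ := ∑ o, sc x o • Ψ (Pi.single (ν x o).1 (Polynomial.X * lmon p θ (ν x o).2))
    let lu : Fin τ ⊕ Fin h → M := fun i => u i (Sum.inl c) - θ c * u i (Sum.inl b)
    let qv : Fin τ ⊕ Fin h → _ := fun i => lu i • y₁ - π (fun k => E (u i k))
    have hπA1 : ∀ o, π (A (ν x o).1 ((ν x o).2 + Finsupp.single l 1)) =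
        Ψ (Pi.single (ν x o).1 (lmon p θ (ν x o).2)) := fun o => hΨl _ (hνdeg x hme o)
    have hπA2 : ∀ o, π (A (ν x o).1 ((ν x o).2 + Finsupp.single b 1)) -
        p b • Ψ (Pi.single (ν x o).1 (lmon p θ (ν x o).2)) =
        Ψ (Pi.single (ν x o).1 (Polynomial.X * lmon p θ (ν x o).2)) := by
      intro o
      rw [← hΨb _ (hνdeg x hme o), map_sub, map_smul, hΨl _ (hνdeg x hme o)]
    have hπm : ∀ o, π (lD X p g (Dmc (mD X (ν x o).1) p θ l b (ν x o).2 c)) = 0 := fun o =>
      (hπ0 _).mpr (hDmcW _ _ (hνdeg x hme o) c)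
    -- the first vectors `u i`
    have hqv1 : ∀ i : Fin τ, qv (Sum.inl i) = - (Ev i (θ c)) • y₂ := by
      intro i
      have h1 : (fun k => E (u (Sum.inl i) k)) =
          - ∑ o, Ev i (sc x o) • lD X p g (Dmc (mD X (ν x o).1) p θ l b (ν x o).2 c) +
          lu (Sum.inl i) • ∑ o, sc x o • A (ν x o).1 ((ν x o).2 + Finsupp.single l 1) +
          Ev i (θ c) • ∑ o, sc x o •
            (A (ν x o).1 ((ν x o).2 + Finsupp.single b 1) -
              p b • A (ν x o).1 ((ν x o).2 + Finsupp.single l 1)) -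
          ∑ o, sc x o • lD X p g (Gc (mD X (ν x o).1) p θ l b (ν x o).2 c (Ev i)) -
          lD X p g ⁅E' x, Ev i⁆ := by
        funext k
        have hyk : E (yv X p g k) = 0 := hEyx k
        have h2 : E (lD X p g (Ev i) k) = E (Ev i (yv X p g k)) / zz X p g k :=
          E_lD E _ hEzx k
        have h3 : E (Ev i (yv X p g k)) = (Em0 (Ev i (yv X p g k)) - Ev i (Em0 (yv X p g k))) -
            (E' x (Ev i (yv X p g k)) - Ev i (E' x (yv X p g k))) := by
          have h4 : Ev i (Em0 (yv X p g k)) = Ev i (E' x (yv X p g k)) := by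
            rw [hEdef, Derivation.sub_apply, sub_eq_zero] at hyk
            rw [hyk]
          rw [hEdef, Derivation.sub_apply, h4]
          ring
        show E (lD X p g (Ev i) k) = _
        have hlu : lu (Sum.inl i) = Ev i (p c) - θ c * Ev i (p b) := rfl
        rw [h2, h3, hcext, hlu]
        simp only [A, ldp, Pi.sub_apply, Pi.add_apply, Pi.neg_apply, Pi.smul_apply, smul_eq_mul,
          Finset.sum_apply, lD_apply, sub_div, add_div, neg_div, Finset.sum_div, mul_div_assoc,
          Derivation.commutator_apply]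
      have hG0 : ∀ o, π (lD X p g (Gc (mD X (ν x o).1) p θ l b (ν x o).2 c (Ev i))) = 0 :=
        fun o => (hπ0 _).mpr (hEW _ (hGck _ (hEv i) _ _ _))
      have hC0 : π (lD X p g ⁅E' x, Ev i⁆) = 0 := by
        refine (hπ0 _).mpr (hEW _ fun j I => ?_)
        rw [Derivation.commutator_apply, hEv, hE'k, map_zero, map_zero, sub_zero]
      show lu (Sum.inl i) • y₁ - π (fun k => E (u (Sum.inl i) k)) = _
      rw [h1]
      simp only [map_add, map_sub, map_neg, map_sum, map_smul, hπm, hG0, hC0, smul_zero,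
        Finset.sum_const_zero, neg_zero, zero_add, sub_zero, hπA1]
      have h5 : ∀ o, π (A (ν x o).1 ((ν x o).2 + Finsupp.single b 1)) -
        p b • Ψ (Pi.single (ν x o).1 (lmon p θ (ν x o).2)) =
        Ψ (Pi.single (ν x o).1 (Polynomial.X * lmon p θ (ν x o).2)) := hπA2
      simp only [h5]
      show lu (Sum.inl i) • y₁ - (lu (Sum.inl i) • y₁ + Ev i (θ c) • y₂) = _
      rw [neg_smul]
      abel
    have key : ∀ x' : Fin q × (Fin s →₀ ℕ), x'.2.degree = e x'.1 →
        E (θ j) • Ψ (Pi.single x'.1 (Polynomial.X * lmon p θ x'.2)) =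
          ∑ i, χ x' j i • qv i + Dmc (mD X x'.1) p θ l b x'.2 j (θ c) • y₂ := by
      intro x' hm'
      -- the two expressions of `E (Dmc m' j p)`
      have h1 : (fun k => E (lD X p g (Dmc (mD X x'.1) p θ l b x'.2 j) k)) =
          ∑ i, (E (χ x' j i) • u i + χ x' j i • (fun k => E (u i k))) := by
        funext k
        rw [hχ x' j hm', Finset.sum_apply, map_sum, Finset.sum_apply]
        refine Finset.sum_congr rfl fun i _ => ?_
        rw [Pi.smul_apply, smul_eq_mul, Derivation.leibniz]
        simp only [Pi.add_apply, Pi.smul_apply, smul_eq_mul]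
        ring
      have hlamχ : Dmc (mD X x'.1) p θ l b x'.2 j (p c) -
          θ c * Dmc (mD X x'.1) p θ l b x'.2 j (p b) = ∑ i, χ x' j i * lu i := by
        have h2 := congrFun (hχ x' j hm') (Sum.inl c)
        have h3 := congrFun (hχ x' j hm') (Sum.inl b)
        rw [Finset.sum_apply] at h2 h3
        have h2' : Dmc (mD X x'.1) p θ l b x'.2 j (p c) =
          ∑ i, (χ x' j i • u i) (Sum.inl c) := h2
        have h3' : Dmc (mD X x'.1) p θ l b x'.2 j (p b) =
          ∑ i, (χ x' j i • u i) (Sum.inl b) := h3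
        rw [h2', h3', Finset.mul_sum, ← Finset.sum_sub_distrib]
        exact Finset.sum_congr rfl fun i _ => by
          simp only [lu, Pi.smul_apply, smul_eq_mul]; ring
      have h2 : (fun k => E (lD X p g (Dmc (mD X x'.1) p θ l b x'.2 j) k)) =
          - ∑ o, Dmc (mD X x'.1) p θ l b x'.2 j (sc x o) •
            lD X p g (Dmc (mD X (ν x o).1) p θ l b (ν x o).2 c) +
          (∑ i, χ x' j i * lu i) • ∑ o, sc x o • A (ν x o).1 ((ν x o).2 + Finsupp.single l 1) +
          (Dmc (mD X x'.1) p θ l b x'.2 j (θ c)) • ∑ o, sc x o •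
            (A (ν x o).1 ((ν x o).2 + Finsupp.single b 1) -
              p b • A (ν x o).1 ((ν x o).2 + Finsupp.single l 1)) -
          E (θ j) • (A x'.1 (x'.2 + Finsupp.single b 1) -
            p b • A x'.1 (x'.2 + Finsupp.single l 1)) -
          lD X p g (Gc (mD X x'.1) p θ l b x'.2 j (E' x)) := by
        funext k
        rw [E_lD E _ hEzx k, hEd x'.1 x'.2 j _ (hEyx k), hlamχ]
        simp only [A, ldp, Pi.sub_apply, Pi.add_apply, Pi.neg_apply, Pi.smul_apply, smul_eq_mul,
          Finset.sum_apply, lD_apply, sub_div, add_div, neg_div, Finset.sum_div, mul_div_assoc]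
      have h3 := congrArg π (h1.symm.trans h2)
      have hu0 : ∀ i, π (u i) = 0 := fun i => (hπ0 _).mpr (huW i)
      have hG0 : π (lD X p g (Gc (mD X x'.1) p θ l b x'.2 j (E' x))) = 0 :=
        (hπ0 _).mpr (hEW _ (hGck _ (hE'k x) _ _ _))
      simp only [map_add, map_sub, map_neg, map_sum, map_smul, hu0, hπm, hG0, smul_zero, zero_add,
        Finset.sum_const_zero, neg_zero, sub_zero] at h3
      have e1 := hπA1
      have e2 := hπA2
      have e3 : π (A x'.1 (x'.2 + Finsupp.single b 1)) -
          p b • Ψ (Pi.single x'.1 (lmon p θ x'.2)) =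
          Ψ (Pi.single x'.1 (Polynomial.X * lmon p θ x'.2)) := by
        rw [← hΨb _ hm', map_sub, map_smul, hΨl _ hm']
      simp only [e1, e2, hΨl x' hm', e3] at h3
      have h4 : ∑ i, χ x' j i • qv i = (∑ i, χ x' j i * lu i) • y₁ -
          ∑ i, χ x' j i • π (fun k => E (u i k)) := by
        simp only [qv, smul_sub, Finset.sum_sub_distrib, smul_smul, Finset.sum_smul]
      rw [h4, h3]
      simp only [y₁, y₂]
      abel
    -- all of `Q` is in the span of few vectors
    let V : Set ((Fin s ⊕ β → M) ⧸ W) := (Set.range fun f : Fin q => Ψ (Pi.single f 1)) ∪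
      insert y₂ (Set.range fun i : Fin h => qv (Sum.inr i))
    have hy₂ : y₂ ∈ Submodule.span M V := Submodule.subset_span (Or.inr (Or.inl rfl))
    have hqvV : ∀ i, qv i ∈ Submodule.span M V := by
      rintro (i | i)
      · rw [hqv1, neg_smul, ← smul_neg]
        exact Submodule.smul_mem _ _ (neg_mem hy₂)
      · exact Submodule.subset_span (Or.inr (Or.inr ⟨i, rfl⟩))
    have hSp : ∀ f, ∀ g' ∈ degreeLT M (e f + 1),
        Ψ (Pi.single f (Polynomial.X * g')) ∈ Submodule.span M V := by
      intro f g₁ hg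
      have hg' := degreeLT_le_lspan hnd (e f) hg
      rw [lspan] at hg'
      clear hg
      induction hg' using Submodule.span_induction with
      | mem g₁ hg =>
        obtain ⟨m', hm', rfl⟩ := hg
        have h1 : Ψ (Pi.single f (Polynomial.X * lmon p θ m')) =
            (E (θ j))⁻¹ • (E (θ j) • Ψ (Pi.single f (Polynomial.X * lmon p θ m'))) := by
          rw [smul_smul, inv_mul_cancel₀ hEθ, one_smul]
        rw [h1, key (f, m') hm']
        exact Submodule.smul_mem _ _ (add_mem (Submodule.sum_mem _ fun i _ =>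
          Submodule.smul_mem _ _ (hqvV i)) (Submodule.smul_mem _ _ hy₂))
      | zero => rw [mul_zero, Pi.single_zero, map_zero]; exact zero_mem _
      | add g₁ g₂ _ _ hg hg' =>
        rw [mul_add, Pi.single_add, map_add]; exact add_mem hg hg'
      | smul s g₁ _ hg =>
        rw [mul_smul_comm, Pi.single_smul, map_smul]; exact Submodule.smul_mem _ _ hg
    have htop : (⊤ : Submodule M ((Fin s ⊕ β → M) ⧸ W)) ≤ Submodule.span M V := by
      rintro y -
      obtain ⟨F, hFd, rfl⟩ := hsurj y
      rw [← Finset.univ_sum_single F, map_sum]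
      refine Submodule.sum_mem _ fun f _ => ?_
      have h2 := hFd f
      have h3 := divX_mul_X_add (F f)
      rw [← h3, Pi.single_add, map_add]
      refine add_mem ?_ ?_
      · rw [mul_comm]
        apply hSp
        rw [mem_degreeLT, degree_lt_iff_coeff_zero] at h2 ⊢
        intro n hn
        rw [coeff_divX]
        have := he f
        exact h2 (n + 1) (by
          have : e f + 1 = d f := he f
          omega)
      · have : C ((F f).coeff 0) = (F f).coeff 0 • (1 : M[X]) := by
          rw [smul_eq_C_mul, mul_one]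
        rw [this, Pi.single_smul, map_smul]
        exact Submodule.smul_mem _ _ (Submodule.subset_span (Or.inl ⟨f, rfl⟩))
    have h1 := Submodule.finrank_mono htop
    rw [finrank_top] at h1
    have h2 : Module.finrank M (Submodule.span M V) ≤ q + (h + 1) := by
      have h3 := finrank_span_finset_le_card (R := M)
        ((Finset.univ.image fun f : Fin q => Ψ (Pi.single f 1)) ∪
          insert y₂ (Finset.univ.image fun i : Fin h => qv (Sum.inr i)))
      have h4 : (((Finset.univ.image fun f : Fin q => Ψ (Pi.single f 1)) ∪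
          insert y₂ (Finset.univ.image fun i : Fin h => qv (Sum.inr i)) : Finset _) :
            Set _) = V := by
        simp [V]
      have h5 : ((Finset.univ.image fun f : Fin q => Ψ (Pi.single f 1)) ∪
          insert y₂ (Finset.univ.image fun i : Fin h => qv (Sum.inr i))).card ≤ q + (h + 1) := by
        refine (Finset.card_union_le _ _).trans ?_
        refine Nat.add_le_add ?_ ?_
        · refine Finset.card_image_le.trans ?_
          simp
        · refine (Finset.card_insert_le _ _).trans ?_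
          refine Nat.succ_le_succ (Finset.card_image_le.trans ?_)
          simp
      rw [Set.finrank, h4] at h3
      exact h3.trans h5
    omega
  -- conclusion
  have hfin : ∀ x : Fin q × (Fin s →₀ ℕ), x.2.degree = e x.1 →
      (Pi.single x.1 (lmon p θ x.2) : Fin q → M[X]) ∈ LinearMap.range G ⊔
        Submodule.span M (Set.range fun i =>
          (Pi.single (μ i).1 (lmon p θ (μ i).2) : Fin q → M[X])) := by
    intro x hme
    have h1 := mrel_of_E (l := l) (b := b) (a := mA X) (D := mD X) (d := d) (θ := θ) (m_hD X)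
      hpl hθl hθb w hGw c (sc x) (ν x)
      (fun o => by rw [hνdeg x hme o]; exact he _)
      (Em (mD X) p θ l b c (sc x) (ν x) - E' x)
      (fun f I => by rw [Derivation.sub_apply, hE'k, sub_zero]) (hEp x hme) (hE x hme)
    set E := Em (mD X) p θ l b c (sc x) (ν x) - E' x with hEdef
    rw [← hlam, Fintype.sum_option] at h1
    have h2 : (Pi.single x.1 (lmon p θ x.2) : Fin q → M[X]) =
        G (-(lam⁻¹ • fun j => E (w j))) +
        ∑ i, t x (Sum.inr i) • (Pi.single (μ i).1 (lmon p θ (μ i).2) : Fin q → M[X]) := by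
      have h3 : G (-(lam⁻¹ • fun j => E (w j))) = lam⁻¹ • (- G (fun j => E (w j))) := by
        rw [map_neg, map_smul, smul_neg]
      have h5 : ∑ i, sc x (some i) • (Pi.single (ν x (some i)).1 (lmon p θ (ν x (some i)).2) :
          Fin q → M[X]) =
          - ∑ i, t x (Sum.inr i) • (Pi.single (μ i).1 (lmon p θ (μ i).2) : Fin q → M[X]) := by
        rw [← Finset.sum_neg_distrib]
        refine Finset.sum_congr rfl fun i _ => ?_
        show (- t x (Sum.inr i)) • _ = _
        rw [neg_smul]
        rfl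
      have h6 : sc x none • (Pi.single (ν x none).1 (lmon p θ (ν x none).2) : Fin q → M[X]) =
          Pi.single x.1 (lmon p θ x.2) := by
        show (1 : M) • _ = _
        rw [one_smul]
        rfl
      rw [h3, ← h1, h5, h6, smul_smul, inv_mul_cancel₀ hc, one_smul]
      abel
    rw [h2]
    exact add_mem (Submodule.mem_sup_left ⟨_, rfl⟩) (Submodule.mem_sup_right
      (Submodule.sum_mem _ fun i _ => Submodule.smul_mem _ _ (Submodule.subset_span ⟨i, rfl⟩)))
  have hle : LinearMap.range (inclP M d) ≤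
      LinearMap.range G ⊔ Submodule.span M (Set.range fun i =>
        (Pi.single (μ i).1 (lmon p θ (μ i).2) : Fin q → M[X])) := by
    rintro _ ⟨g₀, rfl⟩
    rw [← Finset.univ_sum_single (inclP M d g₀)]
    refine Submodule.sum_mem _ fun f _ => ?_
    have h1 : inclP M d g₀ f ∈ degreeLT M (e f + 1) := by
      have : e f + 1 = d f := he f
      rw [this]; exact (g₀ f).2
    have h2 := degreeLT_le_lspan hnd (e f) h1
    rw [lspan] at h2
    generalize inclP M d g₀ f = g' at h2
    induction h2 using Submodule.span_induction with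
    | mem g hg =>
      obtain ⟨m', hm', rfl⟩ := hg
      exact hfin (f, m') hm'
    | zero => rw [Pi.single_zero]; exact zero_mem _
    | add g g' _ _ hg hg' => rw [Pi.single_add]; exact add_mem hg hg'
    | smul s g _ hg => rw [Pi.single_smul]; exact Submodule.smul_mem _ _ hg
  have hfd : FiniteDimensional M (Submodule.span M (Set.range fun i =>
      (Pi.single (μ i).1 (lmon p θ (μ i).2) : Fin q → M[X]))) :=
    FiniteDimensional.span_of_finite M (Set.finite_range _)
  have h1 := Submodule.finrank_mono hle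
  rw [LinearMap.finrank_range_of_inj (inclP_injective d), finrank_PD] at h1
  have h2 := Submodule.finrank_add_le_finrank_add_finrank (LinearMap.range G)
    (Submodule.span M (Set.range fun i =>
      (Pi.single (μ i).1 (lmon p θ (μ i).2) : Fin q → M[X])))
  have h3 : Module.finrank M (Submodule.span M (Set.range fun i =>
      (Pi.single (μ i).1 (lmon p θ (μ i).2) : Fin q → M[X]))) ≤ h' := by
    have := finrank_range_le_card (R := M) (fun i =>
      (Pi.single (μ i).1 (lmon p θ (μ i).2) : Fin q → M[X]))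
    rwa [Fintype.card_fin] at this
  omega

end Pool.Agent.Lib.MP_44a246_ntT
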