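import Mathlib
import Pool.Agent.Lib.MP_44a246_ntT.TLocal
import Pool.Agent.Lib.MP_44a246_ntL.LThree

/-!
Full contact gives an exceptional line.
-/

namespace Pool.Agent.Lib.MP_44a246_ntT

open Pool.Agent.Lib.MP_e52354_nt
open Pool.Agent.Lib.MP_e52354_ntG
open Pool.Agent.Lib.MP_e52354_ntC
open Pool.Agent.Lib.MP_e52354_ntI
open Pool.Agent.Lib.MP_44a246_ntL (ExcLine restP)
open Polynomial

universe u w w'

section Full

variable {M : Type u} [Field M] [CharZero M] {σ : Type*} [Fintype σ] [DecidableEq σ]

/-- if the derivative in the direction `al p + ga θ` vanishes on the line, then the form is a power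
of a linear form on the line -/
theorem full_ode {d : ℕ} {a : (σ →₀ ℕ) → M} {p θ w : σ → M} {al ga : M}
    (hw : w = al • p + ga • θ) (h : ∑ j, w j • gradP d a p θ j = 0) :
    C (al * d) * lineP d a p θ + (C ga - C al * X) * derivative (lineP d a p θ) = 0 := by
  have h1 := euler_lineP d a p θ
  have h2 := derivative_lineP d a p θ
  have h3 : ∑ j, w j • gradP d a p θ j = C al * ∑ j, (C (p j) + C (θ j) * X) * gradP d a p θ j +
      (C ga - C al * X) * ∑ j, θ j • gradP d a p θ j := by
    rw [Finset.mul_sum, Finset.mul_sum, ← Finset.sum_add_distrib]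
    refine Finset.sum_congr rfl fun j _ => ?_
    rw [hw]
    simp only [Pi.add_apply, Pi.smul_apply, smul_eq_mul, smul_eq_C_mul, C_add, C_mul]
    ring
  rw [h3, h1, ← h2] at h
  rw [← h, C_mul, C_eq_natCast]
  ring

/-- the solutions of the differential equation -/
theorem ode_sol {d : ℕ} {P : M[X]} {al ga : M}
    (hne : al ≠ 0 ∨ ga ≠ 0)
    (h : C (al * d) * P + (C ga - C al * X) * derivative P = 0) :
    (al = 0 ∧ P = C (P.eval 0)) ∨ (al ≠ 0 ∧ ∃ c, P = C c * (X - C (ga / al)) ^ d) := by
  by_cases hal : al = 0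
  · left
    refine ⟨hal, ?_⟩
    have hga : ga ≠ 0 := hne.resolve_left (not_not.mpr hal)
    rw [hal] at h
    simp only [zero_mul, C_0, sub_zero, zero_add, mul_eq_zero, C_eq_zero] at h
    have h1 := h.resolve_left hga
    have h2 := derivative_eq_zero.mp h1
    rw [eq_C_of_natDegree_eq_zero h2]
    simp
  · right
    refine ⟨hal, ?_⟩
    set b := ga / al with hb
    let Q := P.comp (X + C b)
    have hQ : X * derivative Q = (d : M[X]) * Q := by
      have h1 : derivative Q = (derivative P).comp (X + C b) := by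
        show derivative (P.comp (X + C b)) = _
        rw [derivative_comp]
        simp
      have h2 : (C (al * d) * P + (C ga - C al * X) * derivative P).comp (X + C b) = 0 := by
        rw [h, zero_comp]
      simp only [add_comp, mul_comp, sub_comp, C_comp, X_comp] at h2
      have h3 : C al * C b = C ga := by
        rw [← C_mul, hb]
        congr 1
        field_simp
      have h4 : C al * ((d : M[X]) * Q - X * derivative Q) = 0 := by
        rw [h1]
        rw [C_mul, C_eq_natCast] at h2
        show C al * ((d : M[X]) * P.comp (X + C b) - X * (derivative P).comp (X + C b)) = 0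
        linear_combination h2 + (derivative P).comp (X + C b) * h3
      rw [mul_eq_zero, C_eq_zero, sub_eq_zero] at h4
      exact (h4.resolve_left hal).symm
    have h5 := pure_of_euler hQ
    refine ⟨Q.coeff d, ?_⟩
    have h6 : P = Q.comp (X - C b) := by
      show P = (P.comp (X + C b)).comp (X - C b)
      rw [comp_assoc]
      simp
    rw [h6]
    conv_lhs => rw [h5]
    simp

/-- reversing the line -/
theorem lineP_rev {d : ℕ} {a : (σ →₀ ℕ) → M} {p θ : σ → M} {c mu nu : M}
    (h : ∀ t : M, t ≠ 0 → (lineP d a p θ).eval t = c * (mu + nu * t) ^ d) :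
    lineP d a θ p = C c * (C mu * X + C nu) ^ d := by
  rw [← sub_eq_zero]
  apply eq_zero_of_infinite_isRoot
  refine Set.Infinite.mono (s := {0}ᶜ) ?_ (Set.finite_singleton (0 : M)).infinite_compl
  intro t ht
  have ht0 : t ≠ 0 := ht
  show IsRoot _ _
  have h1 := h t⁻¹ (inv_ne_zero ht0)
  rw [eval_lineP] at h1
  have h2 : (fun j => θ j + p j * t) = fun j => t * (p j + θ j * t⁻¹) := by
    funext j
    field_simp
    ring
  rw [IsRoot, eval_sub, eval_lineP, h2, Fval_smul, h1, sub_eq_zero]
  simp only [eval_mul, eval_C, eval_pow, eval_add, eval_X]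
  have h3 : mu * t + nu = t * (mu + nu * t⁻¹) := by field_simp
  rw [h3, mul_pow]
  ring

end Full

section Exc

variable {s q : ℕ} {d : Fin q → ℕ} {γ : Type w'} {M : Type u} [Field M] [CharZero M]
  {β : Type} [Nonempty β] {X' : DData (MIdx s q d) γ M} {p : Fin s → M} {g : β → Fin q} {EE : Set (Derivation ℤ M M)}
  {l : Fin s}

theorem fullC_exc (L : LogData X' p g EE) (hd1 : ∀ j, 1 ≤ d j) (hpl : p l = 1)
    (h : FullC X' p l) :
    ∃ y : Fin s → M, (∃ i j, plu p y i j ≠ 0) ∧ ExcLine d (fun j => mA X' j) p y := by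
  classical
  obtain ⟨θ, b, hθl, hθb, w, hw0, hw, hg⟩ := h
  set al := w l with hal
  set ga := w b - p b * w l with hga
  have hne : al ≠ 0 ∨ ga ≠ 0 := by
    by_contra hcon
    push Not at hcon
    apply hw0
    rw [hw, hcon.1, hcon.2]
    simp
  refine ⟨θ, ⟨l, b, ?_⟩, ?_⟩
  · show p l * θ b - p b * θ l ≠ 0
    rw [hpl, hθb, hθl]
    simp
  have hval : ∀ f, (lineP (d f) (mA X' f) p θ).eval 0 = Fval (d f) (mA X' f) p := by
    intro f
    rw [eval_lineP]
    congr 1
    funext j
    ring
  -- uniform description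
  obtain ⟨mu, nu, hmn, hP⟩ : ∃ mu nu : M, (mu ≠ 0 ∨ nu ≠ 0) ∧ ∀ f, ∃ c : M,
      (∀ t, (lineP (d f) (mA X' f) p θ).eval t = c * (mu + nu * t) ^ d f) ∧
      (Fval (d f) (mA X' f) p = 0 ↔ c = 0) := by
    by_cases h0 : al = 0
    · refine ⟨1, 0, Or.inl one_ne_zero, fun f => ⟨Fval (d f) (mA X' f) p, fun t => ?_, Iff.rfl⟩⟩
      rcases ode_sol hne (full_ode hw (hg f)) with ⟨-, h1⟩ | ⟨h1, -⟩
      · rw [h1, eval_C, hval]
        simp
      · exact absurd h0 h1
    · have hsol : ∀ f, ∃ c, lineP (d f) (mA X' f) p θ = C c * (X - C (ga / al)) ^ d f := by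
        intro f
        rcases ode_sol hne (full_ode hw (hg f)) with ⟨h1, -⟩ | ⟨-, h1⟩
        · exact absurd h1 h0
        · exact h1
      have hb0 : ga / al ≠ 0 := by
        intro hcon
        obtain ⟨b₀⟩ := (inferInstance : Nonempty β)
        obtain ⟨c, hc⟩ := hsol (g b₀)
        have h2 := hval (g b₀)
        rw [hc, hcon] at h2
        simp only [C_0, sub_zero, eval_mul, eval_C, eval_pow, eval_X] at h2
        rw [zero_pow (by have := hd1 (g b₀); omega), mul_zero] at h2
        exact L.hz b₀ h2.symm
      refine ⟨-(ga / al), 1, Or.inr one_ne_zero, fun f => ?_⟩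
      obtain ⟨c, hc⟩ := hsol f
      refine ⟨c, fun t => ?_, ?_⟩
      · rw [hc]
        simp only [eval_mul, eval_C, eval_pow, eval_sub, eval_X]
        ring
      · rw [← hval f, hc]
        simp only [eval_mul, eval_C, eval_pow, eval_sub, eval_X, zero_sub, mul_eq_zero,
          pow_eq_zero_iff', neg_eq_zero]
        constructor
        · rintro (h1 | ⟨h1, -⟩)
          · exact h1
          · exact absurd h1 hb0
        · exact fun h1 => Or.inl h1
  constructor
  · intro f hf u v
    obtain ⟨c, hc, hc0⟩ := hP f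
    have h1 : lineP (d f) (mA X' f) p θ = 0 := by
      apply Polynomial.funext
      intro t
      rw [hc, hc0.mp hf, zero_mul, eval_zero]
    exact Fval_comb (d f) (mA X' f) h1 inferInstance u v
  · have hsub : (restP d (fun j => mA X' j) p θ).rootSet (AlgebraicClosure M) ⊆
        {z | algebraMap M (AlgebraicClosure M) mu * z + algebraMap M (AlgebraicClosure M) nu = 0} := by
      intro z hz
      rw [mem_rootSet] at hz
      obtain ⟨-, hz⟩ := hz
      rw [restP, map_prod, Finset.prod_eq_zero_iff] at hz
      obtain ⟨f, hf, hz⟩ := hz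
      rw [Finset.mem_filter] at hf
      obtain ⟨c, hc, hc0⟩ := hP f
      have h1 := lineP_rev (d := d f) (a := mA X' f) (p := p) (θ := θ) (fun t _ => hc t)
      rw [h1] at hz
      simp only [map_mul, map_pow, map_add, aeval_C, aeval_X, mul_eq_zero] at hz
      rcases hz with hz | hz
      · exfalso
        apply hf.2
        rw [hc0]
        exact (map_eq_zero _).mp hz
      · exact pow_eq_zero_iff (by have := hd1 f; omega) |>.mp hz
    have hsing : Set.Subsingleton {z : AlgebraicClosure M |
        algebraMap M (AlgebraicClosure M) mu * z + algebraMap M (AlgebraicClosure M) nu = 0} := by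
      intro z hz z' hz'
      simp only [Set.mem_ofPred_eq] at hz hz'
      by_cases hmu : mu = 0
      · rw [hmu, map_zero, zero_mul, zero_add] at hz
        have := (map_eq_zero _).mp hz
        exact absurd this (hmn.resolve_left (not_not.mpr hmu))
      · have h1 : algebraMap M (AlgebraicClosure M) mu ≠ 0 := (_root_.map_ne_zero _).mpr hmu
        apply mul_left_cancel₀ h1
        linear_combination hz - hz'
    calc _ ≤ Set.ncard {z : AlgebraicClosure M |
        algebraMap M (AlgebraicClosure M) mu * z + algebraMap M (AlgebraicClosure M) nu = 0} :=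
          Set.ncard_le_ncard hsub hsing.finite
      _ ≤ 1 := by
          rw [Set.ncard_le_one hsing.finite]
          exact hsing
      _ ≤ 2 := by norm_num

end Exc

end Pool.Agent.Lib.MP_44a246_ntT
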