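import Mathlib
import Pool.Agent.Lib.MP_44a246_ntT.TLocal
import Pool.Agent.Lib.MP_44a246_ntT.TExc
import Pool.Agent.Lib.MP_e52354_ntI.ILocal

/-!
Several forms, all vanishing at the point: the local bound for points with a line of full contact,
with further derivations which kill the coefficients.
-/

namespace Pool.Agent.Lib.MP_44a246_ntT

open Pool.Agent.Lib.MP_e52354_nt
open Pool.Agent.Lib.MP_e52354_ntG
open Pool.Agent.Lib.MP_e52354_ntC
open Pool.Agent.Lib.MP_e52354_ntI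
open Pool.Agent.Lib.MP_44a246_ntL (ExcLine restP)
open Polynomial

universe u w w'

section FullGen

variable {s q : ℕ} {d : Fin q → ℕ} {γ : Type w'} {M : Type u} [Field M] [CharZero M]
  {X : DData (MIdx s q d) γ M} {p θ : Fin s → M} {l b : Fin s} {c : M}

/-- the local bound, with further derivations -/
def LocalE (X : DData (MIdx s q d) γ M) (p : Fin s → M) (EE : Set (Derivation ℤ M M)) (c e : ℕ)
    (J : M) : Prop :=
  ∀ (O : Subring M) (δ : M) (l : Fin s), Adm X p O δ l → (∀ E ∈ EE, ∀ y ∈ O, δ * E y ∈ O) →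
    δ ^ c * (J * p l ^ e) ∈ O

theorem efull_local_gen {EE : Set (Derivation ℤ M M)} {κ κ' : Type} [Fintype κ] [DecidableEq κ] [Fintype κ'] [DecidableEq κ']
    {e : Fin q → ℕ} {r m₁ E : ℕ} (hs : q + r + 1 = s) (he : ∀ j, e j + 1 = d j)
    (hm : Fintype.card (κ ⊕ κ') + m₁ = r) (hκm : Fintype.card κ ≤ m₁)
    (hE : ∑ j, d j = E + (q + 1 + Fintype.card κ + r))
    (hpl : p l = 1) (hθl : θ l = 0) (hθb : θ b = 1) (hF : ∀ j, Fval (d j) (mA X j) p = 0)
    {f₀ : Fin q} (h : lineP (d f₀) (mA X f₀) p θ = C c * Polynomial.X ^ (d f₀)) (hc : c ≠ 0)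
    (Z : κ → Fin s → M)
    (hZ : ∀ i, ∃ f m j, m.degree = e f ∧ Z i = fun k => Dmc (mD X f) p θ l b m j (p k))
    (Z₂ : κ' → Fin s → M) (hgZ₂ : ∀ i j, mgrad X p j ⬝ᵥ Z₂ i = 0)
    (hwZ₂ : ∀ i O δ l', Adm X p O δ l' → (∀ E ∈ EE, ∀ y ∈ O, δ * E y ∈ O) →
      ∃ (t : M) (y' : Fin s → M), (∀ k, δ ^ 2 * y' k ∈ O) ∧
        ∀ k, Z₂ i k = p l' ^ 1 * y' k + t * p k)
    (hTT : mTT X p ≤ Submodule.span M (insert p (Set.range (Sum.elim Z Z₂)) ∪ mSzeta X p))
    (hli : LinearIndependent M (fun o : Option (κ ⊕ κ') => o.elim p (Sum.elim Z Z₂)))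
    (hmod : ∀ f, ∀ m : Fin s →₀ ℕ, m.degree = e f → ∀ j,
      zeta (mD X f) p m l j - θ j • zeta (mD X f) p m l b ∈
        Submodule.span M (insert p (Set.range (Sum.elim Z Z₂)))) :
    ∃ J : M, J ≠ 0 ∧ LocalE X p EE (2 * s * d f₀ + (m₁ - Fintype.card κ)) (d f₀ * E) J := by
  classical
  have hl₀ : p l ≠ 0 := by rw [hpl]; exact one_ne_zero
  set g := fun j => mgrad X p j with hg
  have hgp : ∀ j, g j ⬝ᵥ p = 0 := fun j => mgrad_p hF j
  have hgli : LinearIndependent M g := mgrad_li hF hl₀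
  have hgZ : ∀ i j, g j ⬝ᵥ Sum.elim Z Z₂ i = 0 := by
    rintro (i | i) j
    · obtain ⟨f, m, j', hm, hZi⟩ := hZ i
      have := he f
      rw [Sum.elim_inl, hZi, Dmc_p hpl, dotProduct_sub, dotProduct_smul,
        mgrad_zeta hF ⟨f, m, l, j', by omega, rfl⟩,
        mgrad_zeta hF ⟨f, m, l, b, by omega, rfl⟩, smul_zero, sub_zero]
    · exact hgZ₂ i j
  let S : Set (Fin s → M) := {z | ∃ x : Fin q × (Fin s →₀ ℕ), x.2.degree = e x.1 ∧
    z = zeta (mD X x.1) p x.2 l b}
  have hS : ∀ z ∈ S, ∀ j, g j ⬝ᵥ z = 0 := by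
    rintro z ⟨x, hm, rfl⟩ j
    have := he x.1
    exact mgrad_zeta hF ⟨x.1, x.2, l, b, by omega, rfl⟩ j
  have hlj : ∀ f, ∀ m : Fin s →₀ ℕ, m.degree = e f → ∀ j, zeta (mD X f) p m l j ∈
      Submodule.span M (insert p (Set.range (Sum.elim Z Z₂)) ∪ S) := by
    intro f m hm j
    have h1 : zeta (mD X f) p m l j = (zeta (mD X f) p m l j - θ j • zeta (mD X f) p m l b) +
        θ j • zeta (mD X f) p m l b := by abel
    rw [h1]
    refine add_mem (Submodule.span_mono Set.subset_union_left (hmod f m hm j))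
      (Submodule.smul_mem _ _ (Submodule.subset_span (Or.inr ⟨(f, m), hm, rfl⟩)))
  have hspan : mTT X p ≤ Submodule.span M (insert p (Set.range (Sum.elim Z Z₂)) ∪ S) := by
    refine hTT.trans ?_
    rw [Submodule.span_le]
    rintro z (hz | ⟨f, m, u, v, hm, rfl⟩)
    · exact Submodule.subset_span (Or.inl hz)
    · have := he f
      rw [SetLike.mem_coe, zeta_base hpl]
      exact sub_mem (Submodule.smul_mem _ _ (hlj f m (by omega) v))
        (Submodule.smul_mem _ _ (hlj f m (by omega) u))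
  obtain ⟨Z', hZ'S, hli'⟩ := mexists_ext hs hm hF hl₀ (Sum.elim Z Z₂) hgZ hli S hS hspan
  choose ms hms hZ'ms using hZ'S
  -- the determinant
  let e₀ : Fin q ⊕ Option ((κ ⊕ κ') ⊕ Fin m₁) ≃ Fin s := Fintype.equivFinOfCardEq (by
    rw [Fintype.card_sum] at hm
    simp only [Fintype.card_sum, Fintype.card_option, Fintype.card_fin]
    omega)
  have hgZZ : ∀ i : Fin q, ∀ j : (κ ⊕ κ') ⊕ Fin m₁, g i ⬝ᵥ (Sum.elim (Sum.elim Z Z₂) Z') j = 0 := by
    rintro i (j | j)
    · exact hgZ j i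
    · show g i ⬝ᵥ Z' j = 0
      rw [hZ'ms j]
      exact hS _ ⟨ms j, hms j, rfl⟩ i
  obtain ⟨J0, hJ0', hJ0v⟩ := det_rowsM e₀ g hgli p _ hgp hgZZ hli'
  have hdv : ∀ l', (Matrix.of fun j i => g i ⬝ᵥ dp X p j (Finsupp.single l' (d j))).det =
      (-1) ^ q * p l' ^ (∑ j, d j) := fun l' => det_vv hF g (fun j z _ => rfl) l'
  refine ⟨J0 ^ (d f₀) * c ^ (m₁ - Fintype.card κ), mul_ne_zero (pow_ne_zero _ hJ0')
    (pow_ne_zero _ hc), ?_⟩
  intro O δ l' hA hEE
  obtain ⟨hval, hδ, hDO, ha, hb, hl', hp'⟩ := hA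
  have hA : Adm X p O δ l' := ⟨hval, hδ, hDO, ha, hb, hl', hp'⟩
  -- the maximal Pluecker coordinate
  let P : Fin s → Fin s → M := fun i j => p i * θ j - p j * θ i
  have hPlb : P l b ≠ 0 := by simp [P, hpl, hθl, hθb]
  obtain ⟨⟨a1, b1⟩, hQ0, hQ⟩ := exists_max_val O hval
    (fun ij : Fin s × Fin s => P ij.1 ij.2) ⟨(l, b), hPlb⟩
  simp only at hQ0 hQ
  set Q := P a1 b1 with hQdef
  -- the point is bounded by the line
  obtain ⟨z, hz, hcz⟩ : ∃ z, δ * z ∈ O ∧ c * p l' ^ (d f₀) = Q ^ (d f₀) * z := by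
    refine ⟨Fval (d f₀) (mA X f₀) (fun j => P l' j / Q), ?_, ?_⟩
    · unfold Fval
      rw [Finset.mul_sum]
      refine sum_mem fun I hI => ?_
      rw [mA, dif_pos hI, ← mul_assoc]
      exact O.mul_mem (ha _) (mon_mem O (fun j => hQ (l', j)) I)
    · have h1 : (fun j => P l' j / Q) = fun j => Q⁻¹ * (P l' j) := by
        funext j; rw [div_eq_inv_mul]
      have h2 : P l' = fun j => p j * (-θ l') + θ j * p l' := by
        funext j; simp only [P]; ring
      have hd1 : 1 ≤ d f₀ := by have := he f₀; omega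
      have hfull : ∀ u v : M, Fval (d f₀) (mA X f₀) (fun j => p j * u + θ j * v) =
          c * v ^ (d f₀) := by
        intro u v
        have h0 : lineP (d f₀) (mA X f₀) p θ - C c * Polynomial.X ^ (d f₀) = 0 := by
          rw [h, sub_self]
        -- `Fval` is a polynomial in `u, v`
        have hne : ∀ u v : M, u ≠ 0 → Fval (d f₀) (mA X f₀) (fun j => p j * u + θ j * v) =
            c * v ^ (d f₀) := by
          intro u v hu
          have h1 : (fun j => p j * u + θ j * v) = fun j => u * (p j + θ j * (v / u)) := by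
            funext j; field_simp
          rw [h1, Fval_smul, ← eval_lineP, h]
          simp only [eval_mul, eval_C, eval_pow, eval_X, div_pow]
          have : u ^ (d f₀) ≠ 0 := pow_ne_zero _ hu
          field_simp
        by_cases hu : u = 0
        · have h2 : lineP (d f₀) (mA X f₀) (fun j => θ j * v) p - C (c * v ^ (d f₀)) = 0 := by
            apply eq_zero_of_infinite_isRoot
            refine Set.Infinite.mono (s := {0}ᶜ) ?_ (Set.finite_singleton (0 : M)).infinite_compl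
            intro u' hu'
            show IsRoot _ _
            rw [IsRoot, eval_sub, eval_lineP, eval_C, sub_eq_zero, ← hne u' v hu']
            congr 1
            funext j; ring
          have h3 := eval_lineP (d f₀) (mA X f₀) (fun j => θ j * v) p u
          rw [sub_eq_zero.mp h2, eval_C] at h3
          rw [h3]
          congr 1
          funext j; ring
        · exact hne u v hu
      rw [h1, Fval_smul, h2, hfull]
      have : Q ^ (d f₀) * (Q⁻¹) ^ (d f₀) = 1 := by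
        rw [← mul_pow, mul_inv_cancel₀ hQ0, one_pow]
      linear_combination (-(c * p l' ^ (d f₀))) * this
  -- the rows
  let v : Fin q → Fin s → M := fun j => dp X p j (Finsupp.single l' (d j))
  let B := Fin q ⊕ Option (κ ⊕ κ')
  let f : B ⊕ Fin m₁ ≃ Fin q ⊕ Option ((κ ⊕ κ') ⊕ Fin m₁) :=
    { toFun := Sum.elim (Sum.elim Sum.inl (fun o => o.elim (Sum.inr none)
          (fun i => Sum.inr (some (Sum.inl i))))) (fun i => Sum.inr (some (Sum.inr i)))
      invFun := Sum.elim (fun i => Sum.inl (Sum.inl i)) (fun o => o.elim (Sum.inl (Sum.inr none))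
          (Sum.elim (fun i => Sum.inl (Sum.inr (some i))) Sum.inr))
      left_inv := by rintro ((i | (_ | i)) | i) <;> rfl
      right_inv := by rintro (i | (_ | (i | i))) <;> rfl }
  let x0 : B → Fin s → M := Sum.elim v (fun o => o.elim p (Sum.elim Z Z₂))
  let y : Fin m₁ → Fin s → M := fun i => zeta (mD X (ms i).1) p (ms i).2 a1 b1
  have hbase : rowdet (f.trans e₀) (Sum.elim x0 Z') =
      J0 * ((-1) ^ q * p l' ^ (∑ j, d j)) := by
    have h1 : rowdet (f.trans e₀) (Sum.elim x0 Z') =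
        (rowsM e₀ v p (Sum.elim (Sum.elim Z Z₂) Z')).det := by
      unfold rowsM
      rw [show (Matrix.of fun i j =>
        (Sum.elim v (fun o : Option ((κ ⊕ κ') ⊕ Fin m₁) =>
          o.elim p (Sum.elim (Sum.elim Z Z₂) Z'))) i
          (e₀ j)).det = rowdet e₀ _ from rfl, ← rowdet_reindex f e₀]
      congr 1
      funext i
      rcases i with ((i | (_ | i)) | i) <;> rfl
    rw [h1, hJ0v, ← hdv l']
  have hmodv : ∀ x : Fin q × (Fin s →₀ ℕ), x.2.degree = e x.1 → ∃ coef : B → M,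
      zeta (mD X x.1) p x.2 a1 b1 = Q • zeta (mD X x.1) p x.2 l b + ∑ j, coef j • x0 j := by
    rintro ⟨f', m⟩ hm
    have h1 : zeta (mD X f') p m a1 b1 - Q • zeta (mD X f') p m l b ∈
        Submodule.span M (Set.range (fun o : Option (κ ⊕ κ') => o.elim p (Sum.elim Z Z₂))) := by
      rw [range_option]
      rw [zeta_base hpl]
      have h2 : p a1 • zeta (mD X f') p m l b1 - p b1 • zeta (mD X f') p m l a1 -
          Q • zeta (mD X f') p m l b =
          p a1 • (zeta (mD X f') p m l b1 - θ b1 • zeta (mD X f') p m l b) -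
          p b1 • (zeta (mD X f') p m l a1 - θ a1 • zeta (mD X f') p m l b) := by
        rw [hQdef]
        simp only [P, smul_sub, smul_smul, sub_smul]
        abel
      rw [h2]
      exact sub_mem (Submodule.smul_mem _ _ (hmod f' m hm b1))
        (Submodule.smul_mem _ _ (hmod f' m hm a1))
    obtain ⟨co, hco⟩ := (Submodule.mem_span_range_iff_exists_fun M).mp h1
    refine ⟨Sum.elim (fun _ => 0) co, ?_⟩
    rw [Fintype.sum_sum_type]
    simp only [Sum.elim_inl, Sum.elim_inr, zero_smul, Finset.sum_const_zero, zero_add, x0]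
    rw [hco]
    abel
  choose coef hcoef using fun i => hmodv (ms i) (hms i)
  have hmod2 : rowdet (f.trans e₀) (Sum.elim x0 y) =
      Q ^ m₁ * rowdet (f.trans e₀) (Sum.elim x0 Z') := by
    have := rowdet_mod (f.trans e₀) x0 y Z' Q coef (fun i => by
      rw [hZ'ms i]; exact hcoef i)
    rwa [Fintype.card_fin] at this
  -- scaling of the rows `Z`
  let sc : B ⊕ Fin m₁ → M := Sum.elim (Sum.elim (fun _ => 1) (fun o => o.elim 1
    (Sum.elim (fun _ => Q⁻¹) (fun _ => 1)))) (fun _ => 1)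
  have hsc : ∏ i, sc i = (Q⁻¹) ^ Fintype.card κ := by
    rw [Fintype.prod_sum_type, Fintype.prod_sum_type, Fintype.prod_option, Fintype.prod_sum_type]
    simp [sc]
  have hscale := rowdet_scale (f.trans e₀) sc (Sum.elim x0 y)
  rw [hsc, hmod2, hbase] at hscale
  obtain ⟨y₁, hy₁, hy₁'⟩ := det_at (X := X) (f.trans e₀) (fun i => sc i • Sum.elim x0 y i)
    (Sum.inl (Sum.inr none)) (by simp [sc, x0]) 2
    (Sum.elim (Sum.elim (fun _ => 1) (fun o => o.elim 1 (fun _ => 1))) (fun _ => 2)) rfl hA (by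
      rintro ((i | (_ | (i | i))) | i) hi
      · obtain ⟨t, y', h1, h2⟩ := (wt_dp2 (X := X) (p := p) i (Finsupp.single l' (d i))) O δ l' hA
        refine ⟨t, y', h1, fun k => ?_⟩
        show (1 : M) * v i k = _
        rw [one_mul]; exact h2 k
      · exact absurd rfl hi
      · -- a row of `Z`
        obtain ⟨f', m, j, hm, hZi⟩ := hZ i
        have hu : ∀ I : Fin s →₀ ℕ, ∃ (t : M) (y' : Fin s → M),
            (∀ k, δ ^ 1 * y' k ∈ O) ∧ ∀ k, mD X f' I (p k) = p l' ^ 1 * y' k + t * p k :=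
          fun I => wt_mD (X := X) (p := p) f' I O δ l' hA
        obtain ⟨t1, y1, h11, h12⟩ := hu (m + Finsupp.single j 1)
        obtain ⟨t2, y2, h21, h22⟩ := hu (m + Finsupp.single l 1)
        obtain ⟨t3, y3, h31, h32⟩ := hu (m + Finsupp.single b 1)
        have hq1 : P l b / Q ∈ O := hQ (l, b)
        have hq2 : P j b / Q ∈ O := hQ (j, b)
        have hq3 : P l j / Q ∈ O := hQ (l, j)
        refine ⟨P l b / Q * t1 - P j b / Q * t2 - P l j / Q * t3,
          fun k => P l b / Q * y1 k - P j b / Q * y2 k - P l j / Q * y3 k, fun k => ?_,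
          fun k => ?_⟩
        · have e1 : δ ^ 2 * (P l b / Q * y1 k - P j b / Q * y2 k - P l j / Q * y3 k) =
              δ * (P l b / Q * (δ ^ 1 * y1 k) - P j b / Q * (δ ^ 1 * y2 k) -
                P l j / Q * (δ ^ 1 * y3 k)) := by ring
          rw [e1]
          exact O.mul_mem hδ (O.sub_mem (O.sub_mem (O.mul_mem hq1 (h11 k)) (O.mul_mem hq2 (h21 k)))
            (O.mul_mem hq3 (h31 k)))
        · show Q⁻¹ * Z i k = p l' ^ 1 * _ + _ * p k
          rw [hZi]
          show Q⁻¹ * Dmc (mD X f') p θ l b m j (p k) = _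
          rw [Dmc_apply, h12 k, h22 k, h32 k]
          have e1 : P l b = 1 := by simp [P, hpl, hθl, hθb]
          have e2 : P j b = p j - p b * θ j := by simp [P, hθb]
          have e3 : P l j = θ j := by simp [P, hpl, hθl]
          rw [e1, e2, e3]
          field_simp
          ring
      · -- a row of `Z₂`
        obtain ⟨t, y', h1, h2⟩ := hwZ₂ i O δ l' hA hEE
        refine ⟨t, y', h1, fun k => ?_⟩
        show (1 : M) * Z₂ i k = _
        rw [one_mul]; exact h2 k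
      · obtain ⟨t, y', h1, h2⟩ := (wt_mzeta (X := X) (p := p) (ms i).1 (ms i).2 a1 b1).mono_c 1
          O δ l' hA
        refine ⟨t, y', h1, fun k => ?_⟩
        show (1 : M) * zeta (mD X (ms i).1) p (ms i).2 a1 b1 k = _
        rw [one_mul]; exact h2 k)
  have hsumw : ∑ i : B ⊕ Fin m₁, (Sum.elim (Sum.elim (fun _ => 1) (fun o : Option (κ ⊕ κ') =>
      o.elim 1 (fun _ => 1))) (fun _ => 2) : B ⊕ Fin m₁ → ℕ) i =
      q + 1 + Fintype.card (κ ⊕ κ') + 2 * m₁ := by
    rw [Fintype.sum_sum_type, Fintype.sum_sum_type, Fintype.sum_option]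
    simp
    ring
  have hcardB : Fintype.card (B ⊕ Fin m₁) = s := by
    show Fintype.card ((Fin q ⊕ Option (κ ⊕ κ')) ⊕ Fin m₁) = s
    rw [Fintype.card_sum, Fintype.card_sum, Fintype.card_option, Fintype.card_fin,
      Fintype.card_fin]
    omega
  rw [hcardB] at hy₁
  rw [hsumw] at hy₁'
  have hy₂ : (Q⁻¹) ^ Fintype.card κ * (Q ^ m₁ * (J0 * ((-1) ^ q * p l' ^ (∑ j, d j)))) =
      p l' ^ (q + 1 + Fintype.card (κ ⊕ κ') + 2 * m₁) * y₁ := by
    rw [← hscale]; exact hy₁'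
  -- algebra
  set k := Fintype.card κ with hk
  set k' := Fintype.card (κ ⊕ κ') with hk'
  set Pl := p l' with hPl
  set dd := d f₀ with hdd
  set sd := ∑ j, d j with hsd
  have hQk : Q ^ k ≠ 0 := pow_ne_zero _ hQ0
  obtain ⟨ε, hε, hεO⟩ : ∃ ε : M, ε * (-1) ^ q = 1 ∧ ε ∈ O := by
    refine ⟨(-1) ^ q, ?_, pow_mem (O.neg_mem O.one_mem) _⟩
    rw [← mul_pow]; simp
  have h3 : J0 * Q ^ m₁ * Pl ^ sd = Q ^ k * Pl ^ (q + 1 + k' + 2 * m₁) * (ε * y₁) := by
    have h4 : Q ^ k * (Q⁻¹) ^ k = 1 := by rw [← mul_pow, mul_inv_cancel₀ hQ0, one_pow]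
    have h5 : ε * Q ^ k * ((Q⁻¹) ^ k * (Q ^ m₁ * (J0 * ((-1) ^ q * Pl ^ sd)))) =
        ε * Q ^ k * (Pl ^ (q + 1 + k' + 2 * m₁) * y₁) := by rw [hy₂]
    have h6 : ε * Q ^ k * ((Q⁻¹) ^ k * (Q ^ m₁ * (J0 * ((-1) ^ q * Pl ^ sd)))) =
        (ε * (-1) ^ q) * (Q ^ k * (Q⁻¹) ^ k) * (J0 * Q ^ m₁ * Pl ^ sd) := by ring
    rw [hε, h4, one_mul, one_mul] at h6
    rw [← h6, h5]
    ring
  obtain ⟨μ, hμ⟩ : ∃ μ, m₁ = k + μ := ⟨m₁ - k, by omega⟩
  have hμ' : m₁ - k = μ := by omega
  rw [hμ']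
  have h5 : J0 ^ dd * c ^ μ * Pl ^ (dd * E) = (ε * y₁) ^ dd * z ^ μ := by
    have h6 : (J0 * Q ^ m₁ * Pl ^ sd) ^ dd * (c * Pl ^ dd) ^ μ =
        (Q ^ k * Pl ^ (q + 1 + k' + 2 * m₁) * (ε * y₁)) ^ dd * (Q ^ dd * z) ^ μ := by
      rw [h3, hcz]
    have hne : (Q ^ m₁) ^ dd * (Pl ^ (q + 1 + k' + 2 * m₁)) ^ dd ≠ 0 :=
      mul_ne_zero (pow_ne_zero _ (pow_ne_zero _ hQ0)) (pow_ne_zero _ (pow_ne_zero _ hl'))
    apply mul_left_cancel₀ hne
    have e1 : (Q ^ m₁) ^ dd = (Q ^ k) ^ dd * (Q ^ dd) ^ μ := by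
      rw [← pow_mul, ← pow_mul, ← pow_mul, ← pow_add]
      congr 1
      rw [hμ]; ring
    have e2 : (Pl ^ (q + 1 + k' + 2 * m₁)) ^ dd * Pl ^ (dd * E) =
        (Pl ^ sd) ^ dd * (Pl ^ dd) ^ μ := by
      rw [← pow_mul, ← pow_mul, ← pow_mul, ← pow_add, ← pow_add]
      congr 1
      have e3 : q + 1 + k' + 2 * m₁ + E = sd + μ := by omega
      calc (q + 1 + k' + 2 * m₁) * dd + dd * E = dd * (q + 1 + k' + 2 * m₁ + E) := by ring
        _ = dd * (sd + μ) := by rw [e3]
        _ = sd * dd + dd * μ := by ring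
    calc (Q ^ m₁) ^ dd * (Pl ^ (q + 1 + k' + 2 * m₁)) ^ dd * (J0 ^ dd * c ^ μ * Pl ^ (dd * E))
        = (Q ^ m₁) ^ dd * J0 ^ dd * c ^ μ *
          ((Pl ^ (q + 1 + k' + 2 * m₁)) ^ dd * Pl ^ (dd * E)) := by ring
      _ = (J0 * Q ^ m₁ * Pl ^ sd) ^ dd * (c * Pl ^ dd) ^ μ := by
          rw [e2, mul_pow, mul_pow, mul_pow]; ring
      _ = (Q ^ k * Pl ^ (q + 1 + k' + 2 * m₁) * (ε * y₁)) ^ dd * (Q ^ dd * z) ^ μ := h6
      _ = (Q ^ m₁) ^ dd * (Pl ^ (q + 1 + k' + 2 * m₁)) ^ dd * ((ε * y₁) ^ dd * z ^ μ) := by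
          rw [e1, mul_pow (Q ^ k * Pl ^ (q + 1 + k' + 2 * m₁)), mul_pow (Q ^ k), mul_pow (Q ^ dd)]
          ring
  rw [h5]
  have h7 : δ ^ (2 * s * dd + μ) * ((ε * y₁) ^ dd * z ^ μ) =
      (ε * (δ ^ (2 * s) * y₁)) ^ dd * (δ * z) ^ μ := by
    rw [pow_add, pow_mul, mul_pow, mul_pow, mul_pow, mul_pow]
    ring
  rw [h7]
  exact O.mul_mem (pow_mem (O.mul_mem hεO hy₁) _) (pow_mem hz _)

/-- weight of the vectors of derivations -/
theorem wt_E {EE : Set (Derivation ℤ M M)} {E : Derivation ℤ M M} (hE : E ∈ EE) (O : Subring M)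
    (δ : M) (l' : Fin s) (hA : Adm X p O δ l') (hEE : ∀ E ∈ EE, ∀ y ∈ O, δ * E y ∈ O) :
    ∃ (t : M) (y' : Fin s → M), (∀ k, δ ^ 2 * y' k ∈ O) ∧
        ∀ k, E (p k) = p l' ^ 1 * y' k + t * p k := by
  have hl := hA.hl
  refine ⟨E (p l') / p l', fun k => E (p k / p l'), fun k => ?_, fun k => ?_⟩
  · have h1 : δ ^ 2 * E (p k / p l') = δ * (δ * E (p k / p l')) := by ring
    rw [h1]
    exact O.mul_mem hA.hδ (hEE E hE _ (hA.hp k))
  · have h1 : p k = p l' * (p k / p l') := by field_simp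
    conv_lhs => rw [h1]
    rw [Derivation.leibniz, smul_eq_mul, smul_eq_mul, pow_one]
    field_simp

theorem mgrad_E (hF : ∀ j, Fval (d j) (mA X j) p = 0) {E : Derivation ℤ M M}
    (hE : ∀ j I, E (mA X j I) = 0) (j : Fin q) : mgrad X p j ⬝ᵥ (fun k => E (p k)) = 0 := by
  have h := D_Fval (d j) (mA X j) E p
  rw [hF j, map_zero] at h
  have h1 : ∑ I ∈ expo (Fin s) (d j), E (mA X j I) * mon p I = 0 :=
    Finset.sum_eq_zero fun I _ => by rw [hE, zero_mul]
  rw [h1, zero_add] at h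
  exact h.symm

/-- the local bound for points with a line of full contact -/
theorem elocal_full {EE : Set (Derivation ℤ M M)} {τ r S : ℕ} {e : Fin q → ℕ}
    (hs : q + r + 1 = s) (hS : 2 * S ≤ r + τ)
    (he : ∀ j, e j + 1 = d j) (hd : ∑ j, d j + S = 2 * r + q + 1)
    (hF : ∀ j, Fval (d j) (mA X j) p = 0) (hpl : p l = 1) (hθl : θ l = 0) (hθb : θ b = 1)
    {f₀ : Fin q} (h : lineP (d f₀) (mA X f₀) p θ = C c * Polynomial.X ^ (d f₀))
    (hc : c ≠ 0) (N : Submodule M (Fin s → M)) (hpN : p ∈ N)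
    (hN : Module.finrank M N ≤ S) (hξ : ∀ z ∈ mSxi X p, z ∈ N)
    (hEk : ∀ E ∈ EE, ∀ j I, E (mA X j I) = 0) (hEN : ∀ E ∈ EE, (fun k => E (p k)) ∈ N)
    (Ev : Fin τ → Fin s → M)
    (hEv : ∀ i, Ev i ∈ Submodule.span M (insert p ((fun (E : Derivation ℤ M M) k => E (p k)) '' EE)))
    (hEvl : ∀ i, Ev i l = 0) (hEvli : LinearIndependent M Ev)
    (hm : ∀ f, ∀ m : Fin s →₀ ℕ, m.degree + 1 = d f → ∀ j,
      zeta (mD X f) p m l j - θ j • zeta (mD X f) p m l b ∈ N) :
    ∃ (E' : ℕ) (J : M), J ≠ 0 ∧ LocalE X p EE (2 * s * (∑ j, d j) + r) (E' + 1) J := by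
  classical
  have hl : p l ≠ 0 := by rw [hpl]; exact one_ne_zero
  have hp0 : p ≠ 0 := by
    rintro rfl; exact hl rfl
  let T : Set (Fin s → M) := {z | ∃ f, ∃ m : Fin s →₀ ℕ, ∃ j, m.degree = e f ∧
    z = fun k => Dmc (mD X f) p θ l b m j (p k)}
  let T₂ : Set (Fin s → M) := mSxi X p ∪ (fun (E : Derivation ℤ M M) k => E (p k)) '' EE
  obtain ⟨n', Z', hZ', hli', hspan'⟩ := exists_fam_single (M := M) hp0 T₂
  obtain ⟨n, Z, hZ, hli₀, hspan⟩ := exists_fam hli' T
  have hli : LinearIndependent M (fun o : Option (Fin n ⊕ Fin n') =>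
      o.elim p (Sum.elim Z Z')) := by
    have h1 := hli₀.comp (Option.map Sum.swap)
      (Option.map_injective (Equiv.sumComm (Fin n) (Fin n')).injective)
    have h2 : (fun o : Option (Fin n ⊕ Fin n') => o.elim p (Sum.elim Z Z')) =
        (fun o : Option (Fin n' ⊕ Fin n) => o.elim p (Sum.elim Z' Z)) ∘ Option.map Sum.swap := by
      funext o
      rcases o with (_ | (i | i)) <;> rfl
    rw [h2]
    exact h1
  have hrange : Set.range (Sum.elim Z' Z) = Set.range (Sum.elim Z Z') := by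
    rw [Set.Sum.elim_range, Set.Sum.elim_range, Set.union_comm]
  have hTN : ∀ z ∈ T, z ∈ N := by
    rintro z ⟨f, m, j, hme, rfl⟩
    rw [Dmc_p hpl]
    exact hm f m (by rw [hme, he]) j
  have hT₂N : ∀ z ∈ T₂, z ∈ N := by
    rintro z (hz | ⟨E, hE, rfl⟩)
    · exact hξ z hz
    · exact hEN E hE
  have hcard : n + n' + 1 ≤ Module.finrank M N := by
    have h1 := finrank_insert hli
    rw [Fintype.card_sum, Fintype.card_fin, Fintype.card_fin] at h1
    rw [← h1]
    apply Submodule.finrank_mono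
    rw [Submodule.span_le]
    rintro z (rfl | ⟨(i | i), rfl⟩)
    · exact hpN
    · exact hTN _ (hZ i)
    · exact hT₂N _ (hZ' i)
  have hτn : τ ≤ n' := by
    have hV := finrank_insert hli'
    rw [Fintype.card_fin] at hV
    set V := Submodule.span M (insert p (Set.range Z')) with hVdef
    have hEvV : ∀ i, Ev i ∈ V := by
      intro i
      refine (Submodule.span_le.mpr ?_) (hEv i)
      rintro _ (rfl | ⟨E, hE, rfl⟩)
      · exact Submodule.subset_span (Set.mem_insert _ _)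
      · exact hspan' _ (Or.inr ⟨E, hE, rfl⟩)
    let Vl : Submodule M (Fin s → M) := V ⊓ LinearMap.ker (LinearMap.proj l)
    have hVl : ∀ y, y ∈ Vl ↔ y ∈ V ∧ y l = 0 := by
      intro y
      rw [Submodule.mem_inf, LinearMap.mem_ker]
      rfl
    have h1 : Module.finrank M Vl + 1 ≤ Module.finrank M V := by
      refine Submodule.finrank_lt_finrank_of_lt (lt_of_le_of_ne inf_le_left ?_)
      intro h
      have h1 : p ∈ Vl := by
        rw [h]
        exact Submodule.subset_span (Set.mem_insert _ _)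
      exact hl ((hVl _).mp h1).2
    have h2 := finrank_span_eq_card hEvli
    rw [Fintype.card_fin] at h2
    have h3 : Submodule.span M (Set.range Ev) ≤ Vl := by
      rw [Submodule.span_le]
      rintro _ ⟨i, rfl⟩
      rw [SetLike.mem_coe, hVl]
      exact ⟨hEvV i, hEvl i⟩
    have h4 := Submodule.finrank_mono h3
    omega
  have h1 := efull_local_gen (EE := EE) (κ := Fin n) (κ' := Fin n') (m₁ := r - (n + n'))
    (E := r - S - n) hs he
    (by rw [Fintype.card_sum, Fintype.card_fin, Fintype.card_fin]; omega)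
    (by rw [Fintype.card_fin]; omega) (by rw [Fintype.card_fin]; omega)
    hpl hθl hθb hF h hc Z hZ Z' (by
      intro i j
      rcases hZ' i with hz | ⟨E, hE, hz⟩
      · exact mgrad_xi hF hz j
      · rw [← hz]
        exact mgrad_E hF (hEk E hE) j) (by
      intro i O δ l' hA hEE
      rcases hZ' i with ⟨a, b, hab⟩ | ⟨E, hE, hz⟩
      · rw [hab]
        exact (wt_mxi (X := X) (p := p) a b) O δ l' hA
      · rw [← hz]
        exact wt_E hE O δ l' hA hEE) (by
      refine (mker_le_span hl).trans ?_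
      rw [Submodule.span_le]
      rintro z (hz | hz)
      · exact Submodule.subset_span (Or.inr hz)
      · refine Submodule.span_mono ?_ (hspan' z (Or.inl hz))
        refine Set.subset_union_of_subset_left (Set.insert_subset_insert ?_) _
        rw [Set.Sum.elim_range]
        exact Set.subset_union_right) hli (by
      intro f m hme j
      rw [← Dmc_p hpl, ← hrange]
      exact hspan _ ⟨f, m, j, hme, rfl⟩)
  obtain ⟨J, hJ0, hJ⟩ := h1
  have hd1 : 0 < d f₀ := by have := he f₀; omega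
  have h2 : 0 < d f₀ * (r - S - n) := Nat.mul_pos hd1 (by omega)
  obtain ⟨E', hE'⟩ : ∃ E', d f₀ * (r - S - n) = E' + 1 := ⟨_, (Nat.sub_add_cancel h2).symm⟩
  rw [hE', Fintype.card_fin] at hJ
  refine ⟨E', J, hJ0, ?_⟩
  have h3 : d f₀ ≤ ∑ j, d j := Finset.single_le_sum (f := d) (fun _ _ => Nat.zero_le _)
    (Finset.mem_univ f₀)
  have h4 : 2 * s * d f₀ ≤ 2 * s * ∑ j, d j := Nat.mul_le_mul le_rfl h3
  intro O δ l' hA hEE
  have h5 := hA.mul_mem (2 * s * (∑ j, d j) + r - (2 * s * d f₀ + (r - (n + n') - n)))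
    (hJ O δ l' hA hEE)
  rwa [Nat.add_sub_cancel' (by omega)] at h5

end FullGen

section Empty

variable {s q : ℕ} {d : Fin q → ℕ} {γ : Type w'} {M : Type u} [Field M] [CharZero M]
  {β : Type} [IsEmpty β] {X : DData (MIdx s q d) γ M} {p : Fin s → M} {g : β → Fin q}
  {EE : Set (Derivation ℤ M M)} {l : Fin s}

/-- full contact when all forms vanish at the point: a line of zeros or a local bound -/
theorem full_empty {τ r S : ℕ} (hs : q + r + 1 = s) (hS : 2 * S ≤ r + τ) (hd1 : ∀ j, 1 ≤ d j)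
    (hd : ∑ j, d j + S = 2 * r + q + 1) (L : LogData X p g EE) (hpl : p l = 1)
    (hEW : ∀ E : Derivation ℤ M M, (∀ j I, E (mA X j I) = 0) →
      lD X p g E ∈ Submodule.span M (insert (lp d p g) ((fun E => lD X p g E) '' EE)))
    (Ev : Fin τ → Derivation ℤ M M) (hEv : ∀ i j I, Ev i (mA X j I) = 0)
    (hEvli : LinearIndependent M (fun i => lD X p g (Ev i))) (h : FullN X p g EE l S) :
    (∃ J : M, J ≠ 0 ∧ LBl X p g EE (2 * s * (∑ j, d j) + r) 1 J) ∨
      ∃ y : Fin s → M, (∃ i j, plu p y i j ≠ 0) ∧ ExcLine d (fun j => mA X j) p y := by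
  classical
  obtain ⟨θ, b, hθl, hθb, ⟨w, hw0, hw, hg⟩, N, hpN, hN, hS1, hm⟩ := h
  have hl : p l ≠ 0 := by rw [hpl]; exact one_ne_zero
  have hF : ∀ j, Fval (d j) (mA X j) p = 0 := fun j => L.hA j fun b => isEmptyElim b
  set al := w l with hal
  set ga := w b - p b * w l with hga
  have hne : al ≠ 0 ∨ ga ≠ 0 := by
    by_contra hcon
    push Not at hcon
    apply hw0
    rw [hw, hcon.1, hcon.2]
    simp
  have hval : ∀ f, (lineP (d f) (mA X f) p θ).eval 0 = 0 := by
    intro f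
    rw [eval_lineP]
    have h1 : (fun j => p j + θ j * 0) = p := by
      funext j
      ring
    rw [h1]
    exact hF f
  have hpure : ∀ f, ∃ c, lineP (d f) (mA X f) p θ = C c * Polynomial.X ^ (d f) := by
    intro f
    rcases ode_sol hne (full_ode hw (hg f)) with ⟨-, h1⟩ | ⟨h0, c, h1⟩
    · refine ⟨0, ?_⟩
      rw [h1, hval, C_0, zero_mul]
    · by_cases hb0 : ga / al = 0
      · refine ⟨c, ?_⟩
        rw [h1, hb0, C_0, sub_zero]
      · refine ⟨0, ?_⟩
        have h2 := hval f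
        rw [h1] at h2
        simp only [eval_mul, eval_C, eval_pow, eval_sub, eval_X, zero_sub, mul_eq_zero,
          pow_eq_zero_iff', neg_eq_zero] at h2
        rcases h2 with h2 | ⟨h2, -⟩
        · rw [h1, h2, C_0, zero_mul, zero_mul]
        · exact absurd h2 hb0
  choose c hc using hpure
  by_cases hc0 : ∀ f, c f = 0
  · right
    refine ⟨θ, ⟨l, b, ?_⟩, fun f _ u v => ?_, ?_⟩
    · show p l * θ b - p b * θ l ≠ 0
      rw [hpl, hθb, hθl]
      simp
    · have h1 : lineP (d f) (mA X f) p θ = 0 := by rw [hc, hc0, C_0, zero_mul]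
      exact Fval_comb (d f) (mA X f) h1 inferInstance u v
    · have h1 : restP d (fun j => mA X j) p θ = 1 := by
        unfold restP
        refine Finset.prod_eq_one fun j hj => ?_
        rw [Finset.mem_filter] at hj
        exact absurd (hF j) hj.2
      rw [h1]
      simp
  · left
    push Not at hc0
    obtain ⟨f₀, hf₀⟩ := hc0
    -- the projection to the first coordinates
    let φ : (Fin s ⊕ β → M) →ₗ[M] (Fin s → M) :=
      { toFun := fun v k => v (Sum.inl k)
        map_add' := fun _ _ => rfl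
        map_smul' := fun _ _ => rfl }
    have hφ : Function.Injective φ := by
      intro v v' h
      funext i
      rcases i with k | b
      · exact congrFun h k
      · exact isEmptyElim b
    have hφD : ∀ D : Derivation ℤ M M, φ (lD X p g D) = fun k => D (p k) := fun D => rfl
    have hφz : ∀ f m u v, φ (lzeta X p g f m u v) = zeta (mD X f) p m u v := by
      intro f m u v
      rfl
    have hφξ : ∀ u v, φ (lxi X p g u v) = mxi X p u v := by
      intro u v
      funext k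
      simp only [lxi, mxi, φ, LinearMap.coe_mk, AddHom.coe_mk, Pi.add_apply, Sum.elim_inl,
        Finset.sum_apply, Pi.smul_apply, smul_eq_mul, lD]
    obtain ⟨E', J, hJ0, hJ⟩ := elocal_full (X := X) (p := p) (EE := EE) (τ := τ) (r := r) (S := S)
      (e := fun j => d j - 1) (b := b) hs hS (fun j => Nat.sub_add_cancel (hd1 j)) hd hF hpl hθl hθb
      (hc f₀) hf₀ (N.map φ) ⟨_, hpN, rfl⟩ ((Submodule.finrank_map_le φ N).trans hN) (by
        rintro z ⟨u, v, rfl⟩
        exact ⟨_, hS1 _ (Or.inl ⟨u, v, rfl⟩), hφξ u v⟩) L.hEE (fun E hE =>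
        ⟨_, hS1 _ (Or.inr (Or.inr ⟨E, hE, rfl⟩)), hφD E⟩)
      (fun i k => Ev i (p k)) (by
        intro i
        have h1 := Submodule.mem_map_of_mem (f := φ) (hEW _ (hEv i))
        rw [hφD, Submodule.map_span] at h1
        refine Submodule.span_mono ?_ h1
        rintro _ ⟨_, (rfl | ⟨E, hE, rfl⟩), rfl⟩
        · exact Set.mem_insert _ _
        · exact Set.mem_insert_of_mem _ ⟨E, hE, rfl⟩) (fun i => by
        show Ev i (p l) = 0
        rw [hpl]
        exact Derivation.map_one_eq_zero _)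
      (hEvli.map' φ (LinearMap.ker_eq_bot.mpr hφ)) (by
        intro f m hme j
        exact ⟨_, hm f m hme j, by rw [map_sub, map_smul, hφz, hφz]⟩)
    have h1 : ∃ J : M, J ≠ 0 ∧ LBl X p g EE (2 * s * (∑ j, d j) + r) (E' + 1) J :=
      ⟨J, hJ0, fun O δ l' hA => hJ O δ l' hA.toAdm hA.hE⟩
    exact lower_one hl h1

end Empty

end Pool.Agent.Lib.MP_44a246_ntT
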