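import Mathlib
import Pool.Agent.Lib.MP_44a246_ntT.TFull
import Pool.Agent.Lib.MP_44a246_ntT.TBig

/-!
The local bound: all cases.
-/

namespace Pool.Agent.Lib.MP_44a246_ntT

open Pool.Agent.Lib.MP_e52354_nt
open Pool.Agent.Lib.MP_e52354_ntG
open Pool.Agent.Lib.MP_e52354_ntC
open Pool.Agent.Lib.MP_e52354_ntI
open Pool.Agent.Lib.MP_44a246_ntL (ExcLine restP)
open Polynomial

universe u w w'

section All

variable {s q : ℕ} {d : Fin q → ℕ} {γ : Type w'} {M : Type u} [Field M]
  {X : DData (MIdx s q d) γ M} {p : Fin s → M}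

/-- the data for all forms not vanishing at the point -/
theorem logData_all (X : DData (MIdx s q d) γ M) (p : Fin s → M) {EE : Set (Derivation ℤ M M)}
    (hEE : ∀ E ∈ EE, ∀ j I, E (mA X j I) = 0) :
    LogData X p (Subtype.val : {j : Fin q // zv X p j ≠ 0} → Fin q) EE where
  hg := Subtype.val_injective
  hz := fun b => b.2
  hA := fun j h => by
    by_contra hcon
    exact h ⟨j, hcon⟩ rfl
  hEE := hEE

open Classical in
/-- The local bound for all points which are not on an exceptional line. -/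
theorem llocal_all [CharZero M] {EE : Set (Derivation ℤ M M)} {τ : ℕ} {l : Fin s} (hpl : p l = 1)
    (hd1 : ∀ j, 1 ≤ d j)
    (hEE : ∀ E ∈ EE, ∀ j I, E (mA X j I) = 0)
    (hEW : ∀ E : Derivation ℤ M M, (∀ j I, E (mA X j I) = 0) →
      lD X p (Subtype.val : {j : Fin q // zv X p j ≠ 0} → Fin q) E ∈ Submodule.span M
        (insert (lp d p (Subtype.val : {j : Fin q // zv X p j ≠ 0} → Fin q))
          ((fun E => lD X p (Subtype.val : {j : Fin q // zv X p j ≠ 0} → Fin q) E) '' EE)))
    (Ev : Fin τ → Derivation ℤ M M) (hEv : ∀ i j I, Ev i (mA X j I) = 0)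
    (hEvli : LinearIndependent M
      (fun i => lD X p (Subtype.val : {j : Fin q // zv X p j ≠ 0} → Fin q) (Ev i)))
    (hk : (s : ℤ) - 1 - (Fintype.card {j : Fin q // zv X p j = 0} : ℤ) <
      2 * ((∑ j, (d j : ℤ)) - s) + τ) :
    (∃ J : M, J ≠ 0 ∧ LBl X p (Subtype.val : {j : Fin q // zv X p j ≠ 0} → Fin q) EE
      (2 * (s + q) + (2 * s * (∑ j, d j) + s)) 1 J) ∨
      (∑ j, d j + Fintype.card {j : Fin q // zv X p j = 0} + 1 ≤ 2 * s ∧
      (BLine X p (Subtype.val : {j : Fin q // zv X p j ≠ 0} → Fin q) EE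
        (2 * (s + q) + (2 * s * (∑ j, d j) + s)) ∨
      ∃ y : Fin s → M, (∃ i j, plu p y i j ≠ 0) ∧ ExcLine d (fun j => mA X j) p y)) := by
  have hl : p l ≠ 0 := by rw [hpl]; exact one_ne_zero
  set g : {j : Fin q // zv X p j ≠ 0} → Fin q := Subtype.val with hg
  have L : LogData X p g EE := logData_all X p hEE
  set qA := Fintype.card {j : Fin q // zv X p j = 0} with hqA
  have hq : qA + Fintype.card {j : Fin q // zv X p j ≠ 0} = q := by
    have h1 := Fintype.card_subtype_compl (fun j : Fin q => zv X p j = 0)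
    have h2 := Fintype.card_subtype_le (fun j : Fin q => zv X p j = 0)
    rw [Fintype.card_fin] at h1 h2
    have h3 : Fintype.card {j : Fin q // zv X p j ≠ 0} =
        Fintype.card {j : Fin q // ¬ zv X p j = 0} := rfl
    omega
  have hβq : Fintype.card {j : Fin q // zv X p j ≠ 0} ≤ q := by omega
  have hfr := finrank_lTT L hl
  have hpos : 1 ≤ Module.finrank M (lTT X p g) := by
    have hp0 : (⟨lp d p g, mem_lTT.mpr fun j => lgr_p L j⟩ : lTT X p g) ≠ 0 := by
      intro h
      have h1 := congrArg (fun z : lTT X p g => z.1 (Sum.inl l)) h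
      simp only [lp, Sum.elim_inl] at h1
      exact hl h1
    have : Nontrivial (lTT X p g) := ⟨⟨_, 0, hp0⟩⟩
    exact Module.finrank_pos
  have hqs : qA + 1 ≤ s := by omega
  obtain ⟨r, hr⟩ : ∃ r, qA + r + 1 = s := ⟨s - 1 - qA, by omega⟩
  have hτr : τ ≤ r := tau_le_of_span (g := g) hpl (lTT X p g) (by omega)
    (mem_lTT.mpr fun j => lgr_p L j) Ev (fun i => mem_lTT.mpr fun j => by
      rw [lgr_lD L, Finset.sum_eq_zero, neg_zero]
      intro I _
      rw [hEv, zero_mul]) hEvli
  have hsum : (∑ j, (d j : ℤ)) = ((∑ j, d j : ℕ) : ℤ) := by push_cast; rfl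
  rw [hsum] at hk
  have hmono : ∀ {c : ℕ} {J : M}, c ≤ 2 * (s + q) → LBl X p g EE c 1 J →
      LBl X p g EE (2 * (s + q) + (2 * s * (∑ j, d j) + s)) 1 J := by
    intro c J hc h
    have := h.mono_c (2 * (s + q) + (2 * s * (∑ j, d j) + s) - c)
    rwa [Nat.add_sub_cancel' (by omega)] at this
  have hmonoB : BLine X p g EE (2 * (s + Fintype.card {j : Fin q // zv X p j ≠ 0})) →
      BLine X p g EE (2 * (s + q) + (2 * s * (∑ j, d j) + s)) := by
    intro h
    have := h.mono (2 * (s + q) + (2 * s * (∑ j, d j) + s) -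
      2 * (s + Fintype.card {j : Fin q // zv X p j ≠ 0}))
    rwa [Nat.add_sub_cancel' (by omega)] at this
  rcases Nat.eq_zero_or_pos r with hr0 | hr0
  · -- dimension zero
    left
    subst hr0
    obtain ⟨E, hE⟩ : ∃ E, ∑ j, d j = E + 1 + (qA + 1) :=
      ⟨∑ j, d j - 1 - (qA + 1), by omega⟩
    obtain ⟨J, hJ0, hJ⟩ := lower_one hl (llocal_zero hq (by omega) L hl hE)
    exact ⟨J, hJ0, hmono (by omega) hJ⟩
  · rcases Nat.lt_or_ge (∑ j, d j) (2 * r + qA + 1) with hlt | hge
    · obtain ⟨S, hS⟩ : ∃ S, ∑ j, d j + S = 2 * r + qA + 1 :=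
        ⟨2 * r + qA + 1 - ∑ j, d j, by omega⟩
      have hSr : 2 * S + 1 ≤ r + τ := by omega
      rcases llocal_gen hq hr hSr hd1 hS L hpl hEW Ev hEv hEvli with ⟨J, hJ0, hJ⟩ | h | h
      · left
        exact ⟨J, hJ0, hmono (by omega) hJ⟩
      · right
        exact ⟨by omega, Or.inl (hmonoB h)⟩
      · rcases isEmpty_or_nonempty {j : Fin q // zv X p j ≠ 0} with hβ | hβ
        · have hqq : qA = q := by
            have : Fintype.card {j : Fin q // zv X p j ≠ 0} = 0 := Fintype.card_eq_zero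
            omega
          rcases full_empty (τ := τ) (r := r) (S := S) (by omega) (by omega) hd1 (by omega) L hpl
              hEW Ev hEv hEvli h with
            ⟨J, hJ0, hJ⟩ | h
          · left
            refine ⟨J, hJ0, ?_⟩
            have h1 := hJ.mono_c
              (2 * (s + q) + (2 * s * (∑ j, d j) + s) - (2 * s * (∑ j, d j) + r))
            rwa [Nat.add_sub_cancel' (by omega)] at h1
          · right
            exact ⟨by omega, Or.inr h⟩
        · right
          exact ⟨by omega, Or.inr (fullC_exc L hd1 hpl h.fullC)⟩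
    · obtain ⟨E, hE⟩ : ∃ E, ∑ j, d j = E + (2 * r + qA + 1) :=
        ⟨∑ j, d j - (2 * r + qA + 1), by omega⟩
      rcases Nat.eq_zero_or_pos E with hE0 | hE0
      · rcases llocal_big hq hr hr0 L hl hE with ⟨J, hJ0, hJ⟩ | h
        · left
          exact ⟨J, hJ0, hmono (by omega) hJ⟩
        · right
          exact ⟨by omega, Or.inl (hmonoB h)⟩
      · left
        obtain ⟨E', rfl⟩ : ∃ E', E = E' + 1 := ⟨E - 1, by omega⟩
        obtain ⟨J, hJ0, hJ⟩ := llocal_huge hq hr hr0 L hl hE
        exact ⟨J, hJ0, hmono (by omega) hJ⟩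

end All

end Pool.Agent.Lib.MP_44a246_ntT
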