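import Mathlib
import Pool.Agent.Lib.MP_e52354_ntE.Elim

/-!
Elimination over a base field: a system of forms in `θ` whose coefficients are polynomials in `x`
over `k`. If it has no nontrivial zero at a point `x₀` over an algebraically closed field, then it
has no nontrivial zero at any point, over any field, outside the zero set of a polynomial over `k`
which does not vanish at `x₀`.
-/

namespace Pool.Agent.Lib.MP_44a246_ntT

open MvPolynomial
open Pool.Agent.Lib.MP_e52354_ntE

/-- evaluation of the coefficients -/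
noncomputable def evH {k Ω σ : Type*} [Field k] [Field Ω] [Algebra k Ω] (x : σ → Ω) :
    MvPolynomial σ k →+* Ω := (aeval x : MvPolynomial σ k →ₐ[k] Ω)

theorem evH_apply {k Ω σ : Type*} [Field k] [Field Ω] [Algebra k Ω] (x : σ → Ω)
    (p : MvPolynomial σ k) : evH x p = aeval x p := rfl

/-- a spanning family of vectors in `S → Ω` contains a square matrix with nonzero determinant -/
theorem exists_det_ne_zero {Ω S ρ : Type*} [Field Ω] [Fintype S] [DecidableEq S]
    (v : ρ → S → Ω) (hv : Submodule.span Ω (Set.range v) = ⊤) :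
    ∃ f : S → ρ, (Matrix.of fun μ ν => v (f μ) ν).det ≠ 0 := by
  classical
  obtain ⟨κ, a, -, ha2, ha3⟩ := exists_linearIndependent' Ω v
  rw [hv] at ha2
  let b : Module.Basis κ Ω (S → Ω) := Module.Basis.mk ha3 (by rw [ha2])
  have hκ : Fintype κ := FiniteDimensional.fintypeBasisIndex b
  let e : S ≃ κ := (Pi.basisFun Ω S).indexEquiv b
  refine ⟨fun μ => a (e μ), ?_⟩
  have h1 : LinearIndependent Ω (fun μ : S => v (a (e μ))) := ha3.comp e e.injective
  have h2 : IsUnit (Matrix.of fun μ ν => v (a (e μ)) ν) := by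
    rw [← Matrix.linearIndependent_rows_iff_isUnit]
    exact h1
  rw [Matrix.isUnit_iff_isUnit_det] at h2
  exact h2.ne_zero

theorem elimB {k Ω₀ : Type*} [Field k] [Field Ω₀] [IsAlgClosed Ω₀] [Algebra k Ω₀]
    {σ τ ι : Type*} [Fintype τ] [Fintype ι]
    (G : ι → MvPolynomial τ (MvPolynomial σ k)) (e : ι → ℕ)
    (he : ∀ i, (G i).IsHomogeneous (e i)) (x₀ : σ → Ω₀)
    (h0 : ∀ θ : τ → Ω₀, (∀ i, eval θ (map (evH x₀) (G i)) = 0) → θ = 0) :
    ∃ H : MvPolynomial σ k, aeval x₀ H ≠ 0 ∧ ∀ (Ω : Type*) [Field Ω] [Algebra k Ω] (x : σ → Ω),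
      aeval x H ≠ 0 → ∀ θ : τ → Ω, (∀ i, eval θ (map (evH x) (G i)) = 0) → θ = 0 := by
  classical
  rcases isEmpty_or_nonempty τ with hτ | hτ
  · exact ⟨1, by simp, fun Ω _ _ x _ θ _ => Subsingleton.elim _ _⟩
  have hg : ∀ i, (map (evH x₀) (G i)).IsHomogeneous (e i) := fun i => (he i).map _
  obtain ⟨r, hr⟩ := exists_pow_mem (fun i => map (evH x₀) (G i)) h0
  set R : ℕ := Fintype.card τ * r with hR
  -- the monomials of degree `R`
  let S : Finset (τ →₀ ℕ) := (Finset.univ : Finset τ).finsuppAntidiag R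
  have hS : ∀ μ : τ →₀ ℕ, μ ∈ S ↔ μ.degree = R := by
    intro μ
    simp only [S, Finset.mem_finsuppAntidiag, Finset.subset_univ, and_true]
    rw [deg_sum]
  have hmem : ∀ μ : τ →₀ ℕ, μ.degree = R →
      (monomial μ 1 : MvPolynomial τ Ω₀) ∈ Ideal.span (Set.range fun i => map (evH x₀) (G i)) := by
    intro μ hμ
    have h1 : ∃ b, r ≤ μ b := by
      by_contra hcon
      push Not at hcon
      have h2 : μ.degree < Fintype.card τ * r := by
        rw [deg_sum, ← smul_eq_mul, ← Finset.card_univ, ← Finset.sum_const]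
        exact Finset.sum_lt_sum_of_nonempty Finset.univ_nonempty fun b _ => hcon b
      omega
    obtain ⟨b, hb⟩ := h1
    have h2 : (monomial μ 1 : MvPolynomial τ Ω₀) =
        monomial (μ - Finsupp.single b r) 1 * X b ^ r := by
      rw [X_pow_eq_monomial, monomial_mul, one_mul, tsub_add_cancel_of_le]
      exact Finsupp.single_le_iff.mpr hb
    rw [h2]
    exact Ideal.mul_mem_left _ _ (hr b)
  -- the rows: a multiple of one of the forms by a monomial, of degree `R`
  let ρ : Type _ := {t : ι × (τ →₀ ℕ) // t.2.degree + e t.1 = R}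
  let P : ρ → MvPolynomial τ (MvPolynomial σ k) := fun t => monomial t.1.2 1 * G t.1.1
  let v : ρ → S → Ω₀ := fun t ν => coeff ν.1 (map (evH x₀) (P t))
  have hv : Submodule.span Ω₀ (Set.range v) = ⊤ := by
    -- the coefficient map
    let Λ : MvPolynomial τ Ω₀ →ₗ[Ω₀] (S → Ω₀) := LinearMap.pi fun ν => lcoeff Ω₀ ν.1
    have hΛ : ∀ p ν, Λ p ν = coeff ν.1 p := fun p ν => rfl
    have hrow : ∀ i (c : MvPolynomial τ Ω₀), c.IsHomogeneous (R - e i) → e i ≤ R →
        Λ (c * map (evH x₀) (G i)) ∈ Submodule.span Ω₀ (Set.range v) := by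
      intro i c hc hei
      have h1 : c * map (evH x₀) (G i) =
          ∑ μ ∈ c.support, coeff μ c • (monomial μ 1 * map (evH x₀) (G i)) := by
        conv_lhs => rw [c.as_sum, Finset.sum_mul]
        refine Finset.sum_congr rfl fun μ _ => ?_
        rw [← smul_mul_assoc, smul_monomial, smul_eq_mul, mul_one]
      rw [h1, map_sum]
      refine Submodule.sum_mem _ fun μ hμ => ?_
      rw [map_smul]
      refine Submodule.smul_mem _ _ (Submodule.subset_span ?_)
      have h2 : μ.degree = R - e i := by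
        have := hc (mem_support_iff.mp hμ)
        rw [← this, Finsupp.degree_eq_weight_one]
        rfl
      refine ⟨⟨(i, μ), by simp only; omega⟩, ?_⟩
      funext ν
      show coeff ν.1 (map (evH x₀) (monomial μ 1 * G i)) = _
      rw [hΛ, map_mul, map_monomial, map_one]
    rw [eq_top_iff]
    rintro y -
    rw [← (Pi.basisFun Ω₀ S).sum_repr y]
    refine Submodule.sum_mem _ fun μ _ => Submodule.smul_mem _ _ ?_
    obtain ⟨c, hc⟩ := Ideal.mem_span_range_iff_exists_fun.mp (hmem μ.1 ((hS μ.1).mp μ.2))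
    have h1 := congrArg (homogeneousComponent R) hc
    rw [map_sum] at h1
    have h2 : homogeneousComponent R (monomial μ.1 (1 : Ω₀)) = monomial μ.1 1 := by
      apply homogeneousComponent_eq_self
      exact isHomogeneous_monomial _ ((hS μ.1).mp μ.2)
    rw [h2] at h1
    have h3 : (Pi.basisFun Ω₀ S) μ = Λ (monomial μ.1 1) := by
      funext ν
      rw [Pi.basisFun_apply, hΛ, coeff_monomial, Pi.single_apply]
      by_cases h : ν = μ
      · rw [if_pos h, if_pos (congrArg Subtype.val h.symm)]
      · rw [if_neg h, if_neg (fun h' => h (Subtype.ext h').symm)]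
    rw [h3, ← h1, map_sum]
    refine Submodule.sum_mem _ fun i _ => ?_
    rw [hom_comp_mul _ _ (hg i)]
    split_ifs with h
    · exact hrow i _ (homogeneousComponent_isHomogeneous _ _) h
    · rw [zero_mul, map_zero]
      exact Submodule.zero_mem _
  obtain ⟨f, hf⟩ := exists_det_ne_zero v hv
  let M : Matrix S S (MvPolynomial σ k) := Matrix.of fun μ ν => coeff ν.1 (P (f μ))
  have hM : (evH x₀).mapMatrix M =
      Matrix.of fun μ ν => coeff ν.1 (map (evH x₀) (P (f μ))) := by
    funext μ ν
    show evH x₀ (coeff ν.1 (P (f μ))) = coeff ν.1 (map (evH x₀) (P (f μ)))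
    rw [coeff_map]
  refine ⟨M.det, ?_, ?_⟩
  · rw [← evH_apply, RingHom.map_det, hM]
    exact hf
  · intro Ω _ _ x hx θ hθ
    rw [← evH_apply, RingHom.map_det] at hx
    have hM' : (evH x).mapMatrix M =
        Matrix.of fun μ ν => coeff ν.1 (map (evH x) (P (f μ))) := by
      funext μ ν
      show evH x (coeff ν.1 (P (f μ))) = coeff ν.1 (map (evH x) (P (f μ)))
      rw [coeff_map]
    have hPh' : ∀ t : ρ, (map (evH x) (P t)).IsHomogeneous R := by
      intro t
      have h1 : (P t).IsHomogeneous R := by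
        have h2 : (P t).IsHomogeneous (t.1.2.degree + e t.1.1) :=
          (isHomogeneous_monomial _ rfl).mul (he t.1.1)
        rwa [t.2] at h2
      exact h1.map _
    rw [hM'] at hx
    have h1 : Matrix.mulVec (Matrix.of fun μ ν : S => coeff ν.1 (map (evH x) (P (f μ))))
        (fun ν : S => ∏ b, θ b ^ ν.1 b) = 0 := by
      funext μ
      show ∑ ν : S, coeff ν.1 (map (evH x) (P (f μ))) * ∏ b, θ b ^ ν.1 b = 0
      rw [← eval_deg (fun μ hμ => (hS μ).mpr hμ) _ (hPh' (f μ)) θ, map_mul, map_mul, hθ, mul_zero]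
    have h2 := Matrix.eq_zero_of_mulVec_eq_zero hx h1
    funext b
    have hb : Finsupp.single b R ∈ S := by
      rw [hS, Finsupp.degree_single]
    have h3 := congrFun h2 ⟨_, hb⟩
    simp only [Pi.zero_apply] at h3
    rw [Finset.prod_eq_zero_iff] at h3
    obtain ⟨b', _, hb'⟩ := h3
    by_cases hbb : b' = b
    · subst hbb
      rw [Finsupp.single_eq_same] at hb'
      exact pow_eq_zero_iff (n := R) (fun hR0 => by
        rw [hR0, pow_zero] at hb'
        exact one_ne_zero hb') |>.mp hb'
    · rw [Finsupp.single_eq_of_ne hbb, pow_zero] at hb'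
      exact absurd hb' one_ne_zero

end Pool.Agent.Lib.MP_44a246_ntT
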