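import Mathlib
import Pool.Agent.Lib.MP_44a246_ntL.LThree

/-!
Points on lines of bounded height: uniform constants.
-/

namespace Pool.Agent.Lib.MP_44a246_ntT

open Pool.Agent.Lib.MP_e52354_nt
open Pool.Agent.Lib.MP_e52354_ntG
open Pool.Agent.Lib.MP_44a246_nt
open Pool.Agent.Lib.MP_44a246_ntL
open WithZero

universe w

theorem line_bound_MU {κ K : Type*} [Field κ] [IsAlgClosed κ] [CharZero κ] [Field K] [Algebra κ K]
    (hK : IsFF κ K) {s q : ℕ} (d : Fin q → ℕ) (a : Fin q → (Fin s →₀ ℕ) → K)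
    {S : Set (Place κ K)} (hS : S.Finite) :
    ∃ C : ℕ, ∀ (L M : Type w) [Field L] [Algebra κ L] [Algebra K L] [IsScalarTower κ K L]
      [FiniteDimensional K L] [Field M] [Algebra κ M] [Algebra K M] [Algebra L M]
      [IsScalarTower κ K M] [IsScalarTower κ L M] [IsScalarTower K L M]
      [FiniteDimensional K M] [FiniteDimensional L M] (x p' : Fin s → L) (i₀ j₀ : Fin s),
      plu x p' i₀ j₀ ≠ 0 →
      ∀ (ρ : Fin 3 → M) (f : Fin 3 → Fin q), (∀ i j, i ≠ j → ρ i ≠ ρ j) →
      (⨆ i, IntermediateField.adjoin L {ρ i} = ⊤) →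
      (∀ i, Fval (d (f i)) (fun I => algebraMap K M (a (f i) I))
        (fun k => algebraMap L M (p' k) + algebraMap L M (x k) * ρ i) = 0) →
      (∀ i, Fval (d (f i)) (fun I => algebraMap K L (a (f i) I)) x ≠ 0) →
      height κ x ≤ (Module.finrank L M : ℤ) * ((15 * ((∑ j, d j : ℕ) : ℤ) + 18) *
        (height κ (pluV x p') + ((meetSet (κ := κ) d a S x).ncard : ℤ) + (ramDeg κ L K : ℤ)) +
          (C : ℤ) * Module.finrank K L) := by
  classical
  choose C₁ hC₁ using fun j => line_root_height.{w} hK (d j) (a j)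
  obtain ⟨C₂, hC₂⟩ := cross_main.{w} hK d a hS
  set D : ℕ := ∑ j, d j with hD
  set E : ℕ := ∑ j, C₁ j with hE
  refine ⟨15 * E + C₂, ?_⟩
  intro L M _ _ _ _ _ _ _ _ _ _ _ _ _ _ x p' i₀ j₀ hplu ρ f hρ hgen hroot hne
  have hL : IsFF κ L := hK.of_finite
  have hM : IsFF κ M := hK.of_finite
  -- the data over `M`
  set X : Fin s → M := fun k => algebraMap L M (x k) with hX
  set P : Fin s → M := fun k => algebraMap L M (p' k) with hP
  set Q : Fin 3 → Fin s → M := fun i k => algebraMap L M (p' k) + algebraMap L M (x k) * ρ i with hQ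
  have hx0 : x ≠ 0 := by
    rintro rfl
    apply hplu
    simp [plu]
  have hpV : pluV x p' ≠ 0 := fun h => hplu (congrFun h (i₀, j₀))
  have hXP : ∀ i j, plu X P i j = algebraMap L M (plu x p' i j) := by
    intro i j
    simp only [plu, hX, hP, map_sub, map_mul]
  have hXPn : plu X P i₀ j₀ ≠ 0 := by
    rw [hXP]
    exact (_root_.map_ne_zero _).2 hplu
  have hQX : ∀ i k l, plu (Q i) X k l = -algebraMap L M (plu x p' k l) := by
    intro i k l
    simp only [plu, hX, hQ, map_sub, map_mul]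
    ring
  have hQQ : ∀ i j, i ≠ j → plu (Q i) (Q j) i₀ j₀ ≠ 0 := by
    intro i j hij hcon
    have h1 : plu (Q i) (Q j) i₀ j₀ = (ρ i - ρ j) * algebraMap L M (plu x p' i₀ j₀) := by
      simp only [plu, hQ, map_sub, map_mul]
      ring
    rw [h1] at hcon
    rcases mul_eq_zero.1 hcon with h2 | h2
    · exact hρ i j hij (sub_eq_zero.1 h2)
    · exact hplu ((_root_.map_eq_zero _).1 h2)
  have hQline : ∀ i, ∃ α β : M, Q i = fun k => X k * α + P k * β := by
    intro i
    refine ⟨ρ i, 1, ?_⟩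
    funext k
    simp only [hQ, hX, hP]
    ring
  have hneX : ∀ i, Fval (d (f i)) (fun I => algebraMap K M (a (f i) I)) X ≠ 0 := by
    intro i
    have h1 : (fun I => algebraMap K M (a (f i) I)) =
        fun I => algebraMap L M (algebraMap K L (a (f i) I)) := by
      funext I
      exact IsScalarTower.algebraMap_apply K L M _
    rw [h1, Fval_map]
    exact (_root_.map_ne_zero _).2 (hne i)
  -- heights of the three points
  set N : ℤ := (Module.finrank L M : ℤ) with hN
  have hN1 : 1 ≤ N := by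
    have : 0 < Module.finrank L M := Module.finrank_pos
    omega
  set h := height κ (pluV x p') with hh
  have hh0 : 0 ≤ h := hL.height_nonneg hpV
  set e : ℤ := (Module.finrank K L : ℤ) with he
  have he0 : 0 ≤ e := by (clear * -; positivity)
  have hKM : (Module.finrank K M : ℤ) = e * N := by
    rw [he, hN, ← Nat.cast_mul, Module.finrank_mul_finrank]
  have hpluM : height κ (pluV X P) = N * h := by
    have h1 : pluV X P = fun ij => algebraMap L M (pluV x p' ij) := by
      funext ij
      exact hXP ij.1 ij.2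
    rw [h1, hM.height_ext hpV]
  have hpluQ : ∀ i, height κ (pluV (Q i) X) = N * h := by
    intro i
    have h1 : pluV (Q i) X = fun ij => (-1 : M) * algebraMap L M (pluV x p' ij) := by
      funext ij
      rw [neg_one_mul]
      exact hQX i ij.1 ij.2
    rw [h1, hM.height_smul (x := fun ij => algebraMap L M (pluV x p' ij)) (neg_ne_zero.2 one_ne_zero),
      hM.height_ext hpV]
  have hQne : ∀ i, Q i ≠ 0 := by
    intro i hcon
    have h1 := hQX i i₀ j₀
    rw [hcon] at h1
    apply hplu
    have h2 : plu (0 : Fin s → M) X i₀ j₀ = 0 := by simp [plu]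
    rw [h2] at h1
    exact (_root_.map_eq_zero _).1 (neg_eq_zero.1 h1.symm)
  have hQheight : ∀ i, height κ (Q i) ≤ N * (((D : ℤ) + 1) * h + E * e) := by
    intro i
    have h1 := hC₁ (f i) M (Q i) X ⟨i₀, j₀, by
      rw [hQX]
      exact neg_ne_zero.2 ((_root_.map_ne_zero _).2 hplu)⟩ (hroot i) ⟨0, 1, by
      have h2 : (fun k => Q i k * 0 + X k * 1) = X := by
        funext k
        ring
      rw [h2]
      exact hneX i⟩
    rw [hpluQ, hKM] at h1
    have h3 : (d (f i) : ℤ) ≤ D := by
      have : d (f i) ≤ D := Finset.single_le_sum (f := d) (fun _ _ => Nat.zero_le _) (Finset.mem_univ _)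
      exact_mod_cast this
    have h4 : (C₁ (f i) : ℤ) ≤ E := by
      have : C₁ (f i) ≤ E :=
        Finset.single_le_sum (f := C₁) (fun _ _ => Nat.zero_le _) (Finset.mem_univ _)
      exact_mod_cast this
    calc height κ (Q i) ≤ ((d (f i) : ℤ) + 1) * (N * h) + (C₁ (f i) : ℤ) * (e * N) := h1
      _ ≤ ((D : ℤ) + 1) * (N * h) + (E : ℤ) * (e * N) := by gcongr
      _ = _ := by ring
  have hsum : ∑ i, height κ (Q i) ≤ 3 * (N * (((D : ℤ) + 1) * h + E * e)) := by
    refine (Finset.sum_le_sum fun i _ => hQheight i).trans (le_of_eq ?_)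
    simp
  have hsum0 : 0 ≤ ∑ i, height κ (Q i) := Finset.sum_nonneg fun i _ => hM.height_nonneg (hQne i)
  -- ramification
  have hgen' : ⨆ i, pointField L (Q i) = ⊤ := by
    rw [eq_top_iff, ← hgen]
    refine iSup_mono fun i => ?_
    rw [IntermediateField.adjoin_simple_le_iff]
    exact mem_pointField hplu (ρ i)
  have hram := ram_points hL Q hQne hgen'
  have hram2 := ramDeg_trans (κ := κ) (K := K) (L := L) (M := M) hK
  -- the places
  have hmeet : ((meetSet (κ := κ) d a S X).ncard : ℤ) ≤ N * ((meetSet (κ := κ) d a S x).ncard : ℤ) := by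
    obtain ⟨hfin, hcard⟩ := ncard_above (κ := κ) (L := L) (M := M) hM (meetSet (κ := κ) d a S x)
      (meetSet_finite hK d a S hx0)
    have hsub : meetSet (κ := κ) d a S X ⊆ {w : Place κ M | below L w ∈ meetSet (κ := κ) d a S x} := by
      rintro w ⟨hw1, j, hj1, hj2⟩
      have h1 : (fun I => algebraMap K M (a j I)) =
          fun I => algebraMap L M (algebraMap K L (a j I)) := by
        funext I
        exact IsScalarTower.algebraMap_apply K L M _
      rw [h1, Fval_map] at hj1 hj2
      refine ⟨?_, j, fun h0 => hj1 (by rw [h0, map_zero]), ?_⟩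
      · rw [below_below]
        exact hw1
      · rw [below_pow] at hj2
        have he := one_le_ramIdx (K := L) w.1 w.2.1
        have h2 : vmax w.1 X = vmax (below L w).1 x ^ ramIdx L w.1 := by
          apply le_antisymm
          · refine vmax_le _ fun i => ?_
            rw [hX]
            simp only
            rw [below_pow]
            exact pow_le_pow_left₀ zero_le (le_vmax _ _ _) _
          · obtain ⟨l, -, hl, -⟩ := exists_vmax (below L w).1 hx0
            rw [hl, ← below_pow]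
            exact le_vmax w.1 X l
        rw [h2, ← pow_mul, mul_comm, pow_mul] at hj2
        exact lt_of_pow_lt_pow_left₀ _ zero_le hj2
    have h3 := Set.ncard_le_ncard hsub hfin
    have h4 := h3.trans hcard
    rw [hN]
    exact_mod_cast h4
  have hmain := hC₂ M X P i₀ j₀ hXPn Q f hQline hQQ hroot hneX
  rw [hpluM, hKM, hM.height_ext hx0] at hmain
  set m : ℤ := ((meetSet (κ := κ) d a S x).ncard : ℤ) with hm
  set R : ℤ := (ramDeg κ L K : ℤ) with hR
  have hm0 : 0 ≤ m := by positivity
  have hR0 : 0 ≤ R := by (clear * -; positivity)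
  have hram3 : (ramDeg κ M K : ℤ) ≤ (ramDeg κ M L : ℤ) + N * R := by
    rw [hN, hR]
    exact_mod_cast hram2
  set A : ℤ := ((D : ℤ) + 1) * h + E * e with hA
  have hA0 : 0 ≤ A := by (clear * - hh0; positivity)
  have hram4 : (ramDeg κ M L : ℤ) ≤ 6 * N * (N * A) := by
    calc (ramDeg κ M L : ℤ) ≤ 2 * (N - 1) * ∑ i, height κ (Q i) := hram
      _ ≤ 2 * N * ∑ i, height κ (Q i) := by gcongr; omega
      _ ≤ 2 * N * (3 * (N * A)) := by gcongr
      _ = _ := by ring
  have hfinal : N * height κ x ≤ N * (3 * m + 9 * A + 3 * h + 6 * N * A + R + C₂ * e) := by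
    have : N * height κ x ≤ 3 * (N * m) + 3 * (3 * (N * A)) + 3 * (N * h) +
        (6 * N * (N * A) + N * R) + C₂ * (e * N) := by linarith
    refine this.trans (le_of_eq ?_)
    ring
  have hfinal2 := le_of_mul_le_mul_left hfinal (by omega)
  refine hfinal2.trans ?_
  have hC2e : 0 ≤ (C₂ : ℤ) * e := by (clear * -; positivity)
  have g6 : 3 * m + 9 * A + 3 * h + 6 * N * A + R + C₂ * e ≤
      N * (3 * m + 15 * A + 3 * h + R + C₂ * e) := arith_one hN1 hA0 hm0 hh0 hR0 hC2e
  refine g6.trans ?_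
  have hN0 : 0 ≤ N := by omega
  refine mul_le_mul_of_nonneg_left ?_ hN0
  rw [hA]
  push_cast
  have hD0 : (0:ℤ) ≤ D := by (clear * -; positivity)
  have h1 : 0 ≤ (15 * (D : ℤ) + 15) * m + (15 * (D : ℤ) + 17) * R := by positivity
  nlinarith only [h1]

/-- the bound for a point of a line which is not exceptional -/
theorem line_boundU {κ K : Type*} [Field κ] [IsAlgClosed κ] [CharZero κ] [Field K] [Algebra κ K]
    (hK : IsFF κ K) {s q : ℕ} (d : Fin q → ℕ) (a : Fin q → (Fin s →₀ ℕ) → K)
    {S : Set (Place κ K)} (hS : S.Finite) :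
    ∃ C : ℕ, ∀ (L : Type w) [Field L] [Algebra κ L] [Algebra K L] [IsScalarTower κ K L]
      [FiniteDimensional K L] (x p' : Fin s → L), (∃ i j, plu x p' i j ≠ 0) →
      ¬ ExcLine d (fun j I => algebraMap K L (a j I)) x p' →
      height κ x ≤ ((18 * (∑ j, d j + 1) * ((∑ j, d j) ^ 3 + 1) : ℕ) : ℤ) *
        (height κ (pluV x p') + ((meetSet (κ := κ) d a S x).ncard : ℤ) +
        (ramDeg κ L K : ℤ)) + (C : ℤ) * Module.finrank K L := by
  classical
  choose C₁ hC₁ using fun j => line_root_height.{w} hK (d j) (a j)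
  obtain ⟨C₂, hC₂⟩ := line_bound_MU.{w} hK d a hS
  set D : ℕ := ∑ j, d j with hD
  set E : ℕ := ∑ j, C₁ j with hE
  refine ⟨E + C₂ * D ^ 3, ?_⟩
  intro L _ _ _ _ _ x p' hex hexc
  obtain ⟨i₀, j₀, hplu⟩ := hex
  have hL : IsFF κ L := hK.of_finite
  have hpV : pluV x p' ≠ 0 := fun h => hplu (congrFun h (i₀, j₀))
  set h := height κ (pluV x p') with hh
  have hh0 : 0 ≤ h := hL.height_nonneg hpV
  set e : ℤ := (Module.finrank K L : ℤ) with he
  have he0 : 0 ≤ e := by (clear * -; positivity)
  set m : ℤ := ((meetSet (κ := κ) d a S x).ncard : ℤ) with hm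
  set R : ℤ := (ramDeg κ L K : ℤ) with hR
  have hm0 : 0 ≤ m := by positivity
  have hR0 : 0 ≤ R := by positivity
  have hD0 : (0:ℤ) ≤ D := by (clear * -; positivity)
  have hE0 : (0:ℤ) ≤ E := by (clear * -; positivity)
  have hC20 : (0:ℤ) ≤ C₂ := by positivity
  have hCD : (0:ℤ) ≤ (C₂ : ℤ) * (D : ℤ) ^ 3 := by (clear * -; positivity)
  unfold ExcLine at hexc
  rw [not_and_or] at hexc
  rcases hexc with h1 | h1
  · push Not at h1
    obtain ⟨j, hj0, u, v, huv⟩ := h1
    have h2 := hC₁ j L x p' ⟨i₀, j₀, hplu⟩ hj0 ⟨u, v, huv⟩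
    have h3 : (d j : ℤ) ≤ D := by
      have : d j ≤ D := Finset.single_le_sum (f := d) (fun _ _ => Nat.zero_le _) (Finset.mem_univ _)
      exact_mod_cast this
    have h4 : (C₁ j : ℤ) ≤ E := by
      have : C₁ j ≤ E :=
        Finset.single_le_sum (f := C₁) (fun _ _ => Nat.zero_le _) (Finset.mem_univ _)
      exact_mod_cast this
    have h5 : height κ x ≤ ((D : ℤ) + 1) * h + (E : ℤ) * e := by
      refine h2.trans ?_
      gcongr
    refine h5.trans ?_
    push_cast
    have g1 : 0 ≤ (C₂ : ℤ) * (D : ℤ) ^ 3 * e := by (clear * -; positivity)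
    have g2 : ((D : ℤ) + 1) * h ≤ 18 * ((D : ℤ) + 1) * ((D : ℤ) ^ 3 + 1) * (h + m + R) := by
      have g3 : 18 * ((D : ℤ) + 1) * ((D : ℤ) ^ 3 + 1) * (h + m + R) = ((D : ℤ) + 1) * h +
          (17 * ((D : ℤ) + 1) * h + 18 * ((D : ℤ) + 1) * ((D : ℤ) ^ 3) * h +
            18 * ((D : ℤ) + 1) * ((D : ℤ) ^ 3 + 1) * (m + R)) := by ring
      have g4 : 0 ≤ 17 * ((D : ℤ) + 1) * h + 18 * ((D : ℤ) + 1) * ((D : ℤ) ^ 3) * h +
            18 * ((D : ℤ) + 1) * ((D : ℤ) ^ 3 + 1) * (m + R) := by positivity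
      linarith only [g4]
    linarith only [g1, g2]
  · rw [not_le, Set.two_lt_ncard_iff (Polynomial.rootSet_finite _ _)] at h1
    obtain ⟨r0, r1, r2, hr0, hr1, hr2, h01, h02, h12⟩ := h1
    have hroot : ∀ r ∈ (restP d (fun j I => algebraMap K L (a j I)) x p').rootSet (AlgebraicClosure L),
        ∃ j, Fval (d j) (fun I => algebraMap K L (a j I)) x ≠ 0 ∧
          lineP (d j) (fun I => algebraMap K L (a j I)) p' x ≠ 0 ∧
          Polynomial.aeval r (lineP (d j) (fun I => algebraMap K L (a j I)) p' x) = 0 := by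
      intro r hr
      rw [Polynomial.mem_rootSet] at hr
      obtain ⟨hr1, hr2⟩ := hr
      unfold restP at hr1 hr2
      rw [map_prod, Finset.prod_eq_zero_iff] at hr2
      obtain ⟨j, hj, hj2⟩ := hr2
      rw [Finset.prod_ne_zero_iff] at hr1
      exact ⟨j, (Finset.mem_filter.1 hj).2, hr1 j hj, hj2⟩
    set ρ : Fin 3 → AlgebraicClosure L := ![r0, r1, r2] with hρ
    have hρroot : ∀ i, ∃ j, Fval (d j) (fun I => algebraMap K L (a j I)) x ≠ 0 ∧
          lineP (d j) (fun I => algebraMap K L (a j I)) p' x ≠ 0 ∧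
          Polynomial.aeval (ρ i) (lineP (d j) (fun I => algebraMap K L (a j I)) p' x) = 0 := by
      intro i
      fin_cases i
      · exact hroot r0 hr0
      · exact hroot r1 hr1
      · exact hroot r2 hr2
    have hρinj : ∀ i j, i ≠ j → ρ i ≠ ρ j := inj_three h01 h02 h12
    choose f hf1 hf2 hf3 using hρroot
    set M : IntermediateField L (AlgebraicClosure L) := ⨆ i, IntermediateField.adjoin L {ρ i} with hM
    have hfD : ∀ i, d (f i) ≤ D := fun i =>
      Finset.single_le_sum (f := d) (fun _ _ => Nat.zero_le _) (Finset.mem_univ _)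
    obtain ⟨hfd, hfr⟩ := finrank_three (D := D) ρ
      (fun i => lineP (d (f i)) (fun I => algebraMap K L (a (f i) I)) p' x) hf2
      (fun i => (natDegree_lineP_le _ _ _ _).trans (hfD i)) hf3
    rw [← hM] at hfd hfr
    have hKMfin : FiniteDimensional K M := FiniteDimensional.trans K L M
    have hsc : IsScalarTower κ K M := IsScalarTower.of_algebraMap_eq fun c => by
      rw [IsScalarTower.algebraMap_apply κ L M, IsScalarTower.algebraMap_apply K L M,
        ← IsScalarTower.algebraMap_apply κ K L]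
    have hmem : ∀ i, ρ i ∈ M := fun i =>
      (le_iSup (fun i => IntermediateField.adjoin L {ρ i}) i)
        (IntermediateField.mem_adjoin_simple_self L (ρ i))
    set σ : Fin 3 → M := fun i => ⟨ρ i, hmem i⟩ with hσ
    have hres := hC₂ L M x p' i₀ j₀ hplu σ f
      (fun i j hij hcon => hρinj i j hij (congrArg Subtype.val hcon))
      (lift_gen ρ M hM σ fun i => rfl)
      (by
        intro i
        have h3 : Polynomial.aeval (σ i) (lineP (d (f i)) (fun I => algebraMap K L (a (f i) I)) p' x) = 0 := by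
          have h4 := hf3 i
          have h5 : ρ i = algebraMap M (AlgebraicClosure L) (σ i) := rfl
          rw [h5, Polynomial.aeval_algebraMap_eq_zero_iff] at h4
          exact h4
        rw [Polynomial.aeval_def, ← Polynomial.eval_map, lineP_map, eval_lineP] at h3
        have h6 : (fun I => algebraMap K M (a (f i) I)) =
            fun I => algebraMap L M (algebraMap K L (a (f i) I)) := by
          funext I
          exact IsScalarTower.algebraMap_apply K L M _
        rw [h6]
        exact h3)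
      hf1
    refine hres.trans ?_
    have hfr' : (Module.finrank L M : ℤ) ≤ (D : ℤ) ^ 3 := by exact_mod_cast hfr
    have h7 : (Module.finrank L M : ℤ) * ((15 * (D : ℤ) + 18) * (h + m + R) + (C₂ : ℤ) * e) ≤
        (D : ℤ) ^ 3 * ((15 * (D : ℤ) + 18) * (h + m + R) + (C₂ : ℤ) * e) := by
      refine mul_le_mul_of_nonneg_right hfr' ?_
      positivity
    refine h7.trans ?_
    push_cast
    have h8 : 0 ≤ ((E : ℤ)) * e := by (clear * -; positivity)
    have h9 : (D : ℤ) ^ 3 * ((15 * (D : ℤ) + 18) * (h + m + R)) ≤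
        18 * ((D : ℤ) + 1) * ((D : ℤ) ^ 3 + 1) * (h + m + R) := by
      have h10 : 18 * ((D : ℤ) + 1) * ((D : ℤ) ^ 3 + 1) * (h + m + R) =
          (D : ℤ) ^ 3 * ((15 * (D : ℤ) + 18) * (h + m + R)) +
          (3 * (D : ℤ) ^ 3 * (D : ℤ) + 18 * ((D : ℤ) + 1)) * (h + m + R) := by ring
      have h11 : 0 ≤ (3 * (D : ℤ) ^ 3 * (D : ℤ) + 18 * ((D : ℤ) + 1)) * (h + m + R) := by
        positivity
      linarith only [h11]
    linarith only [h8, h9]

end Pool.Agent.Lib.MP_44a246_ntT
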