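import Mathlib
import Pool.Agent.Lib.MP_44a246_ntT.TAll
import Pool.Agent.Lib.MP_44a246_ntT.TSetup
import Pool.Agent.Lib.MP_44a246_ntT.TThree

/-!
The main theorem for forms given by their coefficients.
-/

namespace Pool.Agent.Lib.MP_44a246_ntT

open Pool.Agent.Lib.MP_e52354_nt
open Pool.Agent.Lib.MP_e52354_ntG
open Pool.Agent.Lib.MP_44a246_nt
open Pool.Agent.Lib.MP_44a246_ntL
open WithZero

universe w

section Scale

theorem vmax_smul {L : Type*} [Field L] (v : Valuation L ℤᵐ⁰) {σ : Type*} [Fintype σ] (c : L)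
    (x : σ → L) : (vmax v fun i => c * x i) = v c * vmax v x := by
  by_cases hx : x = 0
  · subst hx
    have h1 : (fun i => c * (0 : σ → L) i) = 0 := by
      funext i; simp
    rw [h1]
    have h2 : vmax v (0 : σ → L) = 0 := (vmax_eq_zero_iff v).mpr rfl
    rw [h2, mul_zero]
  · apply le_antisymm
    · refine vmax_le _ fun i => ?_
      rw [map_mul]
      exact mul_le_mul' le_rfl (le_vmax _ _ _)
    · obtain ⟨l, -, hl, -⟩ := exists_vmax v hx
      rw [hl, ← map_mul]
      exact le_vmax v (fun i => c * x i) l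

variable {L : Type*} [Field L] {s q : ℕ} {d : Fin q → ℕ}

theorem Fval_congr {d : ℕ} {a a' : (Fin s →₀ ℕ) → L} (h : ∀ I ∈ expo (Fin s) d, a I = a' I)
    (x : Fin s → L) : Fval d a x = Fval d a' x := by
  unfold Fval
  exact Finset.sum_congr rfl fun I hI => by rw [h I hI]

theorem lineP_congr {d : ℕ} {a a' : (Fin s →₀ ℕ) → L} (h : ∀ I ∈ expo (Fin s) d, a I = a' I)
    (x y : Fin s → L) : lineP d a x y = lineP d a' x y := by
  unfold lineP
  exact Finset.sum_congr rfl fun I hI => by rw [h I hI]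

theorem excLine_congr {a a' : Fin q → (Fin s →₀ ℕ) → L}
    (h : ∀ j, ∀ I ∈ expo (Fin s) (d j), a j I = a' j I) {x y : Fin s → L}
    (hE : ExcLine d a x y) : ExcLine d a' x y := by
  classical
  obtain ⟨h1, h2⟩ := hE
  refine ⟨fun j hj u v => ?_, ?_⟩
  · rw [← Fval_congr (h j)]
    refine h1 j ?_ u v
    rw [Fval_congr (h j)]
    exact hj
  · have h3 : restP d a' x y = restP d a x y := by
      unfold restP
      have h4 : (Finset.univ.filter fun j => Fval (d j) (a' j) x ≠ 0) =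
          Finset.univ.filter fun j => Fval (d j) (a j) x ≠ 0 := by
        ext j
        rw [Finset.mem_filter, Finset.mem_filter, Fval_congr (h j)]
      rw [h4]
      exact Finset.prod_congr rfl fun j _ => (lineP_congr (h j) _ _).symm
    rw [h3]
    exact h2

theorem excLine_smul [CharZero L] {a : Fin q → (Fin s →₀ ℕ) → L} {x y : Fin s → L} {c : L}
    (hc : c ≠ 0) (hE : ExcLine d a (fun i => c * x i) y) :
    ExcLine d a x (fun i => c⁻¹ * y i) := by
  classical
  obtain ⟨h1, h2⟩ := hE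
  have hF : ∀ j, Fval (d j) (a j) (fun i => c * x i) = c ^ d j * Fval (d j) (a j) x :=
    fun j => Fval_smul _ _ _ _
  refine ⟨fun j hj u v => ?_, ?_⟩
  · have h3 := h1 j (by rw [hF, hj, mul_zero]) (u / c) (v / c)
    rw [← h3]
    congr 1
    funext k
    field_simp
  · have h3 : restP d a x (fun i => c⁻¹ * y i) =
        Polynomial.C (∏ j with Fval (d j) (a j) x ≠ 0, c⁻¹ ^ d j) *
          restP d a (fun i => c * x i) y := by
      unfold restP
      have h4 : (Finset.univ.filter fun j => Fval (d j) (a j) (fun i => c * x i) ≠ 0) =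
          Finset.univ.filter fun j => Fval (d j) (a j) x ≠ 0 := by
        ext j
        rw [Finset.mem_filter, Finset.mem_filter, hF, mul_ne_zero_iff]
        simp [hc]
      rw [h4, map_prod, ← Finset.prod_mul_distrib]
      refine Finset.prod_congr rfl fun j _ => ?_
      apply Polynomial.funext
      intro t
      rw [Polynomial.eval_mul, Polynomial.eval_C, eval_lineP, eval_lineP, ← Fval_smul]
      congr 1
      funext k
      field_simp
    rw [h3]
    refine le_trans (Set.ncard_le_ncard ?_ (Polynomial.rootSet_finite _ _)) h2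
    intro z hz
    rw [Polynomial.mem_rootSet] at hz ⊢
    obtain ⟨h5, h6⟩ := hz
    rw [mul_ne_zero_iff] at h5
    refine ⟨h5.2, ?_⟩
    rw [map_mul, Polynomial.aeval_C, mul_eq_zero] at h6
    refine h6.resolve_left ?_
    rw [_root_.map_eq_zero]
    intro h7
    exact h5.1 (by rw [h7, Polynomial.C_0])

end Scale

section Span

variable {s q : ℕ} {d : Fin q → ℕ} {L : Type*} [Field L] {β : Type} [Fintype β]
  {X : DData (MIdx s q d) Empty L} {p : Fin s → L} {g : β → Fin q}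

/-- vectors of derivations which are combinations of the given ones on finite sets -/
theorem lD_mem_span {T : Type*} {EL : T → Derivation ℤ L L} {G : Derivation ℤ L L}
    (h : ∀ Y : Finset L, ∃ (S : Finset T) (c : T → L), ∀ y ∈ Y, G y = ∑ b ∈ S, c b * EL b y) :
    lD X p g G ∈ Submodule.span L (insert (lp d p g) ((fun E => lD X p g E) '' Set.range EL)) := by
  classical
  obtain ⟨S, c, hS⟩ := h (Finset.univ.image (yv X p g))
  have h1 : lD X p g G = ∑ b ∈ S, c b • lD X p g (EL b) := by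
    funext i
    rw [Finset.sum_apply, lD_apply, hS _ (Finset.mem_image_of_mem _ (Finset.mem_univ i)),
      Finset.sum_div]
    refine Finset.sum_congr rfl fun b _ => ?_
    rw [Pi.smul_apply, smul_eq_mul, lD_apply, mul_div_assoc]
  rw [h1]
  exact Submodule.sum_mem _ fun b _ => Submodule.smul_mem _ _
    (Submodule.subset_span (Set.mem_insert_of_mem _ ⟨EL b, ⟨b, rfl⟩, rfl⟩))

theorem lD_li {τ : ℕ} {Ev : Fin τ → Derivation ℤ L L}
    (h : LinearIndependent L (fun i k => Ev i (p k))) :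
    LinearIndependent L (fun i => lD X p g (Ev i)) := by
  let φ : (Fin s ⊕ β → L) →ₗ[L] (Fin s → L) :=
    { toFun := fun v k => v (Sum.inl k)
      map_add' := fun _ _ => rfl
      map_smul' := fun _ _ => rfl }
  exact LinearIndependent.of_comp φ h

end Span

section Main

/-- the uniform constant -/
def cU (s q D : ℕ) : ℕ := 18 * (D + 1) * (D ^ 3 + 1) * (2 * (s + q) + (2 * s * D + s) + 1)

theorem arith_J {s q D : ℕ} {D₀ C₁ h m R e : ℤ} (hm : 0 ≤ m) (hR : 0 ≤ R) (he : 0 ≤ e)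
    (hD₀ : 0 ≤ D₀) (hC₁ : 0 ≤ C₁)
    (h1 : h ≤ ((2 * (s + q) + (2 * s * D + s) : ℕ) : ℤ) * (D₀ * e + R + m)) :
    h ≤ (cU s q D : ℤ) * (m + R) + ((cU s q D : ℤ) * D₀ + C₁) * e := by
  set c₀ : ℕ := 2 * (s + q) + (2 * s * D + s) with hc₀
  have h2 : (c₀ : ℤ) ≤ (cU s q D : ℤ) := by
    have h3 : c₀ ≤ cU s q D := by
      unfold cU
      rw [← hc₀]
      have h4 : 1 ≤ 18 * (D + 1) * (D ^ 3 + 1) := Nat.one_le_iff_ne_zero.mpr (by positivity)
      calc c₀ ≤ 1 * (c₀ + 1) := by omega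
        _ ≤ 18 * (D + 1) * (D ^ 3 + 1) * (c₀ + 1) := Nat.mul_le_mul_right _ h4
    exact_mod_cast h3
  have h3 : (c₀ : ℤ) * (D₀ * e + R + m) ≤ (cU s q D : ℤ) * (D₀ * e + R + m) :=
    mul_le_mul_of_nonneg_right h2 (by positivity)
  have h4 : 0 ≤ C₁ * e := by positivity
  linarith

theorem arith_L {s q D : ℕ} {D₀ C₁ h hp m R e : ℤ} (hm : 0 ≤ m) (hR : 0 ≤ R) (he : 0 ≤ e)
    (hD₀ : 0 ≤ D₀)
    (h1 : hp ≤ ((2 * (s + q) + (2 * s * D + s) : ℕ) : ℤ) * (D₀ * e + R + m))
    (h2 : h ≤ ((18 * (D + 1) * (D ^ 3 + 1) : ℕ) : ℤ) * (hp + m + R) + C₁ * e) :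
    h ≤ (cU s q D : ℤ) * (m + R) + ((cU s q D : ℤ) * D₀ + C₁) * e := by
  set c₀ : ℕ := 2 * (s + q) + (2 * s * D + s) with hc₀
  set c₁ : ℕ := 18 * (D + 1) * (D ^ 3 + 1) with hc₁
  have hU : (cU s q D : ℤ) = (c₁ : ℤ) * (c₀ + 1) := by
    unfold cU
    rw [← hc₀, ← hc₁]
    push_cast
    ring
  rw [hU]
  have h3 : (c₁ : ℤ) * (hp + m + R) ≤ (c₁ : ℤ) * ((c₀ : ℤ) * (D₀ * e + R + m) + m + R) :=
    mul_le_mul_of_nonneg_left (by linarith) (Int.natCast_nonneg _)
  have h4 : 0 ≤ (c₁ : ℤ) * D₀ * e := by positivity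
  nlinarith [h3, h4, h2]

variable {κ K : Type*} [Field κ] [IsAlgClosed κ] [CharZero κ] [Field K] [CharZero K]
  [Algebra κ K]

open Classical in
theorem log_mainT {t : K} (ht : Transcendental κ t)
    (hfin : FiniteDimensional (IntermediateField.adjoin κ {t}) K) {n q : ℕ} (d : Fin q → ℕ)
    (hd1 : ∀ j, 1 ≤ d j) (a : Fin q → (Fin (n + 1) →₀ ℕ) → K)
    (hc : AlgebraicIndependent ℚ (fun θ : MIdx (n + 1) q d => a θ.1 θ.2.1))
    (k₁ : IntermediateField ℚ K) (hk₁ : ∀ j, ∀ I ∈ expo (Fin (n + 1)) (d j), a j I ∈ k₁)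
    {S : Set (Place κ K)} (hS : S.Finite) :
    ∃ C : ℕ, ∀ (L : Type w) [Field L] [Algebra κ L] [Algebra K L] [IsScalarTower κ K L]
      [FiniteDimensional K L] (x : Fin (n + 1) → L), x ≠ 0 → ∀ τ : ℕ,
      (τ : Cardinal) ≤ Algebra.trdeg k₁ (pointField k₁ x) →
      ((n + 1 : ℕ) : ℤ) - 1 - (Fintype.card
        {j : Fin q // Fval (d j) (fun I => algebraMap K L (a j I)) x = 0} : ℤ) <
        2 * ((∑ j, (d j : ℤ)) - ((n + 1 : ℕ) : ℤ)) + τ →
      height κ x ≤ (cU (n + 1) q (∑ j, d j) : ℤ) *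
          (((meetSet (κ := κ) d a S x).ncard : ℤ) + (ramDeg κ L K : ℤ)) +
          (C : ℤ) * (Module.finrank K L : ℤ) ∨
        (∑ j, d j + Fintype.card
          {j : Fin q // Fval (d j) (fun I => algebraMap K L (a j I)) x = 0} + 1 ≤ 2 * (n + 1) ∧
        ∃ y : Fin (n + 1) → L, (∃ i j, plu x y i j ≠ 0) ∧
          ExcLine d (fun j I => algebraMap K L (a j I)) x y) := by
  have hK : IsFF κ K := ⟨t, ht, hfin⟩
  have hsct : IsScalarTower ℚ κ K := inferInstance
  obtain ⟨T, iT, z, E, DK, B, A, hB, hA, hPB, hPE, hPA, hD, hcomm, hz, hE⟩ :=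
    exists_setupE (k₀ := ℚ) ht hfin hc
  obtain ⟨C₁, hC₁⟩ := line_boundU.{w} hK d a hS
  set D₀ := (∑ᶠ v, (totB B A S v : ℤ)).toNat with hD₀
  have hD₀' : (∑ᶠ v, (totB B A S v : ℤ)) ≤ (D₀ : ℤ) := Int.self_le_toNat _
  refine ⟨cU (n + 1) q (∑ j, d j) * D₀ + C₁, ?_⟩
  intro L _ _ _ _ _ x hx τ hτ hk
  have hcL : CharZero L := charZero_of_injective_algebraMap (algebraMap K L).injective
  have hck₁ : CharZero k₁ := charZero_of_injective_algebraMap (algebraMap ℚ k₁).injective
  have hL : IsFF κ L := hK.of_finite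
  obtain ⟨X, EL, hX, hELa, hden⟩ := exists_ddataE (L := L) hPB hPE hPA hD hcomm hz hE
  obtain ⟨l, hl⟩ : ∃ l, x l ≠ 0 := by
    by_contra hcon
    push Not at hcon
    exact hx (funext hcon)
  -- normalise
  set x' : Fin (n + 1) → L := fun i => (x l)⁻¹ * x i with hx'
  have hx'l : x' l = 1 := inv_mul_cancel₀ hl
  have hx'0 : x' ≠ 0 := by
    intro h0
    have := congrFun h0 l
    rw [hx'l] at this
    exact one_ne_zero this
  have hmA : ∀ j, ∀ I ∈ expo (Fin (n + 1)) (d j), mA X j I = algebraMap K L (a j I) := by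
    intro j I hI
    simp only [mA, dif_pos hI]
    rw [hX.ha]
  have hzv : ∀ j, zv X x' j =
      (x l)⁻¹ ^ d j * Fval (d j) (fun I => algebraMap K L (a j I)) x := by
    intro j
    unfold zv
    rw [Fval_congr (hmA j), hx', Fval_smul]
  have hzv0 : ∀ j, zv X x' j = 0 ↔ Fval (d j) (fun I => algebraMap K L (a j I)) x = 0 := by
    intro j
    rw [hzv, mul_eq_zero]
    constructor
    · intro h
      exact h.resolve_left (pow_ne_zero _ (inv_ne_zero hl))
    · exact Or.inr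
  have hcard : Fintype.card {j : Fin q // zv X x' j = 0} =
      Fintype.card {j : Fin q // Fval (d j) (fun I => algebraMap K L (a j I)) x = 0} :=
    Fintype.card_congr (Equiv.subtypeEquivRight hzv0)
  have hh : height κ x' = height κ x := hL.height_smul (inv_ne_zero hl)
  -- the counting function
  have hmeet : ((meetT (κ := κ) X (Subtype.val : {j : Fin q // zv X x' j ≠ 0} → Fin q) S
      x').ncard : ℤ) ≤ ((meetSet (κ := κ) d a S x).ncard : ℤ) := by
    have h1 : meetT (κ := κ) X (Subtype.val : {j : Fin q // zv X x' j ≠ 0} → Fin q) S x' ⊆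
        meetSet (κ := κ) d a S x := by
      rintro w ⟨h1, ⟨b, hb⟩, h2⟩
      refine ⟨h1, b, fun h3 => hb ((hzv0 _).mpr h3), ?_⟩
      have h3 : w.1 (zv X x' b) < vmax w.1 x' ^ d b := h2
      have h4 : vmax w.1 x' = w.1 (x l)⁻¹ * vmax w.1 x := vmax_smul w.1 (x l)⁻¹ x
      rw [hzv, map_mul, h4, mul_pow, map_pow] at h3
      exact lt_of_mul_lt_mul_left' h3
    exact_mod_cast Set.ncard_le_ncard h1 (meetSet_finite hK d a S hx)
  set N : ℤ := ((meetSet (κ := κ) d a S x).ncard : ℤ) with hN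
  have hN0 : 0 ≤ N := Int.natCast_nonneg _
  set R : ℤ := (ramDeg κ L K : ℤ) with hR
  have hR0 : 0 ≤ R := Int.natCast_nonneg _
  set e : ℤ := (Module.finrank K L : ℤ) with he
  have he0 : 0 ≤ e := Int.natCast_nonneg _
  have hD₀0 : (0 : ℤ) ≤ D₀ := Int.natCast_nonneg _
  have hC₁0 : (0 : ℤ) ≤ C₁ := Int.natCast_nonneg _
  have hbase : (∑ᶠ v, (totB B A S v : ℤ)) * e + R +
      ((meetT (κ := κ) X (Subtype.val : {j : Fin q // zv X x' j ≠ 0} → Fin q) S x').ncard : ℤ) ≤
      (D₀ : ℤ) * e + R + N := by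
    have h1 : (∑ᶠ v, (totB B A S v : ℤ)) * e ≤ (D₀ : ℤ) * e := mul_le_mul_of_nonneg_right hD₀' he0
    linarith
  have hk' : ((n + 1 : ℕ) : ℤ) - 1 - (Fintype.card {j : Fin q // zv X x' j = 0} : ℤ) <
      2 * ((∑ j, (d j : ℤ)) - ((n + 1 : ℕ) : ℤ)) + τ := by
    rw [hcard]
    exact hk
  have hz' : ∀ b : {j : Fin q // zv X x' j ≠ 0}, zv X x' b.1 ≠ 0 := fun b => b.2
  -- from exceptional lines for `x'` to exceptional lines for `x`
  have hexc : ∀ y : Fin (n + 1) → L, (∃ i j, plu x' y i j ≠ 0) →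
      ExcLine d (fun j I => algebraMap K L (a j I)) x' y →
      ∃ y : Fin (n + 1) → L, (∃ i j, plu x y i j ≠ 0) ∧
        ExcLine d (fun j I => algebraMap K L (a j I)) x y := by
    rintro y ⟨i, j, hij⟩ hE
    refine ⟨fun i => ((x l)⁻¹)⁻¹ * y i, ⟨i, j, ?_⟩, excLine_smul (inv_ne_zero hl) hE⟩
    intro h0
    apply hij
    simp only [plu, hx', inv_inv] at h0 ⊢
    have h1 : (x l)⁻¹ * x i * y j - (x l)⁻¹ * x j * y i =
        (x l)⁻¹ * (x l)⁻¹ * (x i * (x l * y j) - x j * (x l * y i)) := by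
      field_simp
    rw [h1, h0, mul_zero]
  -- the derivations killing the coefficients
  have hpf : pointField k₁ x' = pointField k₁ x := by
    unfold pointField
    congr 1
    ext y
    simp only [Set.mem_ofPred_eq]
    constructor
    · rintro ⟨i, j, rfl⟩
      refine ⟨i, j, ?_⟩
      simp only [hx']
      rw [mul_div_mul_left _ _ (inv_ne_zero hl)]
    · rintro ⟨i, j, rfl⟩
      refine ⟨i, j, ?_⟩
      simp only [hx']
      rw [mul_div_mul_left _ _ (inv_ne_zero hl)]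
  obtain ⟨Ev, hEv1, hEv2⟩ := exists_indep_der (k₁ := k₁) hx'l (τ := τ) (by rw [hpf]; exact hτ)
  have hEv : ∀ i j I, Ev i (mA X j I) = 0 := by
    intro i j I
    by_cases hI : I ∈ expo (Fin (n + 1)) (d j)
    · rw [hmA j I hI]
      exact hEv1 i ⟨a j I, hk₁ j I hI⟩
    · simp only [mA, dif_neg hI]
      exact map_zero _
  rcases llocal_all (X := X) (p := x') (EE := Set.range EL) (τ := τ) hx'l hd1
    (by rintro _ ⟨b, rfl⟩; exact hELa b) (fun G hG => lD_mem_span (hden G hG)) Ev hEv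
    (lD_li hEv2) hk' with
    ⟨J, hJ0, hJ⟩ | ⟨hsmall, hBL | ⟨y, hy, hE⟩⟩
  · left
    have h1 := height_of_J hL hX hB hA hx'0 _ hz' hS hJ0 hJ
    rw [hh] at h1
    have h2 := h1.trans (mul_le_mul_of_nonneg_left hbase (Int.natCast_nonneg _))
    have h3 := arith_J (D₀ := (D₀ : ℤ)) (C₁ := (C₁ : ℤ)) hN0 hR0 he0 hD₀0 hC₁0 h2
    push_cast at h3 ⊢
    exact h3
  · obtain ⟨p', hp', hheight⟩ := height_of_BLine hL hX hB hA hx'0 _ hz' hS hBL
    by_cases hE : ExcLine d (fun j I => algebraMap K L (a j I)) x' p'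
    · right
      rw [hcard] at hsmall
      exact ⟨hsmall, hexc p' hp' hE⟩
    · left
      have h1 := hC₁ L x' p' hp' hE
      rw [hh] at h1
      have h2 := hheight.trans (mul_le_mul_of_nonneg_left hbase (Int.natCast_nonneg _))
      have h3 : ((meetSet (κ := κ) d a S x').ncard : ℤ) ≤ N := by
        have h4 : meetSet (κ := κ) d a S x' ⊆ meetSet (κ := κ) d a S x := by
          rintro w ⟨h1, j, h2, h3⟩
          refine ⟨h1, j, ?_, ?_⟩
          · intro h4
            apply h2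
            rw [hx', Fval_smul, h4, mul_zero]
          · have h4 : vmax w.1 x' = w.1 (x l)⁻¹ * vmax w.1 x := vmax_smul w.1 (x l)⁻¹ x
            rw [h4, hx', Fval_smul, map_mul, mul_pow, map_pow] at h3
            exact lt_of_mul_lt_mul_left' h3
        rw [hN]
        exact_mod_cast Set.ncard_le_ncard h4 (meetSet_finite hK d a S hx)
      have h4 : height κ x ≤ ((18 * (∑ j, d j + 1) * ((∑ j, d j) ^ 3 + 1) : ℕ) : ℤ) *
          (height κ (pluV x' p') + N + R) + (C₁ : ℤ) * e := by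
        refine h1.trans ?_
        have h5 : ((18 * (∑ j, d j + 1) * ((∑ j, d j) ^ 3 + 1) : ℕ) : ℤ) *
            (height κ (pluV x' p') + ((meetSet (κ := κ) d a S x').ncard : ℤ) + R) ≤
            ((18 * (∑ j, d j + 1) * ((∑ j, d j) ^ 3 + 1) : ℕ) : ℤ) *
            (height κ (pluV x' p') + N + R) :=
          mul_le_mul_of_nonneg_left (by linarith) (Int.natCast_nonneg _)
        linarith
      have h5 := arith_L hN0 hR0 he0 hD₀0 h2 h4
      push_cast at h5 ⊢
      exact h5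
  · right
    rw [hcard] at hsmall
    refine ⟨hsmall, hexc y hy (excLine_congr (fun j I hI => ?_) hE)⟩
    exact hmA j I hI

end Main

end Pool.Agent.Lib.MP_44a246_ntT
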