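import Mathlib
import Pool.Agent.Lib.MP_e52354_ntE.Except
import Pool.Agent.Lib.MP_44a246_nt.PolyMain
import Pool.Agent.Lib.MP_44a246_ntT.TElim

/-!
The universal exceptional line through a point.
-/

namespace Pool.Agent.Lib.MP_44a246_ntT

open Pool.Agent.Lib.MP_e52354_nt Pool.Agent.Lib.MP_e52354_ntG Pool.Agent.Lib.MP_e52354_ntE
open Pool.Agent.Lib.MP_44a246_nt
open Polynomial

/-- the variables: a direction with vanishing `l`-th coordinate and two numbers -/
abbrev TB (s : ℕ) (l : Fin s) : Type := {b : Fin s // b ≠ l} ⊕ Fin 2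

section Uni

variable {k : Type*} [Field k] {s : ℕ}

/-- the restriction of a form to the universal line -/
noncomputable def uniB (l : Fin s) (d : ℕ) (a : (Fin s →₀ ℕ) → k) :
    Polynomial (MvPolynomial (TB s l) (MvPolynomial (Fin s) k)) :=
  ∑ I ∈ expo (Fin s) d, C (MvPolynomial.C (MvPolynomial.C (a I))) *
    ∏ m, (C (MvPolynomial.C (MvPolynomial.X m)) +
      C (th l (fun b => MvPolynomial.X (Sum.inl b)) m) * X) ^ I m

/-- the polynomial `F (1 + β₀ X) ^ α₀ (1 + β₁ X) ^ α₁` -/
noncomputable def betB (l : Fin s) (F : MvPolynomial (Fin s) k) (α : Fin 2 → ℕ) :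
    Polynomial (MvPolynomial (TB s l) (MvPolynomial (Fin s) k)) :=
  C (MvPolynomial.C F) * ((1 + C (MvPolynomial.X (Sum.inr 0)) * X) ^ α 0 *
    (1 + C (MvPolynomial.X (Sum.inr 1)) * X) ^ α 1)

theorem uniB_good (l : Fin s) (d : ℕ) (a : (Fin s →₀ ℕ) → k) : Good (uniB l d a) := by
  refine good_sum _ _ fun I _ => good_mul (good_C _) (good_prod _ _ fun m _ => good_pow ?_ _)
  refine good_add (good_C _) (good_CX ?_)
  unfold th
  split_ifs with h
  · exact MvPolynomial.isHomogeneous_X _ _
  · exact MvPolynomial.isHomogeneous_zero _ _ _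

theorem betB_good (l : Fin s) (F : MvPolynomial (Fin s) k) (α : Fin 2 → ℕ) :
    Good (betB l F α) := by
  refine good_mul (good_C _) (good_mul (good_pow ?_ _) (good_pow ?_ _))
  · exact good_add good_one (good_CX (MvPolynomial.isHomogeneous_X _ _))
  · exact good_add good_one (good_CX (MvPolynomial.isHomogeneous_X _ _))

theorem good_sub {k σ τ : Type*} [Field k]
    {P Q : Polynomial (MvPolynomial τ (MvPolynomial σ k))} (hP : Good P)
    (hQ : Good Q) : Good (P - Q) := by
  intro i
  rw [coeff_sub]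
  exact (hP i).sub (hQ i)

variable {M : Type*} [Field M] [Algebra k M]

/-- evaluation of all variables -/
noncomputable def evT {l : Fin s} (x : Fin s → M) (θ : TB s l → M) :
    MvPolynomial (TB s l) (MvPolynomial (Fin s) k) →+* M :=
  (MvPolynomial.eval θ).comp (MvPolynomial.map (evH x))

theorem evT_C {l : Fin s} (x : Fin s → M) (θ : TB s l → M) (p : MvPolynomial (Fin s) k) :
    evT x θ (MvPolynomial.C p) = MvPolynomial.aeval x p := by
  show MvPolynomial.eval θ (MvPolynomial.map (evH x) (MvPolynomial.C p)) = _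
  rw [MvPolynomial.map_C, MvPolynomial.eval_C, evH_apply]

theorem evT_X {l : Fin s} (x : Fin s → M) (θ : TB s l → M) (i : TB s l) :
    evT (k := k) x θ (MvPolynomial.X i) = θ i := by
  simp [evT]

theorem uniB_map (l : Fin s) (d : ℕ) (a : (Fin s →₀ ℕ) → k) (x : Fin s → M)
    (θ : TB s l → M) :
    (uniB l d a).map (evT x θ) =
      lineP d (fun I => algebraMap k M (a I)) x (th l fun b => θ (Sum.inl b)) := by
  unfold uniB lineP lmon
  rw [Polynomial.map_sum]
  refine Finset.sum_congr rfl fun I _ => ?_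
  rw [Polynomial.map_mul, Polynomial.map_prod, Polynomial.map_C]
  congr 1
  · rw [evT_C, MvPolynomial.aeval_C]
  · refine Finset.prod_congr rfl fun m _ => ?_
    rw [Polynomial.map_pow, Polynomial.map_add, Polynomial.map_mul, Polynomial.map_C,
      Polynomial.map_C, Polynomial.map_X]
    congr 2
    · rw [evT_C, MvPolynomial.aeval_X]
    · congr 2
      unfold th
      by_cases h : m ≠ l
      · rw [dif_pos h, dif_pos h, evT_X]
      · rw [dif_neg h, dif_neg h, map_zero]

theorem betB_map (l : Fin s) (F : MvPolynomial (Fin s) k) (α : Fin 2 → ℕ) (x : Fin s → M)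
    (θ : TB s l → M) :
    (betB l F α).map (evT x θ) = C (MvPolynomial.aeval x F) *
      ((1 + C (θ (Sum.inr 0)) * X) ^ α 0 * (1 + C (θ (Sum.inr 1)) * X) ^ α 1) := by
  unfold betB
  simp only [Polynomial.map_mul, Polynomial.map_pow, Polynomial.map_add, Polynomial.map_one,
    Polynomial.map_C, Polynomial.map_X, evT_C, evT_X]

theorem natDegree_bet (c b₀ b₁ : M) (m n : ℕ) :
    (C c * ((1 + C b₀ * X) ^ m * (1 + C b₁ * X) ^ n)).natDegree ≤ m + n := by
  refine (natDegree_C_mul_le _ _).trans (natDegree_mul_le.trans ?_)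
  have h : ∀ (b : M) (m : ℕ), ((1 + C b * X) ^ m).natDegree ≤ m := by
    intro b m
    refine natDegree_pow_le.trans ?_
    have h1 : (1 + C b * X : M[X]).natDegree ≤ 1 := by
      refine (natDegree_add_le _ _).trans ?_
      rw [natDegree_one]
      refine max_le (by omega) ((natDegree_C_mul_le _ _).trans ?_)
      rw [natDegree_X]
    calc m * (1 + C b * X : M[X]).natDegree ≤ m * 1 := Nat.mul_le_mul_left _ h1
      _ = m := mul_one m
  exact add_le_add (h b₀ m) (h b₁ n)

/-- scaling the direction -/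
theorem lineP_comp {s d : ℕ} (a : (Fin s →₀ ℕ) → M) (x θ : Fin s → M) (c : M) :
    lineP d a x (fun i => c * θ i) = (lineP d a x θ).comp (C c * X) := by
  unfold lineP lmon
  rw [Polynomial.sum_comp]
  refine Finset.sum_congr rfl fun I _ => ?_
  rw [mul_comp, prod_comp, C_comp]
  congr 1
  refine Finset.prod_congr rfl fun m _ => ?_
  rw [pow_comp, add_comp, mul_comp, C_comp, C_comp, X_comp, C_mul]
  ring

theorem bet_comp (c₀ b₀ b₁ c : M) (m n : ℕ) :
    (C c₀ * ((1 + C b₀ * X) ^ m * (1 + C b₁ * X) ^ n)).comp (C c * X) =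
      C c₀ * ((1 + C (c * b₀) * X) ^ m * (1 + C (c * b₁) * X) ^ n) := by
  rw [mul_comp, mul_comp, pow_comp, pow_comp, add_comp, add_comp, mul_comp, mul_comp, C_comp,
    C_comp, C_comp, X_comp, one_comp, C_mul, C_mul]
  ring

/-- a polynomial over an algebraically closed field with at most two zeros -/
theorem exists_two_roots [IsAlgClosed M] {P : M[X]} {ρ : Fin 2 → M}
    (hρ : ∀ z, P.eval z = 0 → z = ρ 0 ∨ z = ρ 1) :
    ∃ (c : M) (m n : ℕ), m + n = P.natDegree ∧
      P = C c * ((X - C (ρ 0)) ^ m * (X - C (ρ 1)) ^ n) := by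
  classical
  by_cases hP : P = 0
  · exact ⟨0, 0, 0, by rw [hP]; simp, by rw [hP]; simp⟩
  have hs := IsAlgClosed.splits P
  have h1 := hs.eq_prod_roots
  have hdeg := hs.natDegree_eq_card_roots
  have h2 : P.roots = Multiset.replicate (P.roots.count (ρ 0)) (ρ 0) +
      P.roots.filter (fun z => z ≠ ρ 0) := by
    conv_lhs => rw [← Multiset.filter_add_not (fun z => z = ρ 0) P.roots]
    congr 1
    exact Multiset.filter_eq' _ _
  have h3 : P.roots.filter (fun z => z ≠ ρ 0) =
      Multiset.replicate (P.roots.filter (fun z => z ≠ ρ 0)).card (ρ 1) := by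
    rw [Multiset.eq_replicate]
    refine ⟨rfl, fun z hz => ?_⟩
    rw [Multiset.mem_filter] at hz
    have h4 := (mem_roots hP).mp hz.1
    exact (hρ z h4).resolve_left hz.2
  refine ⟨P.leadingCoeff, P.roots.count (ρ 0), (P.roots.filter (fun z => z ≠ ρ 0)).card, ?_, ?_⟩
  · rw [hdeg]
    conv_rhs => rw [h2, Multiset.card_add, Multiset.card_replicate]
  · conv_lhs => rw [h1, h2, h3]
    simp only [Multiset.map_add, Multiset.prod_add, Multiset.map_replicate,
      Multiset.prod_replicate]

/-- a set with at most two elements is contained in a pair -/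
theorem exists_pair {α : Type*} [Inhabited α] {E : Set α} (h : E.encard ≤ 2) :
    ∃ ρ : Fin 2 → α, ∀ z ∈ E, z = ρ 0 ∨ z = ρ 1 := by
  have hfin : E.Finite := Set.finite_of_encard_le_coe h
  have hn : E.ncard ≤ 2 := by
    rw [← hfin.cast_ncard_eq] at h
    exact_mod_cast h
  interval_cases hE : E.ncard
  · rw [Set.ncard_eq_zero hfin] at hE
    exact ⟨fun _ => default, fun z hz => by rw [hE] at hz; exact absurd hz (Set.notMem_empty z)⟩
  · rw [Set.ncard_eq_one] at hE
    obtain ⟨a, ha⟩ := hE
    exact ⟨fun _ => a, fun z hz => by rw [ha] at hz; exact Or.inl hz⟩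
  · rw [Set.ncard_eq_two] at hE
    obtain ⟨a, b, -, ha⟩ := hE
    refine ⟨![a, b], fun z hz => ?_⟩
    rw [ha] at hz
    exact hz

end Uni

end Pool.Agent.Lib.MP_44a246_ntT
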