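import Mathlib
import Pool.Agent.Lib.MP_44a246_ntT.TUni
import Pool.Agent.Lib.MP_44a246_ntT.TNoLine

/-!
The exceptional lines of a generic pair lie in a proper closed subset.
-/

namespace Pool.Agent.Lib.MP_44a246_ntT

open Pool.Agent.Lib.MP_e52354_nt Pool.Agent.Lib.MP_e52354_ntG Pool.Agent.Lib.MP_e52354_ntE
open Pool.Agent.Lib.MP_44a246_nt
open Polynomial

universe w

section Sys

variable {k : Type*} [Field k] {n q : ℕ}

open Classical in
/-- the equations of the exceptional lines through a point -/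
noncomputable def sysB (d : Fin q → ℕ) (F : Fin q → MvPolynomial (Fin (n + 1)) k)
    (A : Finset (Fin q)) (α : Fin q → Fin 2 → ℕ) (l : Fin (n + 1)) :
    (Sigma fun j : Fin q => Fin (d j + 1)) ⊕ Fin 2 →
      MvPolynomial (TB (n + 1) l) (MvPolynomial (Fin (n + 1)) k) :=
  Sum.elim (fun t => (uniB l (d t.1) (fun I => (F t.1).coeff I) -
      (if t.1 ∈ A then 0 else betB l (F t.1) (α t.1))).coeff t.2)
    (fun m => if (∀ j, j ∉ A → α j m = 0) then MvPolynomial.X (Sum.inr m) else 0)

theorem sysB_hom (d : Fin q → ℕ) (F : Fin q → MvPolynomial (Fin (n + 1)) k)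
    (A : Finset (Fin q)) (α : Fin q → Fin 2 → ℕ) (l : Fin (n + 1))
    (i : (Sigma fun j : Fin q => Fin (d j + 1)) ⊕ Fin 2) :
    (sysB d F A α l i).IsHomogeneous (Sum.elim (fun t => (t.2 : ℕ)) (fun _ => 1) i) := by
  rcases i with t | m
  · show ((uniB l (d t.1) (fun I => (F t.1).coeff I) -
      (if t.1 ∈ A then 0 else betB l (F t.1) (α t.1))).coeff t.2).IsHomogeneous (t.2 : ℕ)
    refine good_sub (uniB_good _ _ _) ?_ t.2
    split_ifs
    · exact good_zero
    · exact betB_good _ _ _
  · show (if (∀ j, j ∉ A → α j m = 0) then MvPolynomial.X (Sum.inr m) else 0 :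
      MvPolynomial (TB (n + 1) l) (MvPolynomial (Fin (n + 1)) k)).IsHomogeneous 1
    split_ifs
    · exact MvPolynomial.isHomogeneous_X _ _
    · exact MvPolynomial.isHomogeneous_zero _ _ _

variable {M : Type*} [Field M] [Algebra k M]

theorem sysB_eval (d : Fin q → ℕ) (F : Fin q → MvPolynomial (Fin (n + 1)) k)
    (A : Finset (Fin q)) (α : Fin q → Fin 2 → ℕ) (l : Fin (n + 1)) (x : Fin (n + 1) → M)
    (θ : TB (n + 1) l → M) (j : Fin q) (i : Fin (d j + 1)) :
    MvPolynomial.eval θ (MvPolynomial.map (evH x) (sysB d F A α l (Sum.inl ⟨j, i⟩))) =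
      (lineP (d j) (fun I => algebraMap k M ((F j).coeff I)) x (th l fun b => θ (Sum.inl b)) -
        (if j ∈ A then 0 else C (MvPolynomial.aeval x (F j)) *
          ((1 + C (θ (Sum.inr 0)) * X) ^ α j 0 * (1 + C (θ (Sum.inr 1)) * X) ^ α j 1))).coeff i := by
  have h1 : MvPolynomial.eval θ (MvPolynomial.map (evH x) (sysB d F A α l (Sum.inl ⟨j, i⟩))) =
      ((uniB l (d j) (fun I => (F j).coeff I) -
      (if j ∈ A then 0 else betB l (F j) (α j))).map (evT x θ)).coeff i := by
    rw [Polynomial.coeff_map]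
    rfl
  rw [h1, Polynomial.map_sub, uniB_map]
  congr 2
  split_ifs
  · rw [Polynomial.map_zero]
  · rw [betB_map]

theorem sysB_eval_inr (d : Fin q → ℕ) (F : Fin q → MvPolynomial (Fin (n + 1)) k)
    (A : Finset (Fin q)) (α : Fin q → Fin 2 → ℕ) (l : Fin (n + 1)) (x : Fin (n + 1) → M)
    (θ : TB (n + 1) l → M) (m : Fin 2) (h : ∀ j, j ∉ A → α j m = 0) :
    MvPolynomial.eval θ (MvPolynomial.map (evH x) (sysB d F A α l (Sum.inr m))) =
      θ (Sum.inr m) := by
  show MvPolynomial.eval θ (MvPolynomial.map (evH x)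
    (if (∀ j, j ∉ A → α j m = 0) then MvPolynomial.X (Sum.inr m) else 0)) = _
  rw [if_pos h, MvPolynomial.map_X, MvPolynomial.eval_X]

theorem sysB_iff {d : Fin q → ℕ} {F : Fin q → MvPolynomial (Fin (n + 1)) k}
    {A : Finset (Fin q)} {α : Fin q → Fin 2 → ℕ} (hα : ∀ j, α j 0 + α j 1 = d j)
    {l : Fin (n + 1)} {x : Fin (n + 1) → M} {θ : TB (n + 1) l → M} :
    (∀ i, MvPolynomial.eval θ (MvPolynomial.map (evH x) (sysB d F A α l i)) = 0) ↔
      (∀ j ∈ A, lineP (d j) (fun I => algebraMap k M ((F j).coeff I)) x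
        (th l fun b => θ (Sum.inl b)) = 0) ∧
      (∀ j ∉ A, lineP (d j) (fun I => algebraMap k M ((F j).coeff I)) x
        (th l fun b => θ (Sum.inl b)) = C (MvPolynomial.aeval x (F j)) *
          ((1 + C (θ (Sum.inr 0)) * X) ^ α j 0 * (1 + C (θ (Sum.inr 1)) * X) ^ α j 1)) ∧
      (∀ m : Fin 2, (∀ j, j ∉ A → α j m = 0) → θ (Sum.inr m) = 0) := by
  classical
  constructor
  · intro h
    have hdeg : ∀ (j : Fin q) (P : M[X]), P.natDegree ≤ d j →
        (∀ i : Fin (d j + 1), (lineP (d j) (fun I => algebraMap k M ((F j).coeff I)) x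
          (th l fun b => θ (Sum.inl b)) - P).coeff i = 0) →
        lineP (d j) (fun I => algebraMap k M ((F j).coeff I)) x
          (th l fun b => θ (Sum.inl b)) = P := by
      intro j P hP hi
      rw [← sub_eq_zero]
      ext i
      rw [Polynomial.coeff_zero]
      by_cases hij : i < d j + 1
      · exact hi ⟨i, hij⟩
      · apply Polynomial.coeff_eq_zero_of_natDegree_lt
        refine lt_of_le_of_lt (natDegree_sub_le _ _) ?_
        have := natDegree_lineP (d j) (fun I => algebraMap k M ((F j).coeff I)) x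
          (th l fun b => θ (Sum.inl b))
        rw [max_lt_iff]
        omega
    refine ⟨fun j hj => hdeg j 0 (by simp) fun i => ?_, fun j hj => hdeg j _ ?_ fun i => ?_,
      fun m hm => ?_⟩
    · have h1 := h (Sum.inl ⟨j, i⟩)
      rw [sysB_eval, if_pos hj] at h1
      exact h1
    · rw [← hα j]
      exact natDegree_bet _ _ _ _ _
    · have h1 := h (Sum.inl ⟨j, i⟩)
      rw [sysB_eval, if_neg hj] at h1
      exact h1
    · have h1 := h (Sum.inr m)
      rwa [sysB_eval_inr _ _ _ _ _ _ _ _ hm] at h1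
  · rintro ⟨h1, h2, h3⟩ (⟨j, i⟩ | m)
    · rw [sysB_eval]
      by_cases hj : j ∈ A
      · rw [if_pos hj, h1 j hj, sub_zero, Polynomial.coeff_zero]
      · rw [if_neg hj, h2 j hj, sub_self, Polynomial.coeff_zero]
    · by_cases hm : ∀ j, j ∉ A → α j m = 0
      · rw [sysB_eval_inr _ _ _ _ _ _ _ _ hm, h3 m hm]
      · show MvPolynomial.eval θ (MvPolynomial.map (evH x)
          (if (∀ j, j ∉ A → α j m = 0) then MvPolynomial.X (Sum.inr m) else 0)) = _
        rw [if_neg hm, map_zero, map_zero]

end Sys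

section Hom

variable {k M : Type*} [Field k] [Field M] [Algebra k M]

/-- vanishing on the punctured line through the origin gives vanishing of the components -/
theorem comp_zeroA [CharZero M] {n : ℕ} (H : MvPolynomial (Fin (n + 1)) k) (v : Fin (n + 1) → M)
    (h : ∀ c : M, c ≠ 0 → MvPolynomial.aeval (fun i => c * v i) H = 0) (m : ℕ) :
    MvPolynomial.aeval v (MvPolynomial.homogeneousComponent m H) = 0 := by
  classical
  let P : Polynomial M := ∑ j ∈ Finset.range (H.totalDegree + 1),
    Polynomial.C (MvPolynomial.aeval v (MvPolynomial.homogeneousComponent j H)) * Polynomial.X ^ j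
  have hP : P = 0 := by
    apply Polynomial.eq_of_infinite_eval_eq
    refine Set.Infinite.mono (s := Set.range (fun n : ℕ => ((n + 1 : ℕ) : M))) ?_
      (Set.infinite_range_of_injective (fun a b hab => by
        have := Nat.cast_injective (R := M) hab
        omega))
    rintro _ ⟨m, rfl⟩
    show Polynomial.eval _ _ = Polynomial.eval _ _
    have hm : ((m + 1 : ℕ) : M) ≠ 0 := Nat.cast_ne_zero.mpr (by omega)
    rw [Polynomial.eval_zero, ← h _ hm]
    conv_rhs => rw [← MvPolynomial.sum_homogeneousComponent H]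
    rw [map_sum]
    simp only [P, Polynomial.eval_finsetSum, Polynomial.eval_mul, Polynomial.eval_C,
      Polynomial.eval_pow, Polynomial.eval_X]
    refine Finset.sum_congr rfl fun j _ => ?_
    rw [aeval_eq_Fval _ (MvPolynomial.homogeneousComponent_isHomogeneous j H),
      aeval_eq_Fval _ (MvPolynomial.homogeneousComponent_isHomogeneous j H), Fval_smul]
    ring
  by_cases hn : m < H.totalDegree + 1
  · have h1 := congrArg (fun p : Polynomial M => p.coeff m) hP
    simp only [P, Polynomial.finsetSum_coeff, Polynomial.coeff_C_mul, Polynomial.coeff_X_pow,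
      mul_ite, mul_one, mul_zero, Polynomial.coeff_zero] at h1
    rwa [Finset.sum_ite_eq, if_pos (Finset.mem_range.mpr hn)] at h1
  · rw [MvPolynomial.homogeneousComponent_eq_zero _ _ (by omega), map_zero]

end Hom

end Pool.Agent.Lib.MP_44a246_ntT
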