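import Mathlib
import Pool.Agent.Lib.MP_44a246_ntT.TZ

/-!
The exceptional lines of a generic pair lie in a proper closed subset: the main statement.
-/

namespace Pool.Agent.Lib.MP_44a246_ntT

open Pool.Agent.Lib.MP_e52354_nt Pool.Agent.Lib.MP_e52354_ntG Pool.Agent.Lib.MP_e52354_ntE
open Pool.Agent.Lib.MP_44a246_nt
open Polynomial

universe w

theorem bet_one {M : Type*} [Field M] {b₀ b₁ : M} {m n : ℕ}
    (h : (1 + C b₀ * X) ^ m * (1 + C b₁ * X) ^ n = (1 : M[X])) :
    (m ≠ 0 → b₀ = 0) ∧ (n ≠ 0 → b₁ = 0) := by
  have key : ∀ (b : M) (e : ℕ), e ≠ 0 → IsUnit ((1 + C b * X : M[X]) ^ e) → b = 0 := by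
    intro b e he hu
    rw [isUnit_pow_iff he] at hu
    have h1 := natDegree_eq_zero_of_isUnit hu
    have h2 : (1 + C b * X : M[X]).coeff 1 = b := by
      rw [coeff_add, coeff_one, coeff_C_mul, coeff_X_one]
      simp
    rw [← h2]
    exact coeff_eq_zero_of_natDegree_lt (by omega)
  exact ⟨fun hm => key b₀ m hm (IsUnit.of_mul_eq_one _ h),
    fun hn => key b₁ n hn (IsUnit.of_mul_eq_one_right _ h)⟩

theorem lineP_mapB {L M : Type*} [Field L] [Field M] [Algebra L M] {s : ℕ} (d : ℕ)
    (a : (Fin s →₀ ℕ) → L) (y z : Fin s → L) :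
    (lineP d a y z).map (algebraMap L M) = lineP d (fun I => algebraMap L M (a I))
      (fun k => algebraMap L M (y k)) (fun k => algebraMap L M (z k)) := by
  unfold lineP lmon
  simp only [Polynomial.map_sum, Polynomial.map_mul, Polynomial.map_prod, Polynomial.map_pow,
    Polynomial.map_add, Polynomial.map_C, Polynomial.map_X]

/-- the restriction of a form to a line on which it has at most two zeros -/
theorem line_two {k M : Type*} [Field k] [Field M] [Algebra k M] [IsAlgClosed M] {n d : ℕ}
    (F : MvPolynomial (Fin (n + 1)) k) (hF : F.IsHomogeneous d) {x y : Fin (n + 1) → M}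
    (hx : MvPolynomial.aeval x F ≠ 0) {ρ : Fin 2 → M}
    (hρ : ∀ z, MvPolynomial.aeval (fun i => z * x i + y i) F = 0 → z = ρ 0 ∨ z = ρ 1) (g : M) :
    ∃ m m' : ℕ, m + m' = d ∧
      lineP d (fun I => algebraMap k M (F.coeff I)) x (fun i => y i - g * x i) =
        C (MvPolynomial.aeval x F) * ((1 + C (-(g + ρ 0)) * X) ^ m *
          (1 + C (-(g + ρ 1)) * X) ^ m') := by
  set a : (Fin (n + 1) →₀ ℕ) → M := fun I => algebraMap k M (F.coeff I) with ha
  have hev : ∀ p : Fin (n + 1) → M, MvPolynomial.aeval p F = Fval d a p :=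
    fun p => aeval_eq_Fval F hF p
  obtain ⟨c, m, m', hmm, hP⟩ := exists_two_roots (P := lineP d a y x) (ρ := ρ) (by
    intro z hz
    apply hρ z
    rw [hev, ← hz, eval_lineP]
    congr 1
    funext i
    ring)
  have hdeg : m + m' ≤ d := by
    rw [hmm]
    exact natDegree_lineP d a y x
  have hpoly : lineP d a x (fun i => y i - g * x i) =
      C c * X ^ (d - (m + m')) * ((1 + C (-(g + ρ 0)) * X) ^ m *
          (1 + C (-(g + ρ 1)) * X) ^ m') := by
    have hinf : Infinite M := IsAlgClosed.instInfinite
    apply Polynomial.eq_of_infinite_eval_eq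
    refine Set.Infinite.mono (s := {0}ᶜ) ?_ (Set.Finite.infinite_compl (Set.finite_singleton 0))
    intro T hT
    have hT0 : T ≠ 0 := hT
    show Polynomial.eval _ _ = Polynomial.eval _ _
    rw [eval_lineP]
    have h1 : Fval d a (fun i => x i + (y i - g * x i) * T) =
        T ^ d * (lineP d a y x).eval (T⁻¹ - g) := by
      rw [eval_lineP, ← Fval_smul]
      congr 1
      funext i
      field_simp
      ring
    rw [h1, hP]
    simp only [eval_mul, eval_C, eval_pow, eval_sub, eval_X, eval_add, eval_one]
    have h2 : T ^ d = T ^ (d - (m + m')) * (T ^ m * T ^ m') := by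
      rw [← pow_add, ← pow_add]
      congr 1
      omega
    have h3 : T ^ m * (T⁻¹ - g - ρ 0) ^ m = (1 + -(g + ρ 0) * T) ^ m := by
      rw [← mul_pow]
      congr 1
      field_simp
      ring
    have h4 : T ^ m' * (T⁻¹ - g - ρ 1) ^ m' = (1 + -(g + ρ 1) * T) ^ m' := by
      rw [← mul_pow]
      congr 1
      field_simp
      ring
    rw [h2, ← h3, ← h4]
    ring
  have h0 := congrArg (Polynomial.eval 0) hpoly
  rw [eval_lineP] at h0
  simp only [eval_mul, eval_C, eval_pow, eval_X, eval_add, eval_one, mul_zero, add_zero,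
    one_pow, mul_one] at h0
  have h5 : Fval d a (fun j => x j) ≠ 0 := by
    rw [← hev]
    exact hx
  have h6 : d - (m + m') = 0 := by
    by_contra hne
    rw [zero_pow hne, mul_zero] at h0
    exact h5 h0
  rw [h6, pow_zero, mul_one] at h0
  refine ⟨m, m', by omega, ?_⟩
  rw [hpoly, h6, pow_zero, mul_one, ← h0, ← hev]

theorem exists_HLog {K : Type*} [Field K] [CharZero K] {n q : ℕ} {d : Fin q → ℕ}
    (hd : ∀ j, 1 ≤ d j) (hsum : n + 2 ≤ ∑ j, d j)
    (F : Fin q → MvPolynomial (Fin (n + 1)) K) (hF : ∀ j, (F j).IsHomogeneous (d j))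
    (hgen : AlgebraicIndependent ℚ (fun t : MIdx (n + 1) q d => (F t.1).coeff t.2.1))
    {A : Finset (Fin q)} (hA : A.card ≤ n) :
    ∃ (e : ℕ) (H : MvPolynomial (Fin (n + 1)) K), H.IsHomogeneous e ∧
      (∃ z : Fin (n + 1) → AlgebraicClosure K, z ≠ 0 ∧
        (∀ i, MvPolynomial.aeval z (F i) = 0 ↔ i ∈ A) ∧ MvPolynomial.aeval z H ≠ 0) ∧
      ∀ (L : Type w) [Field L] [Algebra K L] (x y : Fin (n + 1) → L),
        LinearIndependent L ![x, y] → (∀ i, MvPolynomial.aeval x (F i) = 0 ↔ i ∈ A) →
        (∀ i ∈ A, ∀ u v : L, MvPolynomial.aeval (fun j => u * x j + v * y j) (F i) = 0) →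
        {z : AlgebraicClosure L | ∃ i, MvPolynomial.aeval x (F i) ≠ 0 ∧
          MvPolynomial.aeval (fun j => z * algebraMap L (AlgebraicClosure L) (x j) +
            algebraMap L (AlgebraicClosure L) (y j)) (F i) = 0}.encard ≤ 2 →
        MvPolynomial.aeval x H = 0 := by
  classical
  set M₀ := AlgebraicClosure K with hM₀
  set a : (j : Fin q) → (Fin (n + 1) →₀ ℕ) → M₀ :=
    fun j I => algebraMap K M₀ ((F j).coeff I) with ha
  have hai : AlgebraicIndependent ℚ (fun t : MIdx (n + 1) q d => a t.1 t.2.1) := by
    have h1 := hgen.map' (f := (algebraMap K M₀).toRatAlgHom)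
      (by intro u v huv; exact (algebraMap K M₀).injective huv)
    exact h1
  -- the special point
  obtain ⟨Λ, l, x₀, hΛ, hl, hxl, hxΛ, hx₀⟩ := exists_point (k := M₀) (N := n) (q := A.card) hA
    (d := fun j => d (A.equivFin.symm j).1) (fun j => hd _)
    (fun j => MvPolynomial.map (algebraMap K M₀) (F (A.equivFin.symm j).1))
    (fun j => (hF _).map _)
  have hzero : ∀ j ∈ A, MvPolynomial.aeval x₀ (F j) = 0 := by
    intro j hj
    have h1 := hx₀ (A.equivFin ⟨j, hj⟩)
    rw [Equiv.symm_apply_apply, MvPolynomial.eval_map] at h1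
    rw [MvPolynomial.aeval_def]
    exact h1
  have hev : ∀ j (p : Fin (n + 1) → M₀), MvPolynomial.aeval p (F j) = Fval (d j) (a j) p :=
    fun j p => aeval_eq_Fval (F j) (hF j) p
  have hnz : ∀ j ∉ A, MvPolynomial.aeval x₀ (F j) ≠ 0 := by
    intro j hj h0
    refine no_zero hai (A := insert j A) (Λ := Λ) ?_ hl hxl hxΛ ?_
    · rw [hΛ, Finset.card_insert_of_notMem hj]
    · intro i hi
      rw [← hev]
      rcases Finset.mem_insert.mp hi with rfl | hi
      · exact h0
      · exact hzero i hi
  -- the types of exceptional lines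
  let α : ((j : Fin q) → Fin (d j + 1)) → Fin q → Fin 2 → ℕ :=
    fun T j => ![(T j : ℕ), d j - T j]
  have hα : ∀ T j, α T j 0 + α T j 1 = d j := by
    intro T j
    show (T j : ℕ) + (d j - T j) = d j
    have := (T j).2
    omega
  have helim : ∀ T : (j : Fin q) → Fin (d j + 1), ∃ H : MvPolynomial (Fin (n + 1)) K,
      MvPolynomial.aeval x₀ H ≠ 0 ∧ ∀ (M : Type w) [Field M] [Algebra K M] (x : Fin (n + 1) → M),
      MvPolynomial.aeval x H ≠ 0 → ∀ θ : TB (n + 1) l → M,
      (∀ i, MvPolynomial.eval θ (MvPolynomial.map (evH x) (sysB d F A (α T) l i)) = 0) →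
      θ = 0 := by
    intro T
    refine elimB (sysB d F A (α T) l) _ (sysB_hom d F A (α T) l) x₀ ?_
    intro θ hθ
    rw [sysB_iff (hα T)] at hθ
    obtain ⟨h1, h2, h3⟩ := hθ
    by_cases hb : ∃ b, θ (Sum.inl b) ≠ 0
    · exfalso
      obtain ⟨⟨b, hbl⟩, hb⟩ := hb
      set c := (θ (Sum.inl ⟨b, hbl⟩))⁻¹ with hc
      refine no_line_log hai hsum (A := A) (Λ := Λ) (by omega) (l := l) (b := b)
        (Ne.symm hbl) hl hxl hxΛ (θ := fun i => c * th l (fun b => θ (Sum.inl b)) i)
        (by rw [th_l, mul_zero]) ?_ (fun m => c * θ (Sum.inr m)) (α T)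
        (fun j => MvPolynomial.aeval x₀ (F j)) ?_ ?_
      · simp only [th, dif_pos hbl]
        exact inv_mul_cancel₀ hb
      · intro j hj
        rw [lineP_comp, h1 j hj, zero_comp]
      · intro j hj
        rw [lineP_comp, h2 j hj, bet_comp]
    · push Not at hb
      have hth : th l (fun b => θ (Sum.inl b)) = fun _ => 0 := by
        funext i
        unfold th
        split_ifs
        · exact hb _
        · rfl
      have h4 : ∀ j ∉ A, (1 + C (θ (Sum.inr 0)) * X) ^ α T j 0 *
          (1 + C (θ (Sum.inr 1)) * X) ^ α T j 1 = (1 : M₀[X]) := by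
        intro j hj
        have h5 := h2 j hj
        rw [hth] at h5
        have h6 : lineP (d j) (fun I => algebraMap K M₀ ((F j).coeff I)) x₀ (fun _ => 0) =
            C (MvPolynomial.aeval x₀ (F j)) := by
          have h7 := lineP_comp (d := d j) (fun I => algebraMap K M₀ ((F j).coeff I)) x₀
            (fun _ => (0 : M₀)) 0
          simp only [zero_mul] at h7
          rw [h7]
          simp only [C_0, zero_mul]
          rw [Polynomial.comp_zero, eval_lineP, hev]
          congr 2
          funext i
          ring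
        rw [h6] at h5
        have h7 : (C (MvPolynomial.aeval x₀ (F j)) : M₀[X]) ≠ 0 := by
          rw [Ne, C_eq_zero]
          exact hnz j hj
        have h8 := h5.symm
        rw [mul_eq_left₀ h7] at h8
        exact h8
      funext i
      rcases i with b | m
      · exact hb b
      · show θ (Sum.inr m) = 0
        by_cases hm : ∀ j, j ∉ A → α T j m = 0
        · exact h3 m hm
        · push Not at hm
          obtain ⟨j, hj, hjm⟩ := hm
          have h5 := bet_one (h4 j hj)
          fin_cases m
          · exact h5.1 hjm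
          · exact h5.2 hjm
  choose HT hHT1 hHT2 using helim
  set H₁ : MvPolynomial (Fin (n + 1)) K := ∏ T, HT T with hH₁
  have hH₁0 : MvPolynomial.aeval x₀ H₁ ≠ 0 := by
    rw [hH₁, map_prod]
    exact Finset.prod_ne_zero_iff.mpr fun T _ => hHT1 T
  obtain ⟨m, hm⟩ : ∃ m, MvPolynomial.aeval x₀ (MvPolynomial.homogeneousComponent m H₁) ≠ 0 := by
    by_contra hcon
    push Not at hcon
    apply hH₁0
    rw [← MvPolynomial.sum_homogeneousComponent H₁, map_sum]
    exact Finset.sum_eq_zero fun i _ => hcon i
  refine ⟨1 + m, MvPolynomial.X l * MvPolynomial.homogeneousComponent m H₁,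
    (MvPolynomial.isHomogeneous_X _ _).mul
      (MvPolynomial.homogeneousComponent_isHomogeneous m H₁), ⟨x₀, ?_, ?_, ?_⟩, ?_⟩
  · intro h0
    rw [h0] at hxl
    exact zero_ne_one hxl
  · intro i
    constructor
    · intro h
      by_contra hi
      exact hnz i hi h
    · exact hzero i
  · rw [map_mul, MvPolynomial.aeval_X, hxl, one_mul]
    exact hm
  · intro L _ _ x y hxy hxA hline hcard
    have hcL : CharZero L := charZero_of_injective_algebraMap (algebraMap K L).injective
    set M := AlgebraicClosure L with hM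
    have hcM : CharZero M := charZero_of_injective_algebraMap (algebraMap L M).injective
    set v : Fin (n + 1) → M := fun i => algebraMap L M (x i) with hv
    set v' : Fin (n + 1) → M := fun i => algebraMap L M (y i) with hv'
    obtain ⟨ρ, hρ⟩ := exists_pair hcard
    have hinj : Function.Injective (algebraMap L M) := (algebraMap L M).injective
    apply hinj
    rw [map_zero, ← MvPolynomial.aeval_algebraMap_apply]
    show MvPolynomial.aeval v _ = 0
    rw [map_mul, MvPolynomial.aeval_X]
    by_cases hvl : v l = 0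
    · rw [hvl, zero_mul]
    have hxl' : x l ≠ 0 := by
      intro h
      apply hvl
      rw [hv]
      simp only [h, map_zero]
    rw [comp_zeroA H₁ v (fun c hc => ?_) m, mul_zero]
    by_contra hne
    -- the exceptional line through `c v`
    set g : M := v' l / (c * v l) with hg
    have hcv : c * v l ≠ 0 := mul_ne_zero hc hvl
    have hvF : ∀ j, MvPolynomial.aeval v (F j) = algebraMap L M (MvPolynomial.aeval x (F j)) :=
      fun j => MvPolynomial.aeval_algebraMap_apply _ _ _
    have hcvF : ∀ j, MvPolynomial.aeval (fun i => c * v i) (F j) =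
        c ^ d j * MvPolynomial.aeval v (F j) := by
      intro j
      rw [aeval_eq_Fval (F j) (hF j), aeval_eq_Fval (F j) (hF j), Fval_smul]
    have h1 : ∀ j ∉ A, ∃ m m' : ℕ, m + m' = d j ∧
        lineP (d j) (fun I => algebraMap K M ((F j).coeff I)) (fun i => c * v i)
          (fun i => v' i - g * (c * v i)) =
        C (MvPolynomial.aeval (fun i => c * v i) (F j)) *
          ((1 + C (-(g + c⁻¹ * ρ 0)) * X) ^ m * (1 + C (-(g + c⁻¹ * ρ 1)) * X) ^ m') := by
      intro j hj
      have hxj : MvPolynomial.aeval x (F j) ≠ 0 := fun h => hj ((hxA j).mp h)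
      refine line_two (F j) (hF j) (x := fun i => c * v i) (y := v')
        (ρ := fun m => c⁻¹ * ρ m) ?_ ?_ g
      · rw [hcvF, hvF]
        exact mul_ne_zero (pow_ne_zero _ hc) (by rwa [Ne, map_eq_zero])
      · intro z hz
        have h2 : z * c = ρ 0 ∨ z * c = ρ 1 := by
          apply hρ
          refine ⟨j, hxj, ?_⟩
          have h3 : (fun i => z * c * v i + v' i) = fun i => z * (c * v i) + v' i := by
            funext i
            ring
          show MvPolynomial.aeval (fun i => z * c * v i + v' i) (F j) = 0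
          rw [h3]
          exact hz
        rcases h2 with h2 | h2
        · left
          show z = c⁻¹ * ρ 0
          rw [← h2, mul_comm z c, inv_mul_cancel_left₀ hc]
        · right
          show z = c⁻¹ * ρ 1
          rw [← h2, mul_comm z c, inv_mul_cancel_left₀ hc]
    choose mm mm' hmm using h1
    let T : (j : Fin q) → Fin (d j + 1) := fun j =>
      if h : j ∉ A then ⟨mm j h, by have := (hmm j h).1; omega⟩ else 0
    have hT0 : ∀ j (h : j ∉ A), α T j 0 = mm j h := by
      intro j h
      show ((T j : Fin (d j + 1)) : ℕ) = mm j h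
      simp only [T, dif_pos h]
    have hT1 : ∀ j (h : j ∉ A), α T j 1 = mm' j h := by
      intro j h
      have h2 := hα T j
      rw [hT0 j h] at h2
      have h3 := (hmm j h).1
      omega
    let β : Fin 2 → M := fun m => if (∀ j, j ∉ A → α T j m = 0) then 0 else -(g + c⁻¹ * ρ m)
    have hβ : ∀ j ∉ A, ∀ m, (1 + C (β m) * X : M[X]) ^ α T j m =
        (1 + C (-(g + c⁻¹ * ρ m)) * X) ^ α T j m := by
      intro j hj m
      by_cases h : ∀ j, j ∉ A → α T j m = 0
      · rw [h j hj, pow_zero, pow_zero]
      · simp only [β, if_neg h]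
    let θ : TB (n + 1) l → M := Sum.elim (fun b => v' b.1 - g * (c * v b.1)) β
    have hth : th l (fun b => θ (Sum.inl b)) = fun i => v' i - g * (c * v i) := by
      funext i
      unfold th
      split_ifs with h
      · rfl
      · rw [not_not] at h
        rw [h, hg, div_mul_cancel₀ _ hcv, sub_self]
    have hne' : MvPolynomial.aeval (fun i => c * v i) (HT T) ≠ 0 := by
      intro h0
      apply hne
      rw [hH₁, map_prod]
      exact Finset.prod_eq_zero (Finset.mem_univ T) h0
    have hθ0 : θ = 0 := by
      refine hHT2 T M (fun i => c * v i) hne' θ ?_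
      rw [sysB_iff (hα T)]
      refine ⟨fun j hj => ?_, fun j hj => ?_, fun m hm => ?_⟩
      · rw [hth]
        have hinf : Infinite M := IsAlgClosed.instInfinite
        apply Polynomial.eq_of_infinite_eval_eq
        refine Set.Infinite.mono (s := Set.range (fun n : ℕ => (n : M))) ?_
          (Set.infinite_range_of_injective Nat.cast_injective)
        rintro _ ⟨N, rfl⟩
        show Polynomial.eval _ _ = Polynomial.eval _ _
        rw [eval_lineP, Polynomial.eval_zero, ← aeval_eq_Fval (F j) (hF j)]
        have h2 : lineP (d j) (fun I => algebraMap K L ((F j).coeff I)) x y = 0 := by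
          apply Polynomial.eq_of_infinite_eval_eq
          refine Set.Infinite.mono (s := Set.range (fun n : ℕ => (n : L))) ?_
            (Set.infinite_range_of_injective Nat.cast_injective)
          rintro _ ⟨N, rfl⟩
          show Polynomial.eval _ _ = Polynomial.eval _ _
          rw [eval_lineP, Polynomial.eval_zero, ← aeval_eq_Fval (F j) (hF j)]
          have h3 := hline j hj 1 N
          rw [← h3]
          have h4 : (fun i => x i + y i * (N : L)) = fun i => 1 * x i + (N : L) * y i := by
            funext i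
            ring
          rw [h4]
        have h3 : lineP (d j) (fun I => algebraMap K M ((F j).coeff I)) v v' = 0 := by
          have h4 := lineP_mapB (M := M) (d j) (fun I => algebraMap K L ((F j).coeff I)) x y
          rw [h2, Polynomial.map_zero] at h4
          have h5 : (fun I => algebraMap K M ((F j).coeff I)) =
              fun I => algebraMap L M (algebraMap K L ((F j).coeff I)) := by
            funext I
            exact IsScalarTower.algebraMap_apply K L M _
          rw [h5]
          exact h4.symm
        have h6 := Fval_comb (d j) (fun I => algebraMap K M ((F j).coeff I)) h3 hinf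
          (c - g * c * N) N
        rw [aeval_eq_Fval (F j) (hF j), ← h6]
        congr 1
        funext i
        ring
      · rw [hth, (hmm j hj).2]
        show _ = C _ * ((1 + C (β 0) * X) ^ α T j 0 * (1 + C (β 1) * X) ^ α T j 1)
        rw [hβ j hj, hβ j hj, hT0 j hj, hT1 j hj]
      · show β m = 0
        simp only [β, if_pos hm]
    have h5 : ∀ i, v' i * v l = v' l * v i := by
      intro i
      have h6 := congrFun hth i
      rw [hθ0] at h6
      have h7 : th l (fun b : {b : Fin (n + 1) // b ≠ l} => (0 : TB (n + 1) l → M) (Sum.inl b)) i =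
          (0 : M) := by
        unfold th
        split_ifs <;> rfl
      rw [h7, hg, div_mul_eq_mul_div] at h6
      have h8 : v' i = v' l * (c * v i) / (c * v l) := (sub_eq_zero.mp h6.symm)
      rw [eq_div_iff hcv] at h8
      apply mul_left_cancel₀ hc
      linear_combination h8
    rw [LinearIndependent.pair_iff] at hxy
    have h8 := hxy (- y l) (x l) (by
      funext i
      simp only [Pi.add_apply, Pi.smul_apply, smul_eq_mul, Pi.zero_apply]
      apply hinj
      rw [map_zero, map_add, map_mul, map_mul, map_neg]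
      have := h5 i
      simp only [hv, hv'] at this
      linear_combination this)
    exact hxl' h8.2

end Pool.Agent.Lib.MP_44a246_ntT
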