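import Mathlib
import Pool.Agent.Lib.MP_44a246_ntT.TZMain

/-!
When exceptional lines can exist: a count of transcendence degrees.
-/

namespace Pool.Agent.Lib.MP_44a246_ntT

open Pool.Agent.Lib.MP_e52354_nt Pool.Agent.Lib.MP_e52354_ntG Pool.Agent.Lib.MP_e52354_ntE
open Pool.Agent.Lib.MP_44a246_nt
open Polynomial

universe w

theorem count_line {k₀ k : Type*} [Field k₀] [Field k] [Algebra k₀ k] {N q : ℕ} {d : Fin q → ℕ}
    {a : (j : Fin q) → (Fin (N + 1) →₀ ℕ) → k}
    (ha : AlgebraicIndependent k₀ (fun t : MIdx (N + 1) q d => a t.1 t.2.1))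
    {l b : Fin (N + 1)} (hlb : l ≠ b) {x θ : Fin (N + 1) → k} (hxl : x l = 1) (hxb : x b = 0)
    (hθl : θ l = 0) (hθb : θ b = 1) {E : Type*} [Fintype E] (g' : E → k)
    (h : ∀ B : Subalgebra k₀ k, (∀ e, g' e ∈ B) → ∀ j,
      lineP (d j) (a j) x θ ∈ lifts (algebraMap B k)) :
    ∑ j, d j + q ≤ 2 * (N - 1) + Fintype.card E := by
  classical
  set P : Finset (MIdx (N + 1) q d) := Finset.univ.image (pvs l b d) with hP
  set Q : Finset (Fin (N + 1)) := ((Finset.univ : Finset (Fin (N + 1))).erase l).erase b with hQ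
  let g : ({i // i ∈ Q} ⊕ {i // i ∈ Q}) ⊕ ({t // t ∉ P} ⊕ E) → k :=
    Sum.elim (Sum.elim (fun i => x i.1) (fun i => θ i.1)) (Sum.elim (fun t => a t.1.1 t.1.2.1) g')
  set B := Algebra.adjoin k₀ (Set.range g) with hB
  have hg : ∀ γ, g γ ∈ B := fun γ => Algebra.subset_adjoin ⟨γ, rfl⟩
  have hmQ : ∀ i, i ≠ l → i ≠ b → i ∈ Q := fun i h1 h2 =>
    Finset.mem_erase.mpr ⟨h2, Finset.mem_erase.mpr ⟨h1, Finset.mem_univ _⟩⟩
  have hx : ∀ i, x i ∈ B := by
    intro i
    by_cases h1 : i = l
    · rw [h1, hxl]; exact Subalgebra.one_mem _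
    by_cases h2 : i = b
    · rw [h2, hxb]; exact Subalgebra.zero_mem _
    · exact hg (Sum.inl (Sum.inl ⟨i, hmQ i h1 h2⟩))
  have hθ : ∀ i, θ i ∈ B := by
    intro i
    by_cases h1 : i = l
    · rw [h1, hθl]; exact Subalgebra.zero_mem _
    by_cases h2 : i = b
    · rw [h2, hθb]; exact Subalgebra.one_mem _
    · exact hg (Sum.inl (Sum.inr ⟨i, hmQ i h1 h2⟩))
  have hall : ∀ t : MIdx (N + 1) q d, a t.1 t.2.1 ∈ B := by
    rintro ⟨j, I, hI⟩
    refine pivB hlb hxl hθl hθb B (h B (fun e => hg (Sum.inr (Sum.inr e))) j) hx hθ ?_ I hI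
    intro J hJ hJp
    refine hg (Sum.inr (Sum.inl ⟨⟨j, J, hJ⟩, ?_⟩))
    intro hmem
    rw [hP] at hmem
    obtain ⟨⟨i, u⟩, _, h2⟩ := Finset.mem_image.mp hmem
    simp only [pvs, Sigma.mk.injEq] at h2
    obtain ⟨rfl, h3⟩ := h2
    have h4 := congrArg Subtype.val (eq_of_heq h3)
    exact hJp u (Nat.lt_succ_iff.mp u.isLt) h4.symm
  have hcard := card_le_of_mem_adjoin _ ha g hall
  have hQc : Q.card = N - 1 := by
    rw [hQ, Finset.card_erase_of_mem (Finset.mem_erase.mpr ⟨hlb.symm, Finset.mem_univ _⟩),
      Finset.card_erase_of_mem (Finset.mem_univ _), Finset.card_univ, Fintype.card_fin,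
      Nat.add_sub_cancel]
  rw [Fintype.card_sum, Fintype.card_sum, Fintype.card_sum, Fintype.card_coe,
    Fintype.card_subtype_compl, Fintype.card_coe, hQc] at hcard
  have hPc : P.card = ∑ j, d j + q := card_pvs hlb d
  have h2 : P.card ≤ Fintype.card (MIdx (N + 1) q d) := Finset.card_le_univ P
  omega

/-- the numerical conditions for an exceptional line -/
theorem exc_num {K : Type*} [Field K] [CharZero K] {n q : ℕ} {d : Fin q → ℕ}
    (F : Fin q → MvPolynomial (Fin (n + 1)) K) (hF : ∀ j, (F j).IsHomogeneous (d j))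
    (hgen : AlgebraicIndependent ℚ (fun t : MIdx (n + 1) q d => (F t.1).coeff t.2.1))
    {A : Finset (Fin q)} {L : Type*} [Field L] [Algebra K L] {x y : Fin (n + 1) → L}
    (hxy : LinearIndependent L ![x, y]) (hxA : ∀ i, MvPolynomial.aeval x (F i) = 0 ↔ i ∈ A)
    (hline : ∀ i ∈ A, ∀ u v : L, MvPolynomial.aeval (fun j => u * x j + v * y j) (F i) = 0)
    (hcard : {z : AlgebraicClosure L | ∃ i, MvPolynomial.aeval x (F i) ≠ 0 ∧
      MvPolynomial.aeval (fun j => z * algebraMap L (AlgebraicClosure L) (x j) +
        algebraMap L (AlgebraicClosure L) (y j)) (F i) = 0}.encard ≤ 2) :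
    ∑ i, d i + A.card ≤ 2 * n ∧ (A = Finset.univ → ∑ i, d i + q + 2 ≤ 2 * n) := by
  classical
  have hcL : CharZero L := charZero_of_injective_algebraMap (algebraMap K L).injective
  set M := AlgebraicClosure L with hM
  have hcM : CharZero M := charZero_of_injective_algebraMap (algebraMap L M).injective
  have hinf : Infinite M := IsAlgClosed.instInfinite
  have hinj : Function.Injective (algebraMap L M) := (algebraMap L M).injective
  set a : (j : Fin q) → (Fin (n + 1) →₀ ℕ) → M :=
    fun j I => algebraMap K M ((F j).coeff I) with ha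
  have hai : AlgebraicIndependent ℚ (fun t : MIdx (n + 1) q d => a t.1 t.2.1) := by
    have h1 := hgen.map' (f := (algebraMap K M).toRatAlgHom)
      (by intro u v huv; exact (algebraMap K M).injective huv)
    exact h1
  -- two coordinates
  obtain ⟨l, b, hlb⟩ : ∃ l b, x l * y b - x b * y l ≠ 0 := by
    by_contra hcon
    push Not at hcon
    obtain ⟨l, hl⟩ : ∃ l, x l ≠ 0 := by
      by_contra h0
      push Not at h0
      have h1 := LinearIndependent.ne_zero 0 hxy
      exact h1 (funext h0)
    rw [LinearIndependent.pair_iff] at hxy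
    have h8 := hxy (- y l) (x l) (by
      funext i
      simp only [Pi.add_apply, Pi.smul_apply, smul_eq_mul, Pi.zero_apply]
      have := hcon l i
      linear_combination this)
    exact hl h8.2
  have hne : l ≠ b := by
    rintro rfl
    exact hlb (by ring)
  set Δ : L := x l * y b - x b * y l with hΔ
  set v : Fin (n + 1) → L := fun i => Δ⁻¹ * (y b * x i - x b * y i) with hv
  set θ : Fin (n + 1) → L := fun i => Δ⁻¹ * (x l * y i - y l * x i) with hθ
  set v' : Fin (n + 1) → M := fun i => algebraMap L M (v i) with hv'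
  set θ' : Fin (n + 1) → M := fun i => algebraMap L M (θ i) with hθ'
  have hvl : v l = 1 := by
    show Δ⁻¹ * (y b * x l - x b * y l) = 1
    have : y b * x l - x b * y l = Δ := by rw [hΔ]; ring
    rw [this, inv_mul_cancel₀ hlb]
  have hvb : v b = 0 := by
    show Δ⁻¹ * (y b * x b - x b * y b) = 0
    ring
  have hθl : θ l = 0 := by
    show Δ⁻¹ * (x l * y l - y l * x l) = 0
    ring
  have hθb : θ b = 1 := by
    show Δ⁻¹ * (x l * y b - y l * x b) = 1
    have : x l * y b - y l * x b = Δ := by rw [hΔ]; ring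
    rw [this, inv_mul_cancel₀ hlb]
  have hev : ∀ j (p : Fin (n + 1) → M), MvPolynomial.aeval p (F j) = Fval (d j) (a j) p :=
    fun j p => aeval_eq_Fval (F j) (hF j) p
  -- the forms in `A`
  have hA : ∀ j ∈ A, lineP (d j) (a j) v' θ' = 0 := by
    intro j hj
    have h2 : lineP (d j) (fun I => algebraMap K L ((F j).coeff I)) v θ = 0 := by
      apply Polynomial.eq_of_infinite_eval_eq
      refine Set.Infinite.mono (s := Set.range (fun n : ℕ => (n : L))) ?_
        (Set.infinite_range_of_injective Nat.cast_injective)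
      rintro _ ⟨T, rfl⟩
      show Polynomial.eval _ _ = Polynomial.eval _ _
      rw [eval_lineP, Polynomial.eval_zero, ← aeval_eq_Fval (F j) (hF j)]
      have h3 := hline j hj (Δ⁻¹ * (y b - y l * T)) (Δ⁻¹ * (x l * T - x b))
      rw [← h3]
      have h4 : (fun i => v i + θ i * (T : L)) = fun i =>
          Δ⁻¹ * (y b - y l * T) * x i + Δ⁻¹ * (x l * T - x b) * y i := by
        funext i
        simp only [hv, hθ]
        ring
      rw [h4]
    have h4 := lineP_mapB (M := M) (d j) (fun I => algebraMap K L ((F j).coeff I)) v θ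
    rw [h2, Polynomial.map_zero] at h4
    have h5 : a j = fun I => algebraMap L M (algebraMap K L ((F j).coeff I)) := by
      funext I
      exact IsScalarTower.algebraMap_apply K L M _
    rw [h5]
    exact h4.symm
  -- the other forms: the parameters of the zeros
  have hcard' : {T : M | ∃ j, j ∉ A ∧ (lineP (d j) (a j) v' θ').eval T = 0}.encard ≤ 2 := by
    have hx0 : ∀ T : M, (∃ j, j ∉ A ∧ (lineP (d j) (a j) v' θ').eval T = 0) →
        algebraMap L M (x l) * T - algebraMap L M (x b) ≠ 0 := by
      rintro T ⟨j, hj, hT⟩ h0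
      rw [eval_lineP] at hT
      have h1 : (fun i => v' i + θ' i * T) = fun i => (algebraMap L M Δ⁻¹ *
          (algebraMap L M (y b) - algebraMap L M (y l) * T)) * algebraMap L M (x i) := by
        funext i
        simp only [hv', hθ', hv, hθ, map_mul, map_sub]
        linear_combination (algebraMap L M Δ⁻¹ * algebraMap L M (y i)) * h0
      rw [h1, Fval_smul] at hT
      have h2 : Fval (d j) (a j) (fun i => algebraMap L M (x i)) ≠ 0 := by
        rw [← hev]
        have h3 : MvPolynomial.aeval (fun i => algebraMap L M (x i)) (F j) =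
            algebraMap L M (MvPolynomial.aeval x (F j)) :=
          MvPolynomial.aeval_algebraMap_apply _ _ _
        rw [h3, Ne, map_eq_zero]
        exact fun h => hj ((hxA j).mp h)
      have h3 : algebraMap L M Δ⁻¹ * (algebraMap L M (y b) - algebraMap L M (y l) * T) ≠ 0 := by
        intro h3
        rcases mul_eq_zero.mp h3 with h4 | h4
        · rw [map_eq_zero] at h4
          exact inv_ne_zero hlb h4
        · -- then the matrix of `x, y` is singular
          have h5 : algebraMap L M Δ = 0 := by
            rw [hΔ, map_sub, map_mul, map_mul]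
            linear_combination (algebraMap L M (x l)) * h4 + (algebraMap L M (y l)) * h0
          rw [map_eq_zero] at h5
          exact hlb h5
      exact mul_ne_zero (pow_ne_zero _ h3) h2 hT
    let f : M → M := fun T => (algebraMap L M (y b) - algebraMap L M (y l) * T) /
      (algebraMap L M (x l) * T - algebraMap L M (x b))
    refine le_trans (Set.encard_le_encard_of_injOn (f := f) ?_ ?_) hcard
    · rintro T ⟨j, hj, hT⟩
      have h0 := hx0 T ⟨j, hj, hT⟩
      refine ⟨j, fun h => hj ((hxA j).mp h), ?_⟩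
      rw [eval_lineP] at hT
      have h1 : (fun i => v' i + θ' i * T) = fun i => (algebraMap L M Δ⁻¹ *
          (algebraMap L M (x l) * T - algebraMap L M (x b))) *
          (f T * algebraMap L M (x i) + algebraMap L M (y i)) := by
        funext i
        have h2 : f T * (algebraMap L M (x l) * T - algebraMap L M (x b)) =
            algebraMap L M (y b) - algebraMap L M (y l) * T := div_mul_cancel₀ _ h0
        simp only [hv', hθ', hv, hθ, map_mul, map_sub]
        linear_combination (- algebraMap L M Δ⁻¹ * algebraMap L M (x i)) * h2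
      rw [h1, Fval_smul, mul_eq_zero] at hT
      rw [hev]
      refine hT.resolve_left (pow_ne_zero _ (mul_ne_zero ?_ h0))
      rw [Ne, map_eq_zero]
      exact inv_ne_zero hlb
    · intro T hT T' hT' hTT
      have h0 := hx0 T hT
      have h0' := hx0 T' hT'
      have h1 : (algebraMap L M (y b) - algebraMap L M (y l) * T) *
          (algebraMap L M (x l) * T' - algebraMap L M (x b)) =
          (algebraMap L M (y b) - algebraMap L M (y l) * T') *
          (algebraMap L M (x l) * T - algebraMap L M (x b)) := by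
        have h2 := (div_eq_div_iff h0 h0').mp hTT
        exact h2
      have h3 : algebraMap L M Δ * (T' - T) = 0 := by
        rw [hΔ, map_sub, map_mul, map_mul]
        linear_combination h1
      rcases mul_eq_zero.mp h3 with h4 | h4
      · rw [map_eq_zero] at h4
        exact absurd h4 hlb
      · exact (sub_eq_zero.mp h4).symm
  obtain ⟨ρ, hρ⟩ := exists_pair hcard'
  have hB : ∀ j ∉ A, ∃ (c : M) (m m' : ℕ), lineP (d j) (a j) v' θ' =
      C c * ((X - C (ρ 0)) ^ m * (X - C (ρ 1)) ^ m') := by
    intro j hj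
    obtain ⟨c, m, m', -, h⟩ := exists_two_roots (P := lineP (d j) (a j) v' θ') (ρ := ρ)
      (fun z hz => hρ z ⟨j, hj, hz⟩)
    exact ⟨c, m, m', h⟩
  have hn : 1 ≤ n := by
    by_contra h0
    have : n = 0 := by omega
    subst this
    exact hne (Fin.ext (by omega))
  have hv'l : v' l = 1 := by rw [hv']; simp only [hvl, map_one]
  have hv'b : v' b = 0 := by rw [hv']; simp only [hvb, map_zero]
  have hθ'l : θ' l = 0 := by rw [hθ']; simp only [hθl, map_zero]
  have hθ'b : θ' b = 1 := by rw [hθ']; simp only [hθb, map_one]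
  constructor
  · choose c m m' hc using hB
    have h1 := count_line hai hne hv'l hv'b hθ'l hθ'b (E := Fin 2 ⊕ {j // j ∉ A})
      (Sum.elim ρ fun j => c j.1 j.2) (by
        intro B hBm j
        by_cases hj : j ∈ A
        · rw [hA j hj]
          exact Subsemiring.zero_mem _
        · rw [hc j hj]
          have hX : ∀ i, (X - C (ρ i) : M[X]) ∈ lifts (algebraMap B M) := by
            intro i
            rw [sub_eq_add_neg, ← C_neg]
            exact Subsemiring.add_mem _ (X_lifts B)
              (C_lifts B (Subalgebra.neg_mem _ (hBm (Sum.inl i))))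
          exact Subsemiring.mul_mem _ (C_lifts B (hBm (Sum.inr ⟨j, hj⟩)))
            (Subsemiring.mul_mem _ (Subsemiring.pow_mem _ (hX 0) _)
              (Subsemiring.pow_mem _ (hX 1) _)))
    rw [Fintype.card_sum, Fintype.card_fin, Fintype.card_subtype_compl, Fintype.card_fin,
      Fintype.card_coe] at h1
    have h5 : A.card ≤ q := by
      have := Finset.card_le_univ A
      rwa [Fintype.card_fin] at this
    omega
  · intro hu
    have h1 := count_line hai hne hv'l hv'b hθ'l hθ'b (E := Fin 0) Fin.elim0 (by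
        intro B hBm j
        rw [hA j (by rw [hu]; exact Finset.mem_univ j)]
        exact Subsemiring.zero_mem _)
    rw [Fintype.card_fin] at h1
    omega

end Pool.Agent.Lib.MP_44a246_ntT
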